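import Pool.Agent.Lib.MP_764a00_al.DepGroup

set_option autoImplicit false

namespace Pool.MP_764a00_al.Arch

open Classical Cardinal

/-- absorbing one more copy -/
theorem absorb {ι : Type} [Infinite ι] (A : Type) [AddCommGroup A] :
    Nonempty ((A × (ι →₀ A)) ≃+ (ι →₀ A)) := by
  obtain ⟨e⟩ : Nonempty ((Unit ⊕ ι) ≃ ι) := by
    rw [← Cardinal.eq, mk_sum]
    simp only [lift_id, mk_unit]
    rw [add_eq_right (aleph0_le_mk ι) (one_lt_aleph0.le.trans (aleph0_le_mk ι))]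
  refine ⟨?_⟩
  exact ((AddEquiv.prodCongr (Finsupp.uniqueAddEquiv (M := A) ()).symm (AddEquiv.refl _)).trans
    (Finsupp.sumFinsuppAddEquivProdFinsupp (α := Unit) (β := ι) (M := A)).symm).trans
    (Finsupp.domCongr e)

/-- absorbing smaller direct sums -/
theorem absorb_finsupp {ι B : Type} [Infinite ι] (hB : #B ≤ #ι) (A : Type) [AddCommGroup A] :
    Nonempty (((B →₀ A) × (ι →₀ A)) ≃+ (ι →₀ A)) := by
  obtain ⟨e⟩ : Nonempty ((B ⊕ ι) ≃ ι) := by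
    rw [← Cardinal.eq, mk_sum]
    simp only [lift_id]
    rw [add_eq_right (aleph0_le_mk ι) hB]
  refine ⟨?_⟩
  exact (Finsupp.sumFinsuppAddEquivProdFinsupp (α := B) (β := ι) (M := A)).symm.trans
    (Finsupp.domCongr e)

section Split

variable {W : Type} [AddCommGroup W]

/-- splitting a group of functions by evaluation at a point -/
theorem split_at {Ω : Type} (P₀ : Ω) (A : AddSubgroup W) (N N₀ : AddSubgroup (Ω → W))
    (h1 : ∀ a ∈ A, (fun _ => a) ∈ N) (h2 : ∀ f ∈ N, f P₀ ∈ A)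
    (h3 : ∀ f, f ∈ N₀ ↔ f ∈ N ∧ f P₀ = 0) : Nonempty (N ≃+ (A × N₀)) := by
  refine ⟨{
    toFun := fun f => (⟨f.1 P₀, h2 f.1 f.2⟩, ⟨f.1 - (fun _ => f.1 P₀), (h3 _).2
      ⟨N.sub_mem f.2 (h1 _ (h2 f.1 f.2)), by simp⟩⟩)
    invFun := fun x => ⟨(fun _ => x.1.1) + x.2.1, N.add_mem (h1 _ x.1.2) ((h3 _).1 x.2.2).1⟩
    left_inv := ?_
    right_inv := ?_
    map_add' := ?_ }⟩
  · intro f
    apply Subtype.ext
    funext P
    simp
  · rintro ⟨⟨a, ha⟩, ⟨f, hf⟩⟩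
    have h0 := ((h3 f).1 hf).2
    apply Prod.ext
    · apply Subtype.ext
      simp [h0]
    · apply Subtype.ext
      funext P
      simp [h0]
  · intro f g
    apply Prod.ext
    · apply Subtype.ext
      simp
    · apply Subtype.ext
      funext P
      simp only [AddSubgroup.coe_add, Pi.sub_apply, Pi.add_apply, Prod.mk_add_mk]
      abel

end Split

section Main

variable {W : Type} [AddCommGroup W] [Module ℚ W]

/-- finitely determined functions with values in `H` -/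
def DepG (H : AddSubgroup W) : AddSubgroup (Ord W → W) where
  carrier := {f | (∃ S : Finset W, Dep f S) ∧ ∀ P, f P ∈ H}
  zero_mem' := ⟨⟨∅, fun P Q _ => rfl⟩, fun _ => H.zero_mem⟩
  add_mem' := by
    rintro f g ⟨⟨S, hS⟩, hf⟩ ⟨⟨T, hT⟩, hg⟩
    exact ⟨⟨S ∪ T, hS.comp₂ hT (fun a b => a + b)⟩, fun P => H.add_mem (hf P) (hg P)⟩
  neg_mem' := by
    rintro f ⟨⟨S, hS⟩, hf⟩
    exact ⟨⟨S, hS.comp (fun a => -a)⟩, fun P => H.neg_mem (hf P)⟩

theorem fsup_mem_DepG (H : AddSubgroup W) {f g : Ord W → W} (hf : f ∈ DepG H) (hg : g ∈ DepG H) :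
    fsup f g ∈ DepG H := by
  obtain ⟨⟨S, hS⟩, hf⟩ := hf
  obtain ⟨⟨T, hT⟩, hg⟩ := hg
  obtain ⟨U, _, hU⟩ := hS.fsup hT
  refine ⟨⟨U, hU⟩, fun P => ?_⟩
  unfold fsup
  split_ifs
  · exact hg P
  · exact hf P

theorem archLO_DepG (H : AddSubgroup W) : ArchLO (DepG H) := by
  apply archLO_subgroup
  · intro f hf g hg; exact fsup_mem_DepG H hf hg
  · intro f hf g hg h
    exact arch_of_dep hf.1.choose_spec hg.1.choose_spec h

theorem archLO_sub_DepG (H G : AddSubgroup W) (P₀ : Ord W) (N : AddSubgroup (Ord W → W))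
    (hN : ∀ f, f ∈ N ↔ f ∈ DepG H ∧ f P₀ ∈ G) : ArchLO N := by
  apply archLO_subgroup
  · intro f hf g hg
    rw [hN] at hf hg ⊢
    refine ⟨fsup_mem_DepG H hf.1 hg.1, ?_⟩
    unfold fsup
    split_ifs
    · exact hg.2
    · exact hf.2
  · intro f hf g hg h
    rw [hN] at hf hg
    exact arch_of_dep hf.1.1.choose_spec hg.1.1.choose_spec h

theorem DepG_equiv [Infinite W] (H : AddSubgroup W) :
    ∃ B : Type, #B ≤ #W ∧ Nonempty B ∧ Nonempty (DepG H ≃+ (B →₀ H)) := by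
  have hfr : ∀ d ∈ DepZ W, (Set.range d).Finite := by
    rintro d ⟨S, hS⟩
    exact hS.finite_range
  have hfree : Module.Free ℤ (DepZ W) := free_of_finite_range (DepZ W) hfr
  let b := Module.Free.chooseBasis ℤ (DepZ W)
  refine ⟨Module.Free.ChooseBasisIndex ℤ (DepZ W), ?_, ?_, ?_⟩
  · exact (mk_le_of_injective b.injective).trans (card_depZ W)
  · by_contra hcon
    rw [not_nonempty_iff] at hcon
    obtain ⟨P⟩ := Ord.exists_ord W
    have h1 : (fun _ => 1 : Ord W → ℤ) ∈ DepZ W := ⟨∅, fun P Q _ => rfl⟩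
    have hsub : Subsingleton (DepZ W) := b.repr.injective.subsingleton
    have h2 : (⟨_, h1⟩ : DepZ W) = 0 := Subsingleton.elim _ _
    have h3 := congrArg (fun d : DepZ W => d.1 P) h2
    simp at h3
  · apply finValued_equiv (DepZ W) b H (DepG H)
    · rintro h hh d ⟨S, hS⟩
      exact ⟨⟨S, hS.comp (fun z => z • h)⟩, fun P => H.zsmul_mem hh _⟩
    · rintro f ⟨⟨S, hS⟩, hf⟩
      exact ⟨hS.finite_range, hf, fun w => ⟨S, hS.comp (fun x => if x = w then (1 : ℤ) else 0)⟩⟩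

/-- the concrete form of the first theorem -/
theorem main_subgroups [Infinite W] (H G : AddSubgroup W) (hGH : G ≤ H) (ι : Type) [Infinite ι]
    (hι : #W ≤ #ι) : ArchLO (G × (ι →₀ H)) := by
  obtain ⟨P₀⟩ := Ord.exists_ord W
  obtain ⟨B, hB, hBne, ⟨eB⟩⟩ := DepG_equiv H
  let M := DepG H
  -- E
  let E : AddSubgroup (Ord W → W) :=
    { carrier := {f | f ∈ DepG H ∧ f P₀ ∈ G}
      zero_mem' := ⟨(DepG H).zero_mem, G.zero_mem⟩
      add_mem' := by
        rintro f g ⟨h1, h2⟩ ⟨h3, h4⟩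
        exact ⟨(DepG H).add_mem h1 h3, G.add_mem h2 h4⟩
      neg_mem' := by
        rintro f ⟨h1, h2⟩
        exact ⟨(DepG H).neg_mem h1, G.neg_mem h2⟩ }
  let E₀ : AddSubgroup (Ord W → W) :=
    { carrier := {f | f ∈ DepG H ∧ f P₀ = 0}
      zero_mem' := ⟨(DepG H).zero_mem, rfl⟩
      add_mem' := by
        rintro f g ⟨h1, h2⟩ ⟨h3, h4⟩
        refine ⟨(DepG H).add_mem h1 h3, ?_⟩
        simp [h2, h4]
      neg_mem' := by
        rintro f ⟨h1, h2⟩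
        refine ⟨(DepG H).neg_mem h1, ?_⟩
        simp [h2] }
  have hE : ArchLO E := archLO_sub_DepG H G P₀ E (fun f => Iff.rfl)
  have hM : ArchLO (ι →₀ M) := (archLO_DepG H).finsupp
  obtain ⟨eE⟩ := split_at P₀ G E E₀
    (fun a ha => ⟨⟨⟨∅, fun _ _ _ => rfl⟩, fun _ => hGH ha⟩, ha⟩) (fun f hf => hf.2)
    (fun f => ⟨fun h => ⟨⟨h.1, by rw [h.2]; exact G.zero_mem⟩, h.2⟩, fun h => ⟨h.1.1, h.2⟩⟩)
  obtain ⟨eM⟩ := split_at P₀ H M E₀
    (fun a ha => ⟨⟨∅, fun _ _ _ => rfl⟩, fun _ => ha⟩) (fun f hf => hf.2 P₀)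
    (fun f => Iff.rfl)
  -- X = ι →₀ M is isomorphic to ι →₀ H
  obtain ⟨eι⟩ : Nonempty ((ι × B) ≃ ι) := by
    rw [← Cardinal.eq, mk_prod]
    simp only [lift_id]
    exact mul_eq_left (aleph0_le_mk ι) (hB.trans hι) (by rw [mk_ne_zero_iff]; exact hBne)
  have e1 : (ι →₀ M) ≃+ (ι →₀ H) :=
    ((Finsupp.mapRange.addEquiv eB).trans
      (Finsupp.curryAddEquiv (α := ι) (β := B) (M := H)).symm).trans (Finsupp.domCongr eι)
  -- E₀ × X ≃ X
  have e2 : Nonempty ((E₀ × (ι →₀ M)) ≃+ (ι →₀ M)) := by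
    obtain ⟨a1⟩ := absorb (ι := ι) M
    obtain ⟨a2⟩ := absorb (ι := ι) H
    -- X ≃ M × X ≃ (H × E₀) × X ≃ E₀ × (H × X) ≃ E₀ × X
    have s1 : (H × (ι →₀ M)) ≃+ (ι →₀ M) :=
      ((AddEquiv.prodCongr (AddEquiv.refl _) e1).trans a2).trans e1.symm
    have s2 : (ι →₀ M) ≃+ ((H × E₀) × (ι →₀ M)) :=
      a1.symm.trans (AddEquiv.prodCongr eM (AddEquiv.refl _))
    have s3 : ((H × E₀) × (ι →₀ M)) ≃+ (E₀ × (H × (ι →₀ M))) :=
      ((AddEquiv.prodCongr AddEquiv.prodComm (AddEquiv.refl _))).trans AddEquiv.prodAssoc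
    exact ⟨((s2.trans s3).trans (AddEquiv.prodCongr (AddEquiv.refl _) s1)).symm⟩
  obtain ⟨e2⟩ := e2
  have hEX : ArchLO (E × (ι →₀ M)) := hE.prod hM
  refine ArchLO.of_equiv ?_ hEX
  exact (((AddEquiv.prodCongr eE (AddEquiv.refl _)).trans AddEquiv.prodAssoc).trans
    (AddEquiv.prodCongr (AddEquiv.refl _) e2)).trans (AddEquiv.prodCongr (AddEquiv.refl _) e1)

end Main

end Pool.MP_764a00_al.Arch
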