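import Mathlib

set_option autoImplicit false

namespace Pool.MP_764a00_al.Arch

open Classical

/-- `H` admits a translation-invariant Archimedean lattice order. -/
def ArchLO (H : Type) [AddCommGroup H] : Prop :=
  ∃ _ : Lattice H, (∀ a b c : H, a ≤ b → c + a ≤ c + b) ∧
    (∀ a b : H, (∀ n : ℕ, n • a ≤ b) → a ≤ 0)

theorem ArchLO.of_equiv {H K : Type} [AddCommGroup H] [AddCommGroup K] (e : H ≃+ K)
    (h : ArchLO H) : ArchLO K := by
  obtain ⟨L, h1, h2⟩ := h
  let LK : Lattice K :=
    { le := fun a b => e.symm a ≤ e.symm b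
      lt := fun a b => e.symm a < e.symm b
      le_refl := fun a => le_refl _
      le_trans := fun a b c hab hbc => le_trans hab hbc
      lt_iff_le_not_ge := fun a b => lt_iff_le_not_ge
      le_antisymm := fun a b hab hba => e.symm.injective (le_antisymm hab hba)
      sup := fun a b => e (e.symm a ⊔ e.symm b)
      inf := fun a b => e (e.symm a ⊓ e.symm b)
      le_sup_left := fun a b => by simp
      le_sup_right := fun a b => by simp
      sup_le := fun a b c hac hbc => by
        show e.symm (e (e.symm a ⊔ e.symm b)) ≤ e.symm c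
        rw [AddEquiv.symm_apply_apply]; exact sup_le hac hbc
      inf_le_left := fun a b => by simp
      inf_le_right := fun a b => by simp
      le_inf := fun a b c hab hac => by
        show e.symm a ≤ e.symm (e (e.symm b ⊓ e.symm c))
        rw [AddEquiv.symm_apply_apply]; exact le_inf hab hac }
  refine ⟨LK, ?_, ?_⟩
  · intro a b c hab
    show e.symm (c + a) ≤ e.symm (c + b)
    rw [map_add, map_add]
    exact h1 _ _ _ hab
  · intro a b hab
    show e.symm a ≤ e.symm 0
    rw [map_zero]
    refine h2 _ (e.symm b) fun n => ?_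
    have := hab n
    have h3 : e.symm (n • a) ≤ e.symm b := this
    rwa [map_nsmul] at h3

theorem ArchLO.prod {H K : Type} [AddCommGroup H] [AddCommGroup K]
    (h : ArchLO H) (k : ArchLO K) : ArchLO (H × K) := by
  obtain ⟨L, h1, h2⟩ := h
  obtain ⟨M, k1, k2⟩ := k
  refine ⟨inferInstance, ?_, ?_⟩
  · rintro ⟨a, a'⟩ ⟨b, b'⟩ ⟨c, c'⟩ ⟨hab, hab'⟩
    exact ⟨h1 _ _ _ hab, k1 _ _ _ hab'⟩
  · rintro ⟨a, a'⟩ ⟨b, b'⟩ hab
    exact ⟨h2 a b fun n => (hab n).1, k2 a' b' fun n => (hab n).2⟩

theorem ArchLO.finsupp {ι H : Type} [AddCommGroup H] (h : ArchLO H) : ArchLO (ι →₀ H) := by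
  obtain ⟨L, h1, h2⟩ := h
  refine ⟨inferInstance, ?_, ?_⟩
  · intro a b c hab i
    exact h1 _ _ _ (hab i)
  · intro a b hab i
    exact h2 (a i) (b i) fun n => hab n i

theorem ArchLO.subsingleton {H : Type} [AddCommGroup H] [Subsingleton H] : ArchLO H := by
  let L : Lattice H :=
    { le := fun _ _ => True
      lt := fun _ _ => False
      le_refl := fun a => trivial
      le_trans := fun a b c _ _ => trivial
      lt_iff_le_not_ge := fun a b => by simp
      le_antisymm := fun a b _ _ => Subsingleton.elim a b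
      sup := fun a _ => a
      inf := fun a _ => a
      le_sup_left := fun a b => trivial
      le_sup_right := fun a b => trivial
      sup_le := fun a b c _ _ => trivial
      inf_le_left := fun a b => trivial
      inf_le_right := fun a b => trivial
      le_inf := fun a b c _ _ => trivial }
  exact ⟨L, fun _ _ _ _ => trivial, fun _ _ _ => trivial⟩

/-- total group orders on `W`, given by their positive cones -/
structure Ord (W : Type) [AddCommGroup W] where
  pos : Set W
  add_mem : ∀ x ∈ pos, ∀ y ∈ pos, x + y ∈ pos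
  total : ∀ x, x ∈ pos ∨ -x ∈ pos
  anti : ∀ x ∈ pos, -x ∈ pos → x = 0

namespace Ord

variable {W : Type} [AddCommGroup W]

theorem zero_mem (P : Ord W) : (0 : W) ∈ P.pos := by
  rcases P.total 0 with h | h
  · exact h
  · simpa using h

theorem not_mem_iff (P : Ord W) {x : W} (hx : x ≠ 0) : x ∉ P.pos ↔ -x ∈ P.pos := by
  constructor
  · intro h
    exact (P.total x).resolve_left h
  · intro h h'
    exact hx (P.anti x h' h)

theorem nsmul_mem (P : Ord W) (n : ℕ) {x : W} (hx : x ∈ P.pos) : n • x ∈ P.pos := by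
  induction n with
  | zero => simpa using P.zero_mem
  | succ n ih => rw [succ_nsmul]; exact P.add_mem _ ih _ hx

theorem sum_mem (P : Ord W) {ι : Type} (s : Finset ι) (f : ι → W) (h : ∀ i ∈ s, f i ∈ P.pos) :
    ∑ i ∈ s, f i ∈ P.pos := by
  induction s using Finset.induction_on with
  | empty => simpa using P.zero_mem
  | insert a s ha ih =>
    rw [Finset.sum_insert ha]
    exact P.add_mem _ (h a (Finset.mem_insert_self _ _)) _
      (ih fun i hi => h i (Finset.mem_insert_of_mem hi))

theorem eq_zero_of_add (P : Ord W) {x y : W} (hx : x ∈ P.pos) (hy : y ∈ P.pos) (h : x + y = 0) :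
    x = 0 := by
  apply P.anti x hx
  rwa [neg_eq_of_add_eq_zero_right h]

theorem sum_eq_zero (P : Ord W) {ι : Type} (s : Finset ι) (f : ι → W) (h : ∀ i ∈ s, f i ∈ P.pos)
    (h0 : ∑ i ∈ s, f i = 0) : ∀ i ∈ s, f i = 0 := by
  intro i hi
  rw [← Finset.add_sum_erase s f hi] at h0
  exact P.eq_zero_of_add (h i hi) (P.sum_mem _ _ fun j hj => h j (Finset.mem_of_mem_erase hj)) h0

variable [Module ℚ W]

theorem smul_mem (P : Ord W) {q : ℚ} (hq : 0 ≤ q) {x : W} (hx : x ∈ P.pos) : q • x ∈ P.pos := by
  by_contra hcon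
  have hne : q • x ≠ 0 := by
    intro h
    rw [h] at hcon
    exact hcon P.zero_mem
  have hneg : -(q • x) ∈ P.pos := (P.not_mem_iff hne).1 hcon
  have h1 : q.den • (q • x) = q.num.toNat • x := by
    have hnum : ((q.num.toNat : ℕ) : ℚ) = q.num := by
      have : ((q.num.toNat : ℕ) : ℤ) = q.num := Int.toNat_of_nonneg (Rat.num_nonneg.2 hq)
      exact_mod_cast this
    rw [← Nat.cast_smul_eq_nsmul ℚ, ← Nat.cast_smul_eq_nsmul ℚ, smul_smul, hnum]
    congr 1
    rw [mul_comm]
    exact Rat.mul_den_eq_num q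
  have h2 : q.den • (-(q • x)) ∈ P.pos := P.nsmul_mem _ hneg
  rw [smul_neg, h1] at h2
  have h3 : q.num.toNat • x = 0 := P.anti _ (P.nsmul_mem _ hx) h2
  rw [← h1] at h3
  apply hne
  have h4 : (q.den : ℚ) • (q • x) = 0 := by
    rw [Nat.cast_smul_eq_nsmul]; exact h3
  rcases smul_eq_zero.1 h4 with h | h
  · exact absurd h (by exact_mod_cast q.den_nz)
  · exact h

/-- refine a linear functional by an order -/
def lex (ℓ : W →ₗ[ℚ] ℚ) (P : Ord W) : Ord W where
  pos := {x | 0 < ℓ x ∨ (ℓ x = 0 ∧ x ∈ P.pos)}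
  add_mem := by
    rintro x (hx | ⟨hx, hx'⟩) y (hy | ⟨hy, hy'⟩)
    · left; rw [map_add]; exact add_pos hx hy
    · left; rw [map_add, hy, add_zero]; exact hx
    · left; rw [map_add, hx, zero_add]; exact hy
    · right; exact ⟨by rw [map_add, hx, hy, add_zero], P.add_mem _ hx' _ hy'⟩
  total := by
    intro x
    rcases lt_trichotomy (ℓ x) 0 with h | h | h
    · right; left; rw [map_neg]; linarith
    · rcases P.total x with h' | h'
      · left; right; exact ⟨h, h'⟩
      · right; right; exact ⟨by rw [map_neg, h, neg_zero], h'⟩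
    · left; left; exact h
  anti := by
    rintro x (hx | ⟨hx, hx'⟩) (hy | ⟨hy, hy'⟩)
    · rw [map_neg] at hy; linarith
    · rw [map_neg] at hy; linarith
    · rw [map_neg] at hy; linarith
    · exact P.anti x hx' hy'

theorem exists_ord (W : Type) [AddCommGroup W] [Module ℚ W] : Nonempty (Ord W) := by
  obtain ⟨ι, ⟨b⟩⟩ : ∃ ι : Type, Nonempty (Module.Basis ι ℚ W) :=
    ⟨_, ⟨Module.Basis.ofVectorSpace ℚ W⟩⟩
  let _ : LinearOrder ι := linearOrderOfSTO (WellOrderingRel)
  refine ⟨⟨{x | 0 ≤ toLex (b.repr x)}, ?_, ?_, ?_⟩⟩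
  · intro x hx y hy
    simp only [Set.mem_ofPred_eq] at hx hy ⊢
    rw [map_add, toLex_add]
    exact add_nonneg hx hy
  · intro x
    simp only [Set.mem_ofPred_eq]
    rcases le_total 0 (toLex (b.repr x)) with h | h
    · left; exact h
    · right
      rw [map_neg, toLex_neg]
      exact neg_nonneg.2 h
  · intro x hx hy
    simp only [Set.mem_ofPred_eq] at hx hy
    rw [map_neg, toLex_neg] at hy
    have : toLex (b.repr x) = 0 := le_antisymm (neg_nonneg.1 hy) hx
    have h2 : b.repr x = 0 := this
    exact (LinearEquiv.map_eq_zero_iff b.repr).1 h2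

end Ord

/-- Gordan's theorem for finite families of vectors in a rational vector space. -/
theorem gordan : ∀ (n : ℕ) (W : Type) [AddCommGroup W] [Module ℚ W] (v : Fin n → W),
    (∀ c : Fin n → ℚ, (∀ i, 0 ≤ c i) → ∑ i, c i • v i = 0 → c = 0) →
    ∃ ℓ : W →ₗ[ℚ] ℚ, ∀ i, 0 < ℓ (v i) := by
  intro n
  induction n with
  | zero => intro W _ _ v _; exact ⟨0, fun i => i.elim0⟩
  | succ n ih =>
    intro W _ _ v hv
    -- the image of the last n vectors in W / ℚ v₀
    set N : Submodule ℚ W := Submodule.span ℚ {v 0} with hN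
    by_cases hpt : ∀ c : Fin n → ℚ, (∀ i, 0 ≤ c i) →
        ∑ i, c i • (N.mkQ (v i.succ)) = 0 → c = 0
    · obtain ⟨ℓ, hℓ⟩ := ih (W ⧸ N) (fun i => N.mkQ (v i.succ)) hpt
      have hv0 : v 0 ≠ 0 := by
        intro h0
        have := hv (fun i => if i = 0 then 1 else 0) (fun i => by split_ifs <;> norm_num)
          (by rw [Fin.sum_univ_succ]; simp [h0])
        have h1 := congrFun this 0
        simp at h1
      obtain ⟨m, hm⟩ : ∃ m : W →ₗ[ℚ] ℚ, m (v 0) ≠ 0 := by
        by_contra hcon
        push Not at hcon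
        exact hv0 ((Module.forall_dual_apply_eq_zero_iff ℚ (v 0)).1 hcon)
      set m' : W →ₗ[ℚ] ℚ := (m (v 0))⁻¹ • m with hm'
      have hm'1 : m' (v 0) = 1 := by
        simp [hm', inv_mul_cancel₀ hm]
      have hev : ∀ᶠ ε : ℚ in nhdsWithin 0 (Set.Ioi 0),
          ∀ i : Fin n, 0 < ℓ (N.mkQ (v i.succ)) + ε * m' (v i.succ) := by
        rw [Filter.eventually_all]
        intro i
        apply Filter.Eventually.filter_mono nhdsWithin_le_nhds
        have hc : Continuous fun ε : ℚ => ℓ (N.mkQ (v i.succ)) + ε * m' (v i.succ) := by fun_prop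
        have := hc.tendsto 0
        have h0 : ℓ (N.mkQ (v i.succ)) + 0 * m' (v i.succ) > 0 := by
          simpa using hℓ i
        exact this.eventually (lt_mem_nhds h0)
      obtain ⟨ε, hε, hε0⟩ := (hev.and self_mem_nhdsWithin).exists
      have hε0' : (0 : ℚ) < ε := hε0
      refine ⟨ℓ.comp N.mkQ + ε • m', fun i => ?_⟩
      refine Fin.cases ?_ (fun j => ?_) i
      · have hz : N.mkQ (v 0) = 0 := by
          rw [Submodule.mkQ_apply, Submodule.Quotient.mk_eq_zero]
          exact Submodule.mem_span_singleton_self _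
        simp only [LinearMap.add_apply, LinearMap.comp_apply, LinearMap.smul_apply, hz, map_zero,
          zero_add, hm'1, smul_eq_mul, mul_one]
        exact hε0'
      · simpa using hε j
    · push Not at hpt
      obtain ⟨c, hc0, hcs, hcne⟩ := hpt
      -- ∑ c i v_{i+1} = d v_0
      have hmem : ∑ i, c i • v i.succ ∈ N := by
        rw [← Submodule.Quotient.mk_eq_zero, ← Submodule.mkQ_apply, map_sum]
        simpa using hcs
      obtain ⟨d, hd⟩ := Submodule.mem_span_singleton.1 hmem
      have hdpos : 0 < d := by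
        by_contra hneg
        push Not at hneg
        have := hv (Fin.cons (-d) c) (fun i => by
          refine Fin.cases ?_ (fun j => ?_) i
          · simpa using hneg
          · simpa using hc0 j) (by
            rw [Fin.sum_univ_succ]
            simp only [Fin.cons_zero, Fin.cons_succ]
            rw [← hd, neg_smul, neg_add_cancel])
        apply hcne
        funext j
        have h1 := congrFun this j.succ
        simpa using h1
      obtain ⟨ℓ, hℓ⟩ := ih W (fun i => v i.succ) (fun e he hes => by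
        have := hv (Fin.cons 0 e) (fun i => by
          refine Fin.cases ?_ (fun j => ?_) i
          · simp
          · simpa using he j) (by
            rw [Fin.sum_univ_succ]
            simpa using hes)
        funext j
        have h1 := congrFun this j.succ
        simpa using h1)
      refine ⟨ℓ, fun i => ?_⟩
      refine Fin.cases ?_ (fun j => hℓ j) i
      have h1 : d * ℓ (v 0) = ∑ i, c i * ℓ (v i.succ) := by
        have := congrArg ℓ hd
        simpa [map_sum] using this
      have h2 : 0 < ∑ i, c i * ℓ (v i.succ) := by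
        obtain ⟨j, hj⟩ : ∃ j, c j ≠ 0 := by
          by_contra hcon
          push Not at hcon
          exact hcne (funext hcon)
        apply Finset.sum_pos'
        · intro i _
          exact mul_nonneg (hc0 i) (hℓ i).le
        · exact ⟨j, Finset.mem_univ _, mul_pos (lt_of_le_of_ne (hc0 j) (Ne.symm hj)) (hℓ j)⟩
      rw [← h1] at h2
      exact (mul_pos_iff_of_pos_left hdpos).1 h2

end Pool.MP_764a00_al.Arch
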