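import Mathlib

/-!
# MP_764a00_al : Archimedean lattice orders on torsion-free abelian groups

Definitions. `M` is a torsion-free abelian group which is Hausdorff and complete in the 5-adic
topology. We consider 5-pure subgroups of `M` with lattice orders.
-/

namespace Pool.Agent.CN

open Cardinal

/-- the subgroup `5^K M` -/
def dv (M : Type) [AddCommGroup M] (K : ℕ) : AddSubgroup M where
  carrier := {x | ∃ y : M, x = (5 : ℤ) ^ K • y}
  add_mem' := by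
    rintro a b ⟨x, rfl⟩ ⟨y, rfl⟩
    exact ⟨x + y, by rw [smul_add]⟩
  zero_mem' := ⟨0, by simp⟩
  neg_mem' := by
    rintro a ⟨x, rfl⟩
    exact ⟨-x, by rw [smul_neg]⟩

theorem mem_dv {M : Type} [AddCommGroup M] {K : ℕ} {x : M} :
    x ∈ dv M K ↔ ∃ y : M, x = (5 : ℤ) ^ K • y := Iff.rfl

/-- the ambient groups -/
structure Amb (M : Type) [AddCommGroup M] : Prop where
  tf : ∀ (n : ℤ) (x : M), n ≠ 0 → n • x = 0 → x = 0
  haus : ∀ x : M, (∀ K, x ∈ dv M K) → x = 0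
  comp : ∀ z : ℕ → M, ∃ x : M, ∀ K, x - ∑ n ∈ Finset.range K, (5 : ℤ) ^ n • z n ∈ dv M K

theorem dv_anti {M : Type} [AddCommGroup M] {K K' : ℕ} (h : K ≤ K') : dv M K' ≤ dv M K := by
  rintro x ⟨y, rfl⟩
  obtain ⟨k, rfl⟩ := Nat.exists_eq_add_of_le h
  exact ⟨(5 : ℤ) ^ k • y, by rw [smul_smul, ← pow_add]⟩

theorem smul_mem_dv {M : Type} [AddCommGroup M] {n K : ℕ} {x : M} (h : x ∈ dv M K) :
    (5 : ℤ) ^ n • x ∈ dv M (n + K) := by
  obtain ⟨y, rfl⟩ := h
  exact ⟨y, by rw [smul_smul, ← pow_add]⟩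

theorem pow_smul_mem_dv {M : Type} [AddCommGroup M] {n K : ℕ} (h : K ≤ n) (x : M) :
    (5 : ℤ) ^ n • x ∈ dv M K := dv_anti h ⟨x, rfl⟩

theorem mem_dv_zero {M : Type} [AddCommGroup M] (x : M) : x ∈ dv M 0 := ⟨x, by simp⟩

theorem Amb.cancel {M : Type} [AddCommGroup M] (hM : Amb M) {n K : ℕ} {x : M}
    (h : (5 : ℤ) ^ n • x ∈ dv M (n + K)) : x ∈ dv M K := by
  obtain ⟨y, hy⟩ := h
  refine ⟨y, ?_⟩
  have h1 : (5 : ℤ) ^ n • (x - (5 : ℤ) ^ K • y) = 0 := by
    rw [smul_sub, hy, smul_smul, ← pow_add, sub_self]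
  exact sub_eq_zero.1 (hM.tf _ _ (by positivity) h1)

/-- a subgroup of `M` with a lattice order -/
structure LG (M : Type) [AddCommGroup M] where
  N : AddSubgroup M
  lat : Lattice N
  ord : @IsOrderedAddMonoid N _ lat.toPartialOrder.toPreorder

attribute [instance] LG.lat LG.ord

namespace LG

variable {M : Type} [AddCommGroup M]

/-- 5-pure -/
def Pure (L : LG M) : Prop := ∀ z : M, (5 : ℤ) • z ∈ L.N → z ∈ L.N

/-- dense in the 5-adic topology -/
def Dense (L : LG M) : Prop := ∀ (z : M) (K : ℕ), ∃ u : L.N, z - u ∈ dv M K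

/-- Archimedean -/
def Arch (L : LG M) : Prop := ∀ a b : L.N, (∀ n : ℕ, n • a ≤ b) → a ≤ 0

/-- the possible positive parts of `x` -/
def T (L : LG M) (x : M) : Set M :=
  {y | ∀ K : ℕ, ∃ z : L.N, (z : M) - x ∈ dv M K ∧ ((z⁺ : L.N) : M) - y ∈ dv M K}

/-- `L` is a sublattice subgroup of `L'` -/
def Sub (L L' : LG M) : Prop :=
  ∃ h : L.N ≤ L'.N, (∀ a b : L.N, AddSubgroup.inclusion h (a ⊔ b) =
    AddSubgroup.inclusion h a ⊔ AddSubgroup.inclusion h b) ∧
    ∀ a b : L.N, AddSubgroup.inclusion h (a ⊓ b) =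
    AddSubgroup.inclusion h a ⊓ AddSubgroup.inclusion h b

/-- `L` contains witnesses for approximate values of the function `z ↦ z⁺` of `L'` -/
def Cls (L L' : LG M) : Prop :=
  ∀ (K : ℕ) (u v : L.N), (∃ z : L'.N, (z : M) - u ∈ dv M K ∧ ((z⁺ : L'.N) : M) - v ∈ dv M K) →
    ∃ z : L.N, (z : M) - u ∈ dv M K ∧ ((z⁺ : L.N) : M) - v ∈ dv M K

end LG

/-- maximal filters of positive elements (they correspond to the minimal prime ideals) -/
structure Ultra (N : Type) [AddCommGroup N] [Lattice N] where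
  F : Set N
  nonneg : ∀ a ∈ F, 0 ≤ a
  ne : F.Nonempty
  zero : (0 : N) ∉ F
  inf : ∀ a ∈ F, ∀ b ∈ F, a ⊓ b ∈ F
  max : ∀ a, 0 ≤ a → a ∉ F → ∃ f ∈ F, a ⊓ f = 0

section

variable {M : Type} [AddCommGroup M]

/-- the elements which are in the prime ideal of `F` modulo `5^K M` -/
def cq (L : LG M) (F : Ultra L.N) (K : ℕ) : Set M :=
  {z | ∃ q : L.N, |q| ∉ F.F ∧ z - q ∈ dv M K}

/-- the closure of the prime ideal of `F` -/
def cb (L : LG M) (F : Ultra L.N) : Set M := {z | ∀ K, z ∈ cq L F K}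

/-- `F` lives on the set `X` -/
def On (L : LG M) (X : Set M) (F : Ultra L.N) : Prop := ∃ b : L.N, (b : M) ∈ X ∧ |b| ∈ F.F

/-- `g` is small on `X` -/
def Sm (L : LG M) (X : Set M) (g : M) : Prop := ∀ F : Ultra L.N, On L X F → g ∈ cb L F

/-- the sets `X n` are orthogonal to each other -/
def Orth (L : LG M) (X : ℕ → Set M) : Prop :=
  ∀ n m, n ≠ m → ∀ a b : L.N, (a : M) ∈ X n → (b : M) ∈ X m → |a| ⊓ |b| = 0

/-- different elements of `X` are different modulo 5 -/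
def Dist5 (X : Set M) : Prop := ∀ a ∈ X, ∀ b ∈ X, a - b ∈ dv M 1 → a = b

end

end Pool.Agent.CN
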