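import Mathlib

set_option autoImplicit false

namespace Pool.MP_764a00_al.Arch

open Classical

section PID

variable {R : Type} [CommRing R] [IsDomain R] [IsPrincipalIdealRing R] {ι : Type}

/-- A submodule of a free module over a principal ideal domain is free. -/
theorem free_submodule_finsupp (N : Submodule R (ι →₀ R)) : Module.Free R N := by
  let _ : LinearOrder ι := linearOrderOfSTO WellOrderingRel
  have hwf : WellFounded ((· < ·) : ι → ι → Prop) := (inferInstance : IsWellOrder ι WellOrderingRel).wf
  -- the submodule of elements of N supported in Iic i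
  let K : ι → Submodule R (ι →₀ R) := fun i => N ⊓ Finsupp.supported R R (Set.Iic i)
  let I : ι → Ideal R := fun i => (K i).map (Finsupp.lapply i)
  have hI : ∀ i, ∃ a : R, I i = Ideal.span {a} := fun i =>
    (IsPrincipalIdealRing.principal (I i)).principal
  choose a ha using hI
  have hx : ∀ i, ∃ x : ι →₀ R, x ∈ K i ∧ x i = a i := by
    intro i
    have : a i ∈ I i := by rw [ha i]; exact Ideal.mem_span_singleton_self _
    obtain ⟨x, hx, hxa⟩ := Submodule.mem_map.1 this
    exact ⟨x, hx, hxa⟩
  choose x hxK hxa using hx
  have hxN : ∀ i, x i ∈ N := fun i => (hxK i).1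
  have hxs : ∀ i j, i < j → x i j = 0 := by
    intro i j hij
    have h := (hxK i).2
    rw [SetLike.mem_coe, Finsupp.mem_supported] at h
    by_contra hne
    have : j ∈ Set.Iic i := h (by simpa using hne)
    exact absurd hij (not_lt.2 this)
  let J : Type := {i : ι // a i ≠ 0}
  let v : J → N := fun j => ⟨x j.1, hxN j.1⟩
  have hli0 : LinearIndependent R (fun j : J => x j.1) := by
    rw [linearIndependent_iff]
    intro c hc
    by_contra hne
    have hsupp : c.support.Nonempty := Finsupp.support_nonempty_iff.2 hne
    obtain ⟨j, hj, hmax⟩ := c.support.exists_max_image (fun j => j.1) hsupp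
    have h1 : (Finsupp.linearCombination R (fun j : J => x j.1) c : ι →₀ R) j.1 = 0 := by
      rw [hc]; rfl
    rw [Finsupp.linearCombination_apply, Finsupp.sum] at h1
    rw [Finsupp.finsetSum_apply, Finset.sum_eq_single j] at h1
    · simp only [Finsupp.smul_apply, smul_eq_mul, hxa] at h1
      rcases mul_eq_zero.1 h1 with h | h
      · exact (Finsupp.mem_support_iff.1 hj) h
      · exact j.2 h
    · intro k hk hkj
      have hlt : k.1 < j.1 := lt_of_le_of_ne (hmax k hk) (fun h => hkj (Subtype.ext h))
      simp only [Finsupp.smul_apply, smul_eq_mul]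
      rw [hxs _ _ hlt, mul_zero]
    · intro h; exact absurd hj h
  have hli : LinearIndependent R v := LinearIndependent.of_comp N.subtype hli0
  have hspan : ∀ i, ∀ y : N, (y : ι →₀ R) ∈ K i → y ∈ Submodule.span R (Set.range v) := by
    intro i
    induction i using hwf.induction with
    | _ i ih =>
    intro y hy
    have hyi : (y : ι →₀ R) i ∈ I i := Submodule.mem_map.2 ⟨y, hy, rfl⟩
    rw [ha i, Ideal.mem_span_singleton'] at hyi
    obtain ⟨r, hr⟩ := hyi
    have key : ∀ z : N, (z : ι →₀ R) ∈ K i → (z : ι →₀ R) i = 0 →
        z ∈ Submodule.span R (Set.range v) := by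
      intro z hz hzi
      by_cases hz0 : z = 0
      · rw [hz0]; exact Submodule.zero_mem _
      have hz0' : (z : ι →₀ R) ≠ 0 := fun h => hz0 (Subtype.ext h)
      have hne : (z : ι →₀ R).support.Nonempty := Finsupp.support_nonempty_iff.2 hz0'
      set m := (z : ι →₀ R).support.max' hne with hm
      have hmmem : m ∈ (z : ι →₀ R).support := Finset.max'_mem _ _
      have hmle : m ≤ i := by
        have h := hz.2
        rw [SetLike.mem_coe, Finsupp.mem_supported] at h
        exact h hmmem
      have hmlt : m < i := by
        refine lt_of_le_of_ne hmle ?_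
        intro h
        rw [h] at hmmem
        exact (Finsupp.mem_support_iff.1 hmmem) hzi
      refine ih m hmlt z ⟨z.2, ?_⟩
      rw [SetLike.mem_coe, Finsupp.mem_supported]
      intro k hk
      exact Finset.le_max' _ _ hk
    by_cases hai : a i = 0
    · apply key y hy
      rw [← hr, hai, mul_zero]
    · let z : N := y - r • v ⟨i, hai⟩
      have hz : z ∈ Submodule.span R (Set.range v) := by
        apply key
        · show (y : ι →₀ R) - r • x i ∈ K i
          exact Submodule.sub_mem _ hy (Submodule.smul_mem _ _ (hxK i))
        · show ((y : ι →₀ R) - r • x i) i = 0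
          rw [Finsupp.sub_apply, Finsupp.smul_apply, hxa, smul_eq_mul, hr, sub_self]
      have hy2 : y = z + r • v ⟨i, hai⟩ := by
        apply Subtype.ext
        show (y : ι →₀ R) = ((y : ι →₀ R) - r • x i) + r • x i
        rw [sub_add_cancel]
      rw [hy2]
      exact Submodule.add_mem _ hz (Submodule.smul_mem _ _ (Submodule.subset_span ⟨_, rfl⟩))
  have htop : ⊤ ≤ Submodule.span R (Set.range v) := by
    intro y _
    by_cases hy0 : y = 0
    · rw [hy0]; exact Submodule.zero_mem _
    have hy0' : (y : ι →₀ R) ≠ 0 := fun h => hy0 (Subtype.ext h)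
    have hne : (y : ι →₀ R).support.Nonempty := Finsupp.support_nonempty_iff.2 hy0'
    refine hspan ((y : ι →₀ R).support.max' hne) y ⟨y.2, ?_⟩
    rw [SetLike.mem_coe, Finsupp.mem_supported]
    intro k hk
    exact Finset.le_max' _ _ hk
  exact Module.Free.of_basis (Module.Basis.mk hli htop)

theorem free_of_injective {M F : Type} [AddCommGroup M] [Module R M] [AddCommGroup F]
    [Module R F] [Module.Free R F] (f : M →ₗ[R] F) (hf : Function.Injective f) :
    Module.Free R M := by
  let b := Module.Free.chooseBasis R F
  let g : M →ₗ[R] (Module.Free.ChooseBasisIndex R F →₀ R) := b.repr.toLinearMap ∘ₗ f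
  have hg : Function.Injective g := b.repr.injective.comp hf
  have := free_submodule_finsupp (LinearMap.range g)
  exact Module.Free.of_equiv (LinearEquiv.ofInjective g hg).symm

end PID

section Nobeling

variable {Ω : Type}

/-- the limit of a function with finite range along an ultrafilter -/
theorem exists_lim {X : Type} (h : Ω → X) (hf : (Set.range h).Finite) (u : Ultrafilter Ω) :
    ∃ x, h ⁻¹' {x} ∈ u := by
  have h1 : Set.range h ∈ u.map h := by
    rw [Ultrafilter.mem_map]
    exact Filter.mem_of_superset Filter.univ_mem (fun x _ => ⟨x, rfl⟩)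
  obtain ⟨x, _, hx⟩ := Ultrafilter.eq_pure_of_finite_mem hf h1
  refine ⟨x, ?_⟩
  have : ({x} : Set X) ∈ u.map h := by rw [hx]; exact Filter.mem_pure.2 rfl
  rwa [Ultrafilter.mem_map] at this

noncomputable def limFun {X : Type} (h : Ω → X) (hf : (Set.range h).Finite) (u : Ultrafilter Ω) : X :=
  (exists_lim h hf u).choose

theorem limFun_spec {X : Type} (h : Ω → X) (hf : (Set.range h).Finite) (u : Ultrafilter Ω) :
    h ⁻¹' {limFun h hf u} ∈ u := (exists_lim h hf u).choose_spec

theorem limFun_eq {X : Type} (h : Ω → X) (hf : (Set.range h).Finite) (u : Ultrafilter Ω) {x : X}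
    (hx : h ⁻¹' {x} ∈ u) : limFun h hf u = x := by
  have := Filter.inter_mem (limFun_spec h hf u) hx
  obtain ⟨y, hy1, hy2⟩ := u.nonempty_of_mem this
  rw [Set.mem_preimage, Set.mem_singleton_iff] at hy1 hy2
  rw [← hy1, hy2]

/-- extension of a finite valued function to the space of ultrafilters -/
noncomputable def ext (h : Ω → ℤ) (hf : (Set.range h).Finite) : LocallyConstant (Ultrafilter Ω) ℤ where
  toFun := limFun h hf
  isLocallyConstant := by
    intro s
    have : limFun h hf ⁻¹' s = {u | h ⁻¹' s ∈ u} := by
      ext u
      constructor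
      · intro hu
        refine Filter.mem_of_superset (limFun_spec h hf u) ?_
        intro y hy
        rw [Set.mem_preimage, Set.mem_singleton_iff] at hy
        rw [Set.mem_preimage, hy]
        exact hu
      · intro hu
        obtain ⟨y, hy1, hy2⟩ := u.nonempty_of_mem (Filter.inter_mem (limFun_spec h hf u) hu)
        rw [Set.mem_preimage, Set.mem_singleton_iff] at hy1
        rw [Set.mem_preimage, ← hy1]
        exact hy2
    rw [this]
    exact ultrafilter_isOpen_basic _

theorem free_of_finite_range (D : Submodule ℤ (Ω → ℤ)) (hD : ∀ d ∈ D, (Set.range d).Finite) :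
    Module.Free ℤ D := by
  let f : D →ₗ[ℤ] LocallyConstant (Ultrafilter Ω) ℤ :=
    { toFun := fun d => ext d.1 (hD d.1 d.2)
      map_add' := by
        intro d e
        apply LocallyConstant.ext
        intro u
        show limFun (d.1 + e.1) (hD _ (d + e).2) u =
          limFun d.1 (hD d.1 d.2) u + limFun e.1 (hD e.1 e.2) u
        apply limFun_eq
        refine Filter.mem_of_superset (Filter.inter_mem (limFun_spec d.1 (hD d.1 d.2) u)
          (limFun_spec e.1 (hD e.1 e.2) u)) ?_
        rintro y ⟨h1, h2⟩
        rw [Set.mem_preimage, Set.mem_singleton_iff] at h1 h2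
        rw [Set.mem_preimage, Set.mem_singleton_iff, ← h1, ← h2]
        rfl
      map_smul' := by
        intro z d
        apply LocallyConstant.ext
        intro u
        rw [RingHom.id_apply]
        show limFun (z • d.1) (hD _ (z • d).2) u = z • limFun d.1 (hD d.1 d.2) u
        apply limFun_eq
        refine Filter.mem_of_superset (limFun_spec d.1 (hD d.1 d.2) u) ?_
        intro y h1
        rw [Set.mem_preimage, Set.mem_singleton_iff] at h1
        rw [Set.mem_preimage, Set.mem_singleton_iff, ← h1]
        rfl }
  have hf : Function.Injective f := by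
    intro d e hde
    apply Subtype.ext
    funext y
    have h1 := congrArg (fun g : LocallyConstant (Ultrafilter Ω) ℤ => g (pure y)) hde
    have h2 : limFun d.1 (hD d.1 d.2) (pure y) = d.1 y := limFun_eq _ _ _ (Filter.mem_pure.2 rfl)
    have h3 : limFun e.1 (hD e.1 e.2) (pure y) = e.1 y := limFun_eq _ _ _ (Filter.mem_pure.2 rfl)
    rw [← h2, ← h3]
    exact h1
  have : Module.Free ℤ (LocallyConstant (Ultrafilter Ω) ℤ) :=
    LocallyConstant.freeOfProfinite (Profinite.of (Ultrafilter Ω))
  exact free_of_injective f hf

end Nobeling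

end Pool.MP_764a00_al.Arch
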