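import Pool.Agent.Lib.MP_764a00_al.Func
import Pool.Agent.Lib.MP_764a00_al.Free

set_option autoImplicit false

namespace Pool.MP_764a00_al.Arch

open Classical

section General

variable {Ω W : Type} [AddCommGroup W] [Module ℚ W]

/-- groups of finitely valued functions as direct sums -/
theorem finValued_equiv (D : Submodule ℤ (Ω → ℤ)) {B : Type} (b : Module.Basis B ℤ D)
    (H : AddSubgroup W) (M : AddSubgroup (Ω → W))
    (hM1 : ∀ h ∈ H, ∀ d ∈ D, (fun P => d P • h) ∈ M)
    (hM2 : ∀ f ∈ M, (Set.range f).Finite ∧ (∀ P, f P ∈ H) ∧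
      ∀ w, (fun P => if f P = w then (1 : ℤ) else 0) ∈ D) :
    Nonempty (M ≃+ (B →₀ H)) := by
  let Φ : (B →₀ H) →+ M := Finsupp.liftAddHom (fun i =>
    { toFun := fun h => ⟨fun P => (b i).1 P • (h : W), hM1 h.1 h.2 _ (b i).2⟩
      map_zero' := by
        apply Subtype.ext; funext P; simp
      map_add' := by
        intro h k
        apply Subtype.ext; funext P; simp })
  have hΦ : ∀ c P, (Φ c).1 P = c.sum (fun i h => (b i).1 P • (h : W)) := by
    intro c P
    have : (Φ c).1 = c.sum (fun i h => (fun P => (b i).1 P • (h : W))) := by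
      simp only [Φ, Finsupp.liftAddHom_apply, Finsupp.sum, AddSubgroup.val_finsetSum]
      rfl
    rw [this, Finsupp.sum, Finsupp.sum, Finset.sum_apply]
  have hinj : Function.Injective Φ := by
    rw [injective_iff_map_eq_zero]
    intro c hc
    -- linear independence over ℚ
    have hli1 : LinearIndependent ℤ (fun i => (fun P => ((b i).1 P : ℚ)) : B → (Ω → ℚ)) := by
      have h0 : LinearIndependent ℤ (fun i => (b i).1) :=
        b.linearIndependent.map' D.subtype (Submodule.ker_subtype D)
      let cast : (Ω → ℤ) →ₗ[ℤ] (Ω → ℚ) :=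
        { toFun := fun f P => (f P : ℚ)
          map_add' := by intro f g; funext P; simp
          map_smul' := by intro z f; funext P; simp }
      have hcast : LinearMap.ker cast = ⊥ := by
        rw [LinearMap.ker_eq_bot]
        intro f g hfg
        funext P
        have : ((f P : ℤ) : ℚ) = ((g P : ℤ) : ℚ) := congrFun hfg P
        exact_mod_cast this
      exact h0.map' cast hcast
    have hli : LinearIndependent ℚ (fun i => (fun P => ((b i).1 P : ℚ)) : B → (Ω → ℚ)) :=
      (LinearIndependent.iff_fractionRing ℤ ℚ).1 hli1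
    ext i
    rw [Finsupp.zero_apply, ZeroMemClass.coe_zero]
    rw [← Module.forall_dual_apply_eq_zero_iff ℚ]
    intro lam
    let cl : B →₀ ℚ := c.mapRange (fun h : H => lam (h : W)) (by simp)
    have hz : cl = 0 := by
      rw [linearIndependent_iff] at hli
      apply hli
      funext P
      rw [Finsupp.linearCombination_apply]
      have h1 := hΦ c P
      rw [hc] at h1
      have h2 : lam (c.sum (fun i h => (b i).1 P • (h : W))) = 0 := by
        rw [← h1]; simp
      rw [Finsupp.sum, map_sum] at h2
      rw [Finsupp.sum_mapRange_index (by intro a; simp), Finsupp.sum, Finset.sum_apply, Pi.zero_apply]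
      rw [← h2]
      apply Finset.sum_congr rfl
      intro j _
      simp [mul_comm]
    have := DFunLike.congr_fun hz i
    simpa [cl] using this
  have hsurj : Function.Surjective Φ := by
    have hd : ∀ h : H, ∀ d : D, ∃ c, (Φ c).1 = fun P => d.1 P • (h : W) := by
      intro h d
      have hd : d ∈ Submodule.span ℤ (Set.range b) := by rw [b.span_eq]; trivial
      induction hd using Submodule.span_induction with
      | mem x hx =>
        obtain ⟨i, rfl⟩ := hx
        refine ⟨Finsupp.single i h, ?_⟩
        funext P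
        rw [hΦ, Finsupp.sum_single_index (by simp)]
      | zero => exact ⟨0, by funext P; rw [hΦ]; simp⟩
      | add x y _ _ hx hy =>
        obtain ⟨c, hc⟩ := hx
        obtain ⟨e, he⟩ := hy
        refine ⟨c + e, ?_⟩
        rw [map_add, AddSubgroup.coe_add, hc, he]
        funext P
        simp [add_smul]
      | smul z x _ hx =>
        obtain ⟨c, hc⟩ := hx
        refine ⟨z • c, ?_⟩
        rw [map_zsmul, AddSubgroup.coe_zsmul, hc]
        funext P
        simp [mul_smul]
    intro f
    obtain ⟨hfin, hH, hDw⟩ := hM2 f.1 f.2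
    have hsum : ∀ w ∈ hfin.toFinset, ∃ c, (Φ c).1 = fun P => (if f.1 P = w then (1 : ℤ) else 0) • w := by
      intro w hw
      rw [Set.Finite.mem_toFinset] at hw
      obtain ⟨P, hP⟩ := hw
      exact hd ⟨w, hP ▸ hH P⟩ ⟨_, hDw w⟩
    choose! c hc using hsum
    refine ⟨∑ w ∈ hfin.toFinset, c w, ?_⟩
    apply Subtype.ext
    rw [map_sum, AddSubgroup.val_finsetSum]
    funext P
    rw [Finset.sum_apply, Finset.sum_eq_single (f.1 P)]
    · rw [hc _ (by rw [Set.Finite.mem_toFinset]; exact ⟨P, rfl⟩)]
      simp
    · intro w hw hne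
      rw [hc w hw]
      simp [Ne.symm hne]
    · intro h
      exact absurd (by rw [Set.Finite.mem_toFinset]; exact ⟨P, rfl⟩) h
  exact ⟨(AddEquiv.ofBijective Φ ⟨hinj, hsurj⟩).symm⟩

end General

section Card

open Cardinal

variable (W : Type) [AddCommGroup W]

/-- integer valued finitely determined functions -/
def DepZ : Submodule ℤ (Ord W → ℤ) where
  carrier := {h | ∃ S : Finset W, Dep h S}
  zero_mem' := ⟨∅, fun P Q _ => rfl⟩
  add_mem' := by
    rintro f g ⟨S, hS⟩ ⟨T, hT⟩
    exact ⟨S ∪ T, hS.comp₂ hT (fun a b => a + b)⟩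
  smul_mem' := by
    rintro z f ⟨S, hS⟩
    exact ⟨S, hS.comp (fun a => z • a)⟩

theorem card_depZ [Infinite W] : #(DepZ W) ≤ #W := by
  let F : Finset W × (Finset W →₀ ℤ) → DepZ W := fun x =>
    ⟨fun P => x.2 (x.1.filter (· ∈ P.pos)), ⟨x.1, fun P Q hPQ => by
      have : x.1.filter (· ∈ P.pos) = x.1.filter (· ∈ Q.pos) := by
        apply Finset.filter_congr
        intro s hs
        exact hPQ s hs
      show x.2 _ = x.2 _
      rw [this]⟩⟩
  have hF : Function.Surjective F := by
    rintro ⟨h, S, hS⟩
    let t : Finset W →₀ ℤ := Finsupp.onFinset S.powerset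
      (fun T => if hT : T ∈ S.powerset ∧ ∃ P : Ord W, S.filter (· ∈ P.pos) = T
        then h hT.2.choose else 0)
      (by
        intro T hT
        by_contra hcon
        exact hT (dif_neg (fun h => hcon h.1)))
    refine ⟨(S, t), ?_⟩
    apply Subtype.ext
    funext P
    show t (S.filter (· ∈ P.pos)) = h P
    have hT : S.filter (· ∈ P.pos) ∈ S.powerset ∧
        ∃ Q : Ord W, S.filter (· ∈ Q.pos) = S.filter (· ∈ P.pos) :=
      ⟨Finset.mem_powerset.2 (Finset.filter_subset _ _), P, rfl⟩
    rw [Finsupp.onFinset_apply, dif_pos hT]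
    apply hS
    intro s hs
    have := hT.2.choose_spec
    have h2 := Finset.ext_iff.1 this s
    simpa [hs] using h2
  refine (mk_le_of_surjective hF).trans ?_
  rw [mk_prod, lift_id, lift_id, mk_finset_of_infinite]
  have h1 : #(Finset W →₀ ℤ) ≤ #W := by
    rw [mk_finsupp_of_infinite]
    rw [mk_finset_of_infinite]
    simp
  calc #W * #(Finset W →₀ ℤ) ≤ #W * #W := mul_le_mul' le_rfl h1
    _ = #W := mul_eq_self (aleph0_le_mk W)

end Card

end Pool.MP_764a00_al.Arch
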