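import Pool.Agent.Lib.MP_764a00_al.Base

set_option autoImplicit false

namespace Pool.MP_764a00_al.Arch

open Classical

variable {W : Type} [AddCommGroup W]

/-- pointwise larger value -/
noncomputable def fsup (f g : Ord W → W) : Ord W → W :=
  fun P => if g P - f P ∈ P.pos then g P else f P

def fle (f g : Ord W → W) : Prop := ∀ P, g P - f P ∈ P.pos

theorem fle_refl (f : Ord W → W) : fle f f := fun P => by
  rw [sub_self]; exact P.zero_mem

theorem fle_trans {f g h : Ord W → W} (a : fle f g) (b : fle g h) : fle f h := fun P => by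
  have : h P - f P = (g P - f P) + (h P - g P) := by abel
  rw [this]; exact P.add_mem _ (a P) _ (b P)

theorem fle_antisymm {f g : Ord W → W} (a : fle f g) (b : fle g f) : f = g := by
  funext P
  have h1 := P.anti _ (a P) (by rw [neg_sub]; exact b P)
  exact (sub_eq_zero.1 h1).symm

theorem fle_sup_left (f g : Ord W → W) : fle f (fsup f g) := fun P => by
  unfold fsup
  split_ifs with h
  · exact h
  · rw [sub_self]; exact P.zero_mem

theorem fle_sup_right (f g : Ord W → W) : fle g (fsup f g) := fun P => by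
  unfold fsup
  split_ifs with h
  · rw [sub_self]; exact P.zero_mem
  · have := (P.total (g P - f P)).resolve_left h
    rwa [neg_sub] at this

theorem fsup_fle {f g h : Ord W → W} (a : fle f h) (b : fle g h) : fle (fsup f g) h := fun P => by
  unfold fsup
  split_ifs with h
  · exact b P
  · exact a P

theorem fle_neg {f g : Ord W → W} (h : fle f g) : fle (-g) (-f) := fun P => by
  have : (-f) P - (-g) P = g P - f P := by simp only [Pi.neg_apply]; abel
  rw [this]; exact h P

theorem fle_add {f g : Ord W → W} (h : fle f g) (k : Ord W → W) : fle (k + f) (k + g) :=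
  fun P => by
  have : (k + g) P - (k + f) P = g P - f P := by simp only [Pi.add_apply]; abel
  rw [this]; exact h P

/-- an additive subgroup closed under `fsup` is a lattice ordered group -/
theorem archLO_subgroup (H : AddSubgroup (Ord W → W)) (hs : ∀ f ∈ H, ∀ g ∈ H, fsup f g ∈ H)
    (ha : ∀ f ∈ H, ∀ g ∈ H, (∀ n : ℕ, fle (n • f) g) → fle f 0) : ArchLO H := by
  let L : Lattice H :=
    { le := fun a b => fle a.1 b.1
      lt := fun a b => fle a.1 b.1 ∧ ¬ fle b.1 a.1
      le_refl := fun a => fle_refl _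
      le_trans := fun a b c hab hbc => fle_trans hab hbc
      lt_iff_le_not_ge := fun a b => Iff.rfl
      le_antisymm := fun a b hab hba => Subtype.ext (fle_antisymm hab hba)
      sup := fun a b => ⟨fsup a.1 b.1, hs _ a.2 _ b.2⟩
      inf := fun a b => -⟨fsup (-a.1) (-b.1), hs _ (H.neg_mem a.2) _ (H.neg_mem b.2)⟩
      le_sup_left := fun a b => fle_sup_left _ _
      le_sup_right := fun a b => fle_sup_right _ _
      sup_le := fun a b c hac hbc => fsup_fle hac hbc
      inf_le_left := fun a b => by
        show fle (-(fsup (-a.1) (-b.1))) a.1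
        have := fle_neg (fle_sup_left (-a.1) (-b.1))
        rwa [neg_neg] at this
      inf_le_right := fun a b => by
        show fle (-(fsup (-a.1) (-b.1))) b.1
        have := fle_neg (fle_sup_right (-a.1) (-b.1))
        rwa [neg_neg] at this
      le_inf := fun a b c hab hac => by
        show fle a.1 (-(fsup (-b.1) (-c.1)))
        have := fle_neg (fsup_fle (fle_neg hab) (fle_neg hac))
        rwa [neg_neg] at this }
  refine ⟨L, ?_, ?_⟩
  · intro a b c hab
    exact fle_add hab c.1
  · intro a b hab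
    refine ha a.1 a.2 b.1 b.2 fun n => ?_
    have h1 : fle ((n • a : H) : Ord W → W) b.1 := hab n
    simpa using h1

/-- `f` depends only on the signs of the vectors in `S` -/
def Dep {X : Type} (f : Ord W → X) (S : Finset W) : Prop :=
  ∀ P Q : Ord W, (∀ s ∈ S, (s ∈ P.pos ↔ s ∈ Q.pos)) → f P = f Q

theorem Dep.mono {X : Type} {f : Ord W → X} {S T : Finset W} (h : Dep f S) (hST : S ⊆ T) :
    Dep f T := fun P Q hPQ => h P Q fun s hs => hPQ s (hST hs)

theorem Dep.comp {X Y : Type} {f : Ord W → X} {S : Finset W} (h : Dep f S) (φ : X → Y) :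
    Dep (fun P => φ (f P)) S := fun P Q hPQ => congrArg φ (h P Q hPQ)

theorem Dep.comp₂ {X Y Z : Type} {f : Ord W → X} {g : Ord W → Y} {S T : Finset W}
    (h : Dep f S) (k : Dep g T) (φ : X → Y → Z) :
    Dep (fun P => φ (f P) (g P)) (S ∪ T) := fun P Q hPQ => by
  show φ (f P) (g P) = φ (f Q) (g Q)
  rw [h P Q fun s hs => hPQ s (Finset.mem_union_left _ hs),
    k P Q fun s hs => hPQ s (Finset.mem_union_right _ hs)]

theorem Dep.finite_range {X : Type} {f : Ord W → X} {S : Finset W} (h : Dep f S) :
    (Set.range f).Finite := by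
  rcases isEmpty_or_nonempty (Ord W) with he | ⟨⟨P₀⟩⟩
  · rw [Set.range_eq_empty]; exact Set.finite_empty
  · apply Set.Finite.subset ((Finset.finite_toSet S.powerset).image
      (fun T => if hT : ∃ P : Ord W, S.filter (· ∈ P.pos) = T then f hT.choose else f P₀))
    rintro _ ⟨P, rfl⟩
    refine ⟨S.filter (· ∈ P.pos), ?_, ?_⟩
    · exact Finset.mem_coe.2 (Finset.mem_powerset.2 (Finset.filter_subset _ _))
    · have hT : ∃ Q : Ord W, S.filter (· ∈ Q.pos) = S.filter (· ∈ P.pos) := ⟨P, rfl⟩
      simp only [hT, dif_pos]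
      apply h
      intro s hs
      have := hT.choose_spec
      have h2 := Finset.ext_iff.1 this s
      simpa [hs] using h2

theorem Dep.fsup {f g : Ord W → W} {S T : Finset W} (h : Dep f S) (k : Dep g T) :
    ∃ U : Finset W, (∀ u ∈ U, u ∈ S ∨ u ∈ T ∨ ∃ P, u = g P - f P) ∧ Dep (fsup f g) U := by
  have hd : Dep (fun P => g P - f P) (S ∪ T) := h.comp₂ k (fun a b => b - a)
  have hfin := hd.finite_range
  refine ⟨S ∪ T ∪ hfin.toFinset, ?_, ?_⟩
  · intro u hu
    rw [Finset.mem_union, Finset.mem_union, Set.Finite.mem_toFinset] at hu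
    rcases hu with (hu | hu) | ⟨P, hP⟩
    · left; exact hu
    · right; left; exact hu
    · right; right; exact ⟨P, hP.symm⟩
  · intro P Q hPQ
    have h1 : f P = f Q := h P Q fun s hs => hPQ s (by simp [hs])
    have h2 : g P = g Q := k P Q fun s hs => hPQ s (by simp [hs])
    unfold Arch.fsup
    have h3 : (g P - f P ∈ P.pos) ↔ (g Q - f Q ∈ Q.pos) := by
      rw [← h1, ← h2]
      apply hPQ
      rw [Finset.mem_union, Set.Finite.mem_toFinset]
      right; exact ⟨P, rfl⟩
    simp only [h1, h2] at h3 ⊢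
    simp only [h3]

variable [Module ℚ W]

/-- positive vectors are realised by a rational functional -/
theorem Ord.exists_functional (P : Ord W) (T : Finset W) (hT : ∀ t ∈ T, t ∈ P.pos ∧ t ≠ 0) :
    ∃ ℓ : W →ₗ[ℚ] ℚ, ∀ t ∈ T, 0 < ℓ t := by
  obtain ⟨ℓ, hℓ⟩ := gordan T.card W (fun i => (T.equivFin.symm i : W)) (by
    intro c hc hsum
    have := P.sum_eq_zero Finset.univ (fun i => c i • (T.equivFin.symm i : W))
      (fun i _ => P.smul_mem (hc i) (hT _ (T.equivFin.symm i).2).1) hsum
    funext i
    rcases smul_eq_zero.1 (this i (Finset.mem_univ _)) with h | h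
    · exact h
    · exact absurd h (hT _ (T.equivFin.symm i).2).2)
  refine ⟨ℓ, fun t ht => ?_⟩
  have := hℓ (T.equivFin ⟨t, ht⟩)
  simpa using this

/-- The Archimedean property for finitely determined functions. -/
theorem arch_of_dep {f g : Ord W → W} {S T : Finset W} (hf : Dep f S) (hg : Dep g T)
    (h : ∀ n : ℕ, fle (n • f) g) : fle f 0 := by
  intro P
  by_contra hcon
  simp only [Pi.zero_apply, zero_sub] at hcon
  have hne : f P ≠ 0 := by
    intro h0; rw [h0, neg_zero] at hcon; exact hcon P.zero_mem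
  have hpos : f P ∈ P.pos := (P.total (f P)).resolve_right hcon
  let V : Finset W := ((S ∪ T) ∪ (S ∪ T).image (fun x => -x) ∪ {f P}).filter
    (fun x => x ∈ P.pos ∧ x ≠ 0)
  obtain ⟨ℓ, hℓ⟩ := P.exists_functional V (fun t ht => (Finset.mem_filter.1 ht).2)
  let Q := Ord.lex ℓ P
  have hsign : ∀ s ∈ S ∪ T, (s ∈ P.pos ↔ s ∈ Q.pos) := by
    intro s hs
    by_cases hs0 : s = 0
    · subst hs0; exact ⟨fun _ => Q.zero_mem, fun _ => P.zero_mem⟩
    constructor
    · intro hsP
      left
      apply hℓ
      rw [Finset.mem_filter]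
      exact ⟨by simp [Finset.mem_union] at hs ⊢; tauto, hsP, hs0⟩
    · intro hsQ
      by_contra hsP
      have hneg : -s ∈ P.pos := (P.not_mem_iff hs0).1 hsP
      have h1 : 0 < ℓ (-s) := by
        apply hℓ
        rw [Finset.mem_filter]
        refine ⟨?_, hneg, neg_ne_zero.2 hs0⟩
        rw [Finset.mem_union, Finset.mem_union]
        left; right
        exact Finset.mem_image_of_mem _ hs
      rw [map_neg] at h1
      rcases hsQ with h2 | ⟨h2, _⟩ <;> linarith
  have hfQ : f Q = f P := (hf P Q fun s hs => hsign s (Finset.mem_union_left _ hs)).symm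
  have hgQ : g Q = g P := (hg P Q fun s hs => hsign s (Finset.mem_union_right _ hs)).symm
  have hfpos : 0 < ℓ (f P) := by
    apply hℓ
    rw [Finset.mem_filter]
    exact ⟨by simp, hpos, hne⟩
  obtain ⟨n, hn⟩ := Archimedean.arch (ℓ (g P) + 1) hfpos
  have h1 := h n Q
  have h2 : g Q - (n • f) Q = g P - n • f P := by
    rw [Pi.smul_apply, hfQ, hgQ]
  rw [h2] at h1
  have h3 : 0 ≤ ℓ (g P - n • f P) := by
    rcases h1 with h | ⟨h, _⟩
    · exact h.le
    · exact h.ge
  rw [map_sub, map_nsmul] at h3
  linarith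

end Pool.MP_764a00_al.Arch
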