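import Pool.Agent.Lib.MP_764a00_al.Assembly

set_option autoImplicit false

namespace Pool.MP_764a00_al.Arch

open Classical Cardinal

variable {H : Type} [AddCommGroup H]

theorem torsionFree_inst (hH : ∀ g : H, ∀ n : ℕ, n ≠ 0 → n • g = 0 → g = 0) :
    IsAddTorsionFree H := by
  refine ⟨fun n hn a b hab => ?_⟩
  have h1 : n • (a - b) = 0 := by
    rw [nsmul_sub]
    exact sub_eq_zero.2 hab
  exact sub_eq_zero.1 (hH _ n hn h1)

theorem infinite_of_torsionFree (hH : ∀ g : H, ∀ n : ℕ, n ≠ 0 → n • g = 0 → g = 0)
    [Nontrivial H] : Infinite H := by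
  obtain ⟨g, hg⟩ := exists_ne (0 : H)
  apply Infinite.of_injective (fun n : ℕ => n • g)
  intro a b hab
  by_contra hne
  rcases lt_or_gt_of_ne hne with h | h
  · apply hg
    apply hH g (b - a) (Nat.sub_ne_zero_of_lt h)
    have : (b - a) • g + a • g = b • g := by rw [← add_nsmul, Nat.sub_add_cancel h.le]
    have hab' : a • g = b • g := hab
    rw [hab'] at this
    simpa using this
  · apply hg
    apply hH g (a - b) (Nat.sub_ne_zero_of_lt h)
    have : (a - b) • g + b • g = a • g := by rw [← add_nsmul, Nat.sub_add_cancel h.le]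
    have hab' : a • g = b • g := hab
    rw [hab'] at this
    simpa using this

theorem card_hull [Infinite H] : #(DivisibleHull H) ≤ #H := by
  have hs : Function.Surjective (fun x : H × ℕ+ => DivisibleHull.mk x.1 x.2) := by
    intro y
    induction y using DivisibleHull.ind with
    | mk num den => exact ⟨(num, den), rfl⟩
  refine (mk_le_of_surjective hs).trans ?_
  rw [mk_prod]
  simp only [lift_id]
  calc #H * #ℕ+ ≤ #H * #H := mul_le_mul' le_rfl ((mk_le_aleph0).trans (aleph0_le_mk H))
    _ = #H := mul_eq_self (aleph0_le_mk H)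

theorem main_one (hH : ∀ g : H, ∀ n : ℕ, n ≠ 0 → n • g = 0 → g = 0) (G : AddSubgroup H)
    (ι : Type) (hι : Nonempty (H ↪ ι)) : ArchLO (G × (ι →₀ H)) := by
  rcases subsingleton_or_nontrivial H with hs | hn
  · exact ArchLO.subsingleton
  have htf := torsionFree_inst hH
  have hinf := infinite_of_torsionFree hH
  obtain ⟨j⟩ := hι
  have hιinf : Infinite ι := Infinite.of_injective j j.injective
  have hcard : #H ≤ #ι := ⟨j⟩
  let e : H →+ DivisibleHull H := DivisibleHull.coeAddMonoidHom H
  have he : Function.Injective e := DivisibleHull.coe_injective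
  have hWinf : Infinite (DivisibleHull H) := Infinite.of_injective e he
  have h := main_subgroups (W := DivisibleHull H) ((⊤ : AddSubgroup H).map e) (G.map e)
    (AddSubgroup.map_mono le_top) ι (card_hull.trans hcard)
  refine ArchLO.of_equiv ?_ h
  have e1 : G ≃+ G.map e := G.equivMapOfInjective e he
  have e2 : H ≃+ ((⊤ : AddSubgroup H).map e) :=
    AddSubgroup.topEquiv.symm.trans ((⊤ : AddSubgroup H).equivMapOfInjective e he)
  exact AddEquiv.prodCongr e1.symm (Finsupp.mapRange.addEquiv e2.symm)

end Pool.MP_764a00_al.Arch
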