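import Pool.Agent.Lib.MP_764a00_al.Jump
import Pool.Agent.Lib.MP_764a00_al.MainOne

set_option autoImplicit false

namespace Pool.MP_764a00_al.Arch

open Classical Cardinal

section Subring

variable (R : Subring ℚ)

theorem inv_den_mem {r : ℚ} (hr : r ∈ R) : ((r.den : ℚ))⁻¹ ∈ R := by
  have hc : Int.gcd r.num (r.den : ℤ) = 1 := by
    have := r.reduced
    simpa [Int.gcd, Nat.Coprime] using this
  have hb := Int.gcd_eq_gcd_ab r.num (r.den : ℤ)
  rw [hc] at hb
  set a := Int.gcdA r.num (r.den : ℤ)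
  set b := Int.gcdB r.num (r.den : ℤ)
  have hden : (r.den : ℚ) ≠ 0 := by exact_mod_cast r.den_nz
  have h1 : ((r.den : ℚ))⁻¹ = a * r + b := by
    have hb' : (1 : ℚ) = r.num * a + r.den * b := by exact_mod_cast hb
    have hr' : r = r.num / r.den := (Rat.num_div_den r).symm
    field_simp
    rw [hb']
    have h2 : r * r.den = r.num := Rat.mul_den_eq_num r
    linear_combination (-(a : ℚ)) * h2
  rw [h1]
  exact R.add_mem (R.mul_mem (intCast_mem R a) hr) (intCast_mem R b)

theorem subring_pid : IsPrincipalIdealRing R := by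
  refine ⟨fun I => ?_⟩
  let J : Ideal ℤ := I.comap (algebraMap ℤ R)
  obtain ⟨n, hn⟩ := (IsPrincipalIdealRing.principal J).principal
  refine ⟨⟨algebraMap ℤ R n, ?_⟩⟩
  have hn' : J = Ideal.span {n} := hn
  apply le_antisymm
  · intro x hx
    have h1 : (x.1.num : ℤ) ∈ J := by
      show algebraMap ℤ R x.1.num ∈ I
      have : algebraMap ℤ R x.1.num = (x.1.den : R) * x := by
        apply Subtype.ext
        have h2 : (x.1.den : ℚ) * x.1 = x.1.num := by rw [mul_comm]; exact Rat.mul_den_eq_num x.1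
        simp [h2]
      rw [this]
      exact I.mul_mem_left _ hx
    rw [hn', Ideal.mem_span_singleton] at h1
    obtain ⟨k, hk⟩ := h1
    show x ∈ Ideal.span {algebraMap ℤ R n}
    rw [Ideal.mem_span_singleton]
    refine ⟨⟨(k : ℚ) * ((x.1.den : ℚ))⁻¹, R.mul_mem (intCast_mem R k) (inv_den_mem R x.2)⟩, ?_⟩
    apply Subtype.ext
    have hden : (x.1.den : ℚ) ≠ 0 := by exact_mod_cast x.1.den_nz
    have h2 : x.1 * (x.1.den : ℚ) = x.1.num := Rat.mul_den_eq_num x.1
    have h3 : (x.1.num : ℚ) = n * k := by exact_mod_cast hk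
    show x.1 = ((algebraMap ℤ R n : R) : ℚ) * ((k : ℚ) * ((x.1.den : ℚ))⁻¹)
    have h4 : ((algebraMap ℤ R n : R) : ℚ) = n := by simp
    rw [h4]
    field_simp
    rw [h2, h3]
  · show Ideal.span {algebraMap ℤ R n} ≤ I
    rw [Ideal.span_singleton_le_iff_mem]
    have : n ∈ J := by rw [hn']; exact Ideal.mem_span_singleton_self n
    exact this

/-- additive maps into torsion free modules over a subring of `ℚ` are linear -/
theorem map_smul_of_additive {M N : Type} [AddCommGroup M] [Module R M] [AddCommGroup N]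
    [Module R N] (htf : ∀ g : N, ∀ n : ℕ, n ≠ 0 → n • g = 0 → g = 0) (f : M →+ N) (r : R) (x : M) :
    f (r • x) = r • f x := by
  have key : r.1.den • f (r • x) = r.1.den • (r • f x) := by
    have hR : ((r.1.den : ℕ) : R) * r = ((r.1.num : ℤ) : R) := by
      apply Subtype.ext
      have h2 : (r.1.den : ℚ) * r.1 = r.1.num := by rw [mul_comm]; exact Rat.mul_den_eq_num r.1
      simp [h2]
    have h1 : r.1.den • (r • x) = r.1.num • x := by
      rw [← Nat.cast_smul_eq_nsmul R, smul_smul, hR, Int.cast_smul_eq_zsmul]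
    have h2 : r.1.den • (r • f x) = r.1.num • f x := by
      rw [← Nat.cast_smul_eq_nsmul R, smul_smul, hR, Int.cast_smul_eq_zsmul]
    rw [← map_nsmul, h1, h2, map_zsmul]
  have h0 : r.1.den • (f (r • x) - r • f x) = 0 := by
    rw [nsmul_sub, key, sub_self]
  exact sub_eq_zero.1 (htf _ _ r.1.den_nz h0)

theorem archLO_subring : ArchLO R := by
  refine ⟨inferInstance, ?_, ?_⟩
  · intro a b c hab
    exact add_le_add_right hab c |> fun h => by simpa [add_comm] using h
  · intro a b hab
    by_contra hcon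
    have hpos : (0 : ℚ) < a.1 := by
      have : (0 : R) < a := lt_of_not_ge hcon
      exact this
    obtain ⟨n, hn⟩ := Archimedean.arch (b.1 + 1) hpos
    have h1 := hab n
    have h2 : ((n • a : R) : ℚ) ≤ b.1 := h1
    have h3 : ((n • a : R) : ℚ) = n • a.1 := by simp
    rw [h3] at h2
    linarith

/-- finitely valued functions with values in `R` -/
def FR (Ω : Type) : Submodule R (Ω → ℚ) where
  carrier := {h | (Set.range h).Finite ∧ ∀ P, h P ∈ R}
  zero_mem' := ⟨by
    apply Set.Finite.subset (Set.finite_singleton (0 : ℚ))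
    rintro _ ⟨P, rfl⟩; simp, fun _ => R.zero_mem⟩
  add_mem' := by
    rintro f g ⟨h1, h2⟩ ⟨h3, h4⟩
    refine ⟨?_, fun P => R.add_mem (h2 P) (h4 P)⟩
    apply Set.Finite.subset (Set.Finite.image2 (fun a b => a + b) h1 h3)
    rintro _ ⟨P, rfl⟩
    exact ⟨f P, ⟨P, rfl⟩, g P, ⟨P, rfl⟩, rfl⟩
  smul_mem' := by
    rintro r f ⟨h1, h2⟩
    refine ⟨?_, fun P => R.mul_mem r.2 (h2 P)⟩
    apply Set.Finite.subset (Set.Finite.image (fun a => r • a) h1)
    rintro _ ⟨P, rfl⟩
    exact ⟨f P, ⟨P, rfl⟩, rfl⟩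

theorem FR_free (Ω : Type) : Module.Free R (FR R Ω) := by
  -- integer valued finitely valued functions
  let D : Submodule ℤ (Ω → ℤ) :=
    { carrier := {h | (Set.range h).Finite}
      zero_mem' := by
        apply Set.Finite.subset (Set.finite_singleton (0 : ℤ))
        rintro _ ⟨P, rfl⟩; simp
      add_mem' := by
        intro f g h1 h3
        apply Set.Finite.subset (Set.Finite.image2 (fun a b => a + b) h1 h3)
        rintro _ ⟨P, rfl⟩
        exact ⟨f P, ⟨P, rfl⟩, g P, ⟨P, rfl⟩, rfl⟩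
      smul_mem' := by
        intro r f h1
        apply Set.Finite.subset (Set.Finite.image (fun a => r • a) h1)
        rintro _ ⟨P, rfl⟩
        exact ⟨f P, ⟨P, rfl⟩, rfl⟩ }
  have hfree : Module.Free ℤ D := free_of_finite_range D (fun d hd => hd)
  let b := Module.Free.chooseBasis ℤ D
  obtain ⟨e⟩ := finValued_equiv (W := ℚ) D b R.toAddSubgroup (FR R Ω).toAddSubgroup
    (by
      intro h hh d hd
      refine ⟨?_, fun P => R.zsmul_mem hh _⟩
      have hd' : (Set.range d).Finite := hd
      apply Set.Finite.subset (Set.Finite.image (fun a => a • h) hd')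
      rintro _ ⟨P, rfl⟩
      exact ⟨d P, ⟨P, rfl⟩, rfl⟩)
    (by
      rintro f ⟨h1, h2⟩
      refine ⟨h1, h2, fun w => ?_⟩
      show (Set.range _).Finite
      apply Set.Finite.subset (Set.Finite.insert 0 (Set.finite_singleton (1 : ℤ)))
      rintro _ ⟨P, rfl⟩
      by_cases h : f P = w <;> simp [h])
  let e' : FR R Ω ≃+ (Module.Free.ChooseBasisIndex ℤ D →₀ R) := e
  have htf : ∀ g : (Module.Free.ChooseBasisIndex ℤ D →₀ R), ∀ n : ℕ, n ≠ 0 → n • g = 0 → g = 0 := by
    intro g n hn h
    ext i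
    have h1 := DFunLike.congr_fun h i
    have h2 : n • g i = 0 := by simpa using h1
    have h3 : (n : ℚ) * (g i : ℚ) = 0 := by
      have := congrArg (fun x : R => (x : ℚ)) h2
      simpa using this
    rcases mul_eq_zero.1 h3 with h4 | h4
    · exact absurd (by exact_mod_cast h4) hn
    · simpa using h4
  let e'' : FR R Ω ≃ₗ[R] (Module.Free.ChooseBasisIndex ℤ D →₀ R) :=
    { e' with map_smul' := fun r x => map_smul_of_additive R htf e'.toAddMonoidHom r x }
  exact Module.Free.of_equiv e''.symm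

end Subring

end Pool.MP_764a00_al.Arch
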