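import Pool.Agent.Lib.MP_764a00_al.Homog

set_option autoImplicit false

namespace Pool.MP_764a00_al.Arch

open Classical Cardinal

/-- multipliers of a rational group -/
def Mult (R : AddSubgroup ℚ) : Subring ℚ where
  carrier := {q | ∀ r ∈ R, q * r ∈ R}
  mul_mem' := by
    intro a b ha hb r hr
    rw [mul_assoc]; exact ha _ (hb r hr)
  one_mem' := by
    intro r hr; rwa [one_mul]
  add_mem' := by
    intro a b ha hb r hr
    rw [add_mul]; exact R.add_mem (ha r hr) (hb r hr)
  zero_mem' := by
    intro r _; rw [zero_mul]; exact R.zero_mem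
  neg_mem' := by
    intro a ha r hr
    rw [neg_mul]; exact R.neg_mem (ha r hr)

/-- finite intersections of nonzero multiples of `R` -/
theorem inter_mult (R : AddSubgroup ℚ) (C : Finset ℚ) (hC : C.Nonempty) (h0 : ∀ c ∈ C, c ≠ 0) :
    ∃ d : ℚ, d ≠ 0 ∧ ∀ q : ℚ, (∀ c ∈ C, q * c ∈ R) ↔ ∃ r ∈ R, q = d * r := by
  induction hC using Finset.Nonempty.cons_induction with
  | singleton c =>
    have hc := h0 c (Finset.mem_singleton_self c)
    refine ⟨c⁻¹, inv_ne_zero hc, fun q => ?_⟩
    constructor
    · intro h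
      refine ⟨q * c, h c (Finset.mem_singleton_self c), ?_⟩
      field_simp
    · rintro ⟨r, hr, rfl⟩ c' hc'
      rw [Finset.mem_singleton] at hc'
      subst hc'
      have : c'⁻¹ * r * c' = r := by field_simp
      rw [this]; exact hr
  | cons c C hcC hC ih =>
    obtain ⟨d, hd, hdq⟩ := ih (fun c' hc' => h0 c' (Finset.mem_cons_of_mem hc'))
    have hc := h0 c (Finset.mem_cons_self c C)
    -- R ∩ (c d) R = num (c d) R
    set t : ℚ := c * d with ht
    have ht0 : t ≠ 0 := mul_ne_zero hc hd
    have hnum0 : (t.num : ℚ) ≠ 0 := by exact_mod_cast Rat.num_ne_zero.2 ht0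
    have hden0 : (t.den : ℚ) ≠ 0 := by exact_mod_cast t.den_nz
    have htd : t * t.den = t.num := Rat.mul_den_eq_num t
    refine ⟨c⁻¹ * t.num, mul_ne_zero (inv_ne_zero hc) hnum0, fun q => ?_⟩
    constructor
    · intro h
      have h1 : q * c ∈ R := h c (Finset.mem_cons_self c C)
      obtain ⟨r, hr, hqr⟩ := (hdq q).1 (fun c' hc' => h c' (Finset.mem_cons_of_mem hc'))
      -- x = q c = t r, den x = num r
      have hg : Int.gcd t.num (t.den : ℤ) = 1 := by
        have := t.reduced
        simpa [Int.gcd, Nat.Coprime] using this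
      have hb := Int.gcd_eq_gcd_ab t.num (t.den : ℤ)
      rw [hg] at hb
      set a := Int.gcdA t.num (t.den : ℤ)
      set b := Int.gcdB t.num (t.den : ℤ)
      have hb' : (1 : ℚ) = t.num * a + t.den * b := by exact_mod_cast hb
      refine ⟨a • (q * c) + b • r, R.add_mem (R.zsmul_mem h1 a) (R.zsmul_mem hr b), ?_⟩
      have hx : q * c = t * r := by rw [hqr, ht]; ring
      have hx2 : (t.den : ℚ) * (q * c) = t.num * r := by
        rw [hx, ← htd]; ring
      have h3 : q * c = t.num * (a • (q * c) + b • r) := by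
        rw [zsmul_eq_mul, zsmul_eq_mul]
        calc q * c = (t.num * a + t.den * b) * (q * c) := by rw [← hb', one_mul]
          _ = t.num * (a * (q * c)) + b * (t.den * (q * c)) := by ring
          _ = t.num * (a * (q * c)) + b * (t.num * r) := by rw [hx2]
          _ = _ := by ring
      have h4 : q = c⁻¹ * (q * c) := by field_simp
      conv_lhs => rw [h4, h3]
      ring
    · rintro ⟨r, hr, rfl⟩ c' hc'
      rcases Finset.mem_cons.1 hc' with rfl | hc'
      · have : c'⁻¹ * t.num * r * c' = t.num • r := by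
          rw [zsmul_eq_mul]; field_simp
        rw [this]; exact R.zsmul_mem hr _
      · refine (hdq _).2 ⟨t.den • r, R.nsmul_mem hr _, ?_⟩ c' hc'
        rw [nsmul_eq_mul, ← htd, ht]
        field_simp

theorem archLO_rational (R : AddSubgroup ℚ) : ArchLO R := by
  refine ⟨inferInstance, ?_, ?_⟩
  · intro a b c hab
    have h : a.1 ≤ b.1 := hab
    show c.1 + a.1 ≤ c.1 + b.1
    linarith
  · intro a b hab
    by_contra hcon
    have hpos : (0 : ℚ) < a.1 := by
      have : (0 : R) < a := lt_of_not_ge hcon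
      exact this
    obtain ⟨n, hn⟩ := Archimedean.arch (b.1 + 1) hpos
    have h1 := hab n
    have h2 : ((n • a : R) : ℚ) ≤ b.1 := h1
    have h3 : ((n • a : R) : ℚ) = n • a.1 := by simp
    rw [h3] at h2
    linarith

section Abstract

variable {W : Type} [AddCommGroup W] [Module ℚ W] (R : AddSubgroup ℚ) (A : AddSubgroup W)

/-- functions in `PL A` vanishing at `P₀` -/
def PL0 (P₀ : Ord W) : AddSubgroup (Ord W → W) where
  carrier := {f | f ∈ PL A ∧ f P₀ = 0}
  zero_mem' := ⟨(PL A).zero_mem, rfl⟩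
  add_mem' := by
    rintro f g ⟨h1, h2⟩ ⟨h3, h4⟩
    refine ⟨(PL A).add_mem h1 h3, ?_⟩
    simp [h2, h4]
  neg_mem' := by
    rintro f ⟨h1, h2⟩
    refine ⟨(PL A).neg_mem h1, ?_⟩
    simp [h2]

/-- the functions all of whose `R`-multiples are in `PL0` -/
def PL1 (P₀ : Ord W) : Submodule (Mult R) (Ord W → W) where
  carrier := {f | ∀ r ∈ R, r • f ∈ PL0 A P₀}
  zero_mem' := by
    intro r _; rw [smul_zero]; exact (PL0 A P₀).zero_mem
  add_mem' := by
    intro f g hf hg r hr
    rw [smul_add]; exact (PL0 A P₀).add_mem (hf r hr) (hg r hr)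
  smul_mem' := by
    rintro e f hf r hr
    have : r • (e • f) = ((e : ℚ) * r) • f := by
      show r • ((e : ℚ) • f) = _
      rw [smul_smul, mul_comm]
    rw [this]
    exact hf _ (e.2 r hr)

theorem flip_eq_of_agree {X : Type} {f : Ord W → X} {S : Finset W} (hS : Dep f S) {w : W}
    {P : Ord W} (h : f P ≠ f (flip (Submodule.span ℚ {w}) P)) :
    ∃ s ∈ S, s ≠ 0 ∧ s ∈ Submodule.span ℚ {w} := by
  by_contra hcon
  apply h
  apply hS
  intro s hs
  by_cases hc : Conv P (Submodule.span ℚ {w})
  · have hQ : flip (Submodule.span ℚ {w}) P = flipOrd P _ hc := dif_pos hc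
    rw [hQ]
    by_cases hs0 : s = 0
    · subst hs0
      exact ⟨fun _ => Ord.zero_mem _, fun _ => Ord.zero_mem _⟩
    · have hsN : s ∉ Submodule.span ℚ {w} := fun h' => hcon ⟨s, hs, hs0, h'⟩
      constructor
      · intro h'; left; exact ⟨hsN, h'⟩
      · rintro (⟨_, h'⟩ | ⟨h', _⟩)
        · exact h'
        · exact absurd h' hsN
  · have hQ : flip (Submodule.span ℚ {w}) P = P := dif_neg hc
    rw [hQ]

theorem span_eq_of_mem {s w : W} (hs : s ≠ 0) (h : s ∈ Submodule.span ℚ {w}) :
    Submodule.span ℚ {w} = Submodule.span ℚ {s} := by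
  obtain ⟨q, rfl⟩ := Submodule.mem_span_singleton.1 h
  have hq : q ≠ 0 := by
    rintro rfl
    exact hs (zero_smul _ _)
  apply le_antisymm
  · rw [Submodule.span_singleton_le_iff_mem]
    refine Submodule.mem_span_singleton.2 ⟨q⁻¹, ?_⟩
    rw [smul_smul, inv_mul_cancel₀ hq, one_smul]
  · rw [Submodule.span_singleton_le_iff_mem]
    exact h

/-- The group of jump functions is a direct sum of copies of `R`. -/
theorem PL0_equiv [Infinite W] (P₀ : Ord W) (h1R : (1 : ℚ) ∈ R)
    (hfull : ∀ w : W, w ≠ 0 → ∃ g : W, g ≠ 0 ∧ w ∈ Submodule.span ℚ {g} ∧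
      ∀ q : ℚ, q • g ∈ A ↔ q ∈ R) :
    ∃ B : Type, #B ≤ #(DepG (⊤ : AddSubgroup W)) ∧ Nonempty (PL0 A P₀ ≃+ (B →₀ R)) := by
  let L : Type := {N : Submodule ℚ W // ∃ w : W, w ≠ 0 ∧ N = Submodule.span ℚ {w}}
  have hL : ∀ N : L, ∃ g : W, g ≠ 0 ∧ N.1 = Submodule.span ℚ {g} ∧ ∀ q : ℚ, q • g ∈ A ↔ q ∈ R := by
    rintro ⟨N, w, hw, rfl⟩
    obtain ⟨g, hg, hwg, hq⟩ := hfull w hw
    exact ⟨g, hg, (span_eq_of_mem hw hwg).symm, hq⟩
  choose gen hgen0 hgenN hgenR using hL
  have hκ : ∀ N : L, ∃ κ : W →ₗ[ℚ] ℚ, κ (gen N) = 1 := by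
    intro N
    obtain ⟨m, hm⟩ : ∃ m : W →ₗ[ℚ] ℚ, m (gen N) ≠ 0 := by
      by_contra hcon
      push Not at hcon
      exact hgen0 N ((Module.forall_dual_apply_eq_zero_iff ℚ (gen N)).1 hcon)
    exact ⟨(m (gen N))⁻¹ • m, by simp [inv_mul_cancel₀ hm]⟩
  choose κ hκ using hκ
  -- the jump is κ times the generator for every function with jumps along walls
  have hcoef0 : ∀ (N : L) (x : W), x ∈ N.1 → x = κ N x • gen N := by
    intro N x hx
    rw [hgenN N] at hx
    obtain ⟨q, rfl⟩ := Submodule.mem_span_singleton.1 hx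
    rw [map_smul, hκ, smul_eq_mul, mul_one]
  have hcoef : ∀ (N : L) (f : Ord W → W) (_ : f ∈ PL0 A P₀) (P : Ord W),
      κ N (f P - f (flip N.1 P)) ∈ R := by
    intro N f hf P
    have h1 : f P - f (flip N.1 P) ∈ N.1 := hf.1.2 N.1 P
    have h2 : f P - f (flip N.1 P) ∈ A := A.sub_mem (hf.1.1.2 _) (hf.1.1.2 _)
    rw [hcoef0 N _ h1] at h2
    exact (hgenR N _).1 h2
  have hone : ∀ f ∈ PL1 R A P₀, f ∈ PL0 A P₀ := by
    intro f hf
    have := hf 1 h1R
    rwa [one_smul] at this
  have hfr : ∀ (N : L) (f : PL1 R A P₀),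
      (fun P => κ N (f.1 P - f.1 (flip N.1 P))) ∈ FR (Mult R) (Ord W) := by
    intro N f
    refine ⟨?_, fun P r hr => ?_⟩
    · obtain ⟨S, hS⟩ := (hone f.1 f.2).1.1.1
      have hfin := hS.finite_range
      apply Set.Finite.subset (Set.Finite.image2 (fun a b => κ N (a - b)) hfin hfin)
      rintro _ ⟨P, rfl⟩
      exact ⟨f.1 P, ⟨P, rfl⟩, f.1 (flip N.1 P), ⟨_, rfl⟩, rfl⟩
    · have h1 := hcoef N (r • f.1) (f.2 r hr) P
      have h2 : κ N ((r • f.1) P - (r • f.1) (flip N.1 P)) =
          κ N (f.1 P - f.1 (flip N.1 P)) * r := by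
        have : (r • f.1) P - (r • f.1) (flip N.1 P) = r • (f.1 P - f.1 (flip N.1 P)) := by
          rw [smul_sub]; rfl
        rw [this, map_smul, smul_eq_mul, mul_comm]
      rwa [h2] at h1
  -- only finitely many lines carry jumps
  have hlines : ∀ f ∈ PL0 A P₀, {N : L | ∃ P, f P ≠ f (flip N.1 P)}.Finite := by
    intro f hf
    obtain ⟨S, hS⟩ := hf.1.1.1
    have : {N : L | ∃ P, f P ≠ f (flip N.1 P)} ⊆
        (fun N : L => N.1) ⁻¹' ((fun s => Submodule.span ℚ {s}) '' (S : Set W)) := by
      rintro N ⟨P, h1⟩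
      rw [hgenN N] at h1
      obtain ⟨s, hs, hs0, hsN⟩ := flip_eq_of_agree hS h1
      refine ⟨s, hs, ?_⟩
      show Submodule.span ℚ {s} = N.1
      rw [hgenN N]
      exact (span_eq_of_mem hs0 hsN).symm
    apply Set.Finite.subset _ this
    apply Set.Finite.preimage
    · intro a _ b _ hab
      exact Subtype.ext hab
    · exact (Finset.finite_toSet S).image _
  have hsupp : ∀ f : PL1 R A P₀, (Function.support
      (fun N : L => (⟨_, hfr N f⟩ : FR (Mult R) (Ord W)))).Finite := by
    intro f
    apply Set.Finite.subset (hlines f.1 (hone f.1 f.2))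
    intro N hN
    rw [Function.mem_support] at hN
    by_contra hcon
    apply hN
    apply Subtype.ext
    funext P
    show κ N (f.1 P - f.1 (flip N.1 P)) = 0
    have h1 : f.1 P = f.1 (flip N.1 P) := by
      by_contra h
      exact hcon ⟨P, h⟩
    rw [← h1, sub_self, map_zero]
  let J : PL1 R A P₀ →ₗ[Mult R] (L →₀ FR (Mult R) (Ord W)) :=
    { toFun := fun f => Finsupp.ofSupportFinite _ (hsupp f)
      map_add' := by
        intro f g
        ext N P
        show κ N ((f + g).1 P - (f + g).1 (flip N.1 P)) =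
          κ N (f.1 P - f.1 (flip N.1 P)) + κ N (g.1 P - g.1 (flip N.1 P))
        rw [← map_add]
        congr 1
        show (f.1 P + g.1 P) - (f.1 (flip N.1 P) + g.1 (flip N.1 P)) = _
        abel
      map_smul' := by
        intro r f
        ext N P
        show κ N ((r • f).1 P - (r • f).1 (flip N.1 P)) =
          r • κ N (f.1 P - f.1 (flip N.1 P))
        have : (r • f).1 P - (r • f).1 (flip N.1 P) = (r : ℚ) • (f.1 P - f.1 (flip N.1 P)) := by
          rw [smul_sub]; rfl
        rw [this, map_smul]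
        rfl }
  have hJ : Function.Injective J := by
    rw [injective_iff_map_eq_zero]
    intro f hf
    have hf0 := hone f.1 f.2
    obtain ⟨S, hS⟩ := hf0.1.1.1
    have hconst := const_of_no_jump f.1 S hS (by
      intro w hw P
      let N : L := ⟨Submodule.span ℚ {w}, w, hw, rfl⟩
      have h1 : κ N (f.1 P - f.1 (flip N.1 P)) = 0 := by
        have h2 := congrArg (fun x : L →₀ FR (Mult R) (Ord W) => (x N).1 P) hf
        exact h2
      have h3 := hcoef0 N _ (hf0.1.2 N.1 P)
      rw [h1, zero_smul] at h3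
      exact sub_eq_zero.1 h3)
    apply Subtype.ext
    funext P
    rw [hconst P P₀]
    exact hf0.2
  have hFRfree : Module.Free (Mult R) (FR (Mult R) (Ord W)) := FR_free (Mult R) (Ord W)
  have hpid := subring_pid (Mult R)
  have hfree : Module.Free (Mult R) (PL1 R A P₀) :=
    free_of_injective (R := Mult R) (M := PL1 R A P₀) (F := L →₀ FR (Mult R) (Ord W)) J hJ
  let b := Module.Free.chooseBasis (Mult R) (PL1 R A P₀)
  refine ⟨Module.Free.ChooseBasisIndex (Mult R) (PL1 R A P₀), ?_, ?_⟩
  · refine (mk_le_of_injective b.injective).trans ?_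
    refine mk_le_of_injective (f := fun f : PL1 R A P₀ =>
      (⟨f.1, (hone f.1 f.2).1.1.1, fun _ => trivial⟩ : DepG (⊤ : AddSubgroup W))) ?_
    intro f g h
    exact Subtype.ext (congrArg (fun x : DepG (⊤ : AddSubgroup W) => x.1) h)
  -- every function is an R-multiple of one in PL1
  have hmult : ∀ f ∈ PL0 A P₀, ∃ r ∈ R, ∃ g ∈ PL1 R A P₀, f = r • g := by
    intro f hf
    by_cases hf0 : f = 0
    · exact ⟨0, R.zero_mem, 0, (PL1 R A P₀).zero_mem, by rw [hf0, smul_zero]⟩
    -- the finite set of jump coefficients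
    have hCfin : {c : ℚ | c ≠ 0 ∧ ∃ (N : L) (P : Ord W), c = κ N (f P - f (flip N.1 P))}.Finite := by
      obtain ⟨S, hS⟩ := hf.1.1.1
      have hfin := hS.finite_range
      have : {c : ℚ | c ≠ 0 ∧ ∃ (N : L) (P : Ord W), c = κ N (f P - f (flip N.1 P))} ⊆
          ⋃ N ∈ {N : L | ∃ P, f P ≠ f (flip N.1 P)},
            Set.image2 (fun a b => κ N (a - b)) (Set.range f) (Set.range f) := by
        rintro c ⟨hc, N, P, rfl⟩
        rw [Set.mem_iUnion₂]
        refine ⟨N, ⟨P, ?_⟩, f P, ⟨P, rfl⟩, f (flip N.1 P), ⟨_, rfl⟩, rfl⟩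
        intro h
        apply hc
        rw [← h, sub_self, map_zero]
      exact Set.Finite.subset ((hlines f hf).biUnion fun N _ => Set.Finite.image2 _ hfin hfin) this
    have hkey : ∀ q : ℚ, (∀ c ∈ hCfin.toFinset, q * c ∈ R) → q • f ∈ PL0 A P₀ := by
      intro q hq
      obtain ⟨S, hS⟩ := hf.1.1.1
      have hmod : ∀ P Q : Ord W, (QuotientAddGroup.mk (q • f P) : W ⧸ A) =
          QuotientAddGroup.mk (q • f Q) := by
        apply const_of_no_jump (fun P => (QuotientAddGroup.mk (q • f P) : W ⧸ A)) S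
          (hS.comp (fun a => (QuotientAddGroup.mk (q • a) : W ⧸ A)))
        intro w hw P
        let N : L := ⟨Submodule.span ℚ {w}, w, hw, rfl⟩
        show (QuotientAddGroup.mk (q • f P) : W ⧸ A) = QuotientAddGroup.mk (q • f (flip N.1 P))
        rw [QuotientAddGroup.eq]
        have h1 : -(q • f P) + q • f (flip N.1 P) =
            -((q * κ N (f P - f (flip N.1 P))) • gen N) := by
          rw [mul_smul, ← hcoef0 N _ (hf.1.2 N.1 P), smul_sub]
          abel
        rw [h1]
        apply A.neg_mem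
        rw [hgenR N]
        by_cases hc : κ N (f P - f (flip N.1 P)) = 0
        · rw [hc, mul_zero]; exact R.zero_mem
        · apply hq
          rw [Set.Finite.mem_toFinset]
          exact ⟨hc, N, P, rfl⟩
      have hval : ∀ P, q • f P ∈ A := by
        intro P
        have h1 := hmod P P₀
        rw [hf.2, smul_zero, QuotientAddGroup.mk_zero] at h1
        exact (QuotientAddGroup.eq_zero_iff _).1 h1
      refine ⟨⟨⟨⟨S, hS.comp (fun a => q • a)⟩, hval⟩, fun N P => ?_⟩, ?_⟩
      · have : (q • f) P - (q • f) (flip N P) = q • (f P - f (flip N P)) := by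
          rw [smul_sub]; rfl
        rw [this]
        exact N.smul_mem _ (hf.1.2 N P)
      · show q • f P₀ = 0
        rw [hf.2, smul_zero]
    have hCne : hCfin.toFinset.Nonempty := by
      rw [Finset.nonempty_iff_ne_empty]
      intro hempty
      apply hf0
      obtain ⟨S, hS⟩ := hf.1.1.1
      have hconst := const_of_no_jump f S hS (by
        intro w hw P
        let N : L := ⟨Submodule.span ℚ {w}, w, hw, rfl⟩
        have h1 : κ N (f P - f (flip N.1 P)) = 0 := by
          by_contra hne
          have : κ N (f P - f (flip N.1 P)) ∈ hCfin.toFinset := by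
            rw [Set.Finite.mem_toFinset]; exact ⟨hne, N, P, rfl⟩
          rw [hempty] at this
          exact absurd this (Finset.notMem_empty _)
        have h3 := hcoef0 N _ (hf.1.2 N.1 P)
        rw [h1, zero_smul] at h3
        exact sub_eq_zero.1 h3)
      funext P
      rw [hconst P P₀]
      exact hf.2
    obtain ⟨d, hd0, hd⟩ := inter_mult R hCfin.toFinset hCne (by
      intro c hc
      rw [Set.Finite.mem_toFinset] at hc
      exact hc.1)
    have hone' : ∀ c ∈ hCfin.toFinset, (1 : ℚ) * c ∈ R := by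
      intro c hc
      rw [Set.Finite.mem_toFinset] at hc
      obtain ⟨_, N, P, rfl⟩ := hc
      rw [one_mul]
      exact hcoef N f hf P
    obtain ⟨r, hr, h1r⟩ := (hd 1).1 hone'
    have hr' : r = d⁻¹ := by
      have : d * r = 1 := h1r.symm
      exact eq_inv_of_mul_eq_one_right this
    refine ⟨r, hr, d • f, ?_, ?_⟩
    · intro s hs
      rw [smul_smul]
      apply hkey
      rw [hd]
      exact ⟨s, hs, mul_comm _ _⟩
    · rw [hr', smul_smul, inv_mul_cancel₀ hd0, one_smul]
  -- the isomorphism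
  let Ψ : (Module.Free.ChooseBasisIndex (Mult R) (PL1 R A P₀) →₀ R) →+ PL0 A P₀ :=
    Finsupp.liftAddHom (fun i =>
    { toFun := fun r => ⟨r.1 • (b i).1, (b i).2 r.1 r.2⟩
      map_zero' := by
        apply Subtype.ext; simp
      map_add' := by
        intro r s
        apply Subtype.ext
        show ((r.1 + s.1) • (b i).1) = r.1 • (b i).1 + s.1 • (b i).1
        rw [add_smul] })
  have hΨ : ∀ c, (Ψ c).1 = c.sum (fun i r => r.1 • (b i).1) := by
    intro c
    simp only [Ψ, Finsupp.liftAddHom_apply, Finsupp.sum, AddSubgroup.val_finsetSum]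
    rfl
  have hsurj : Function.Surjective Ψ := by
    intro f
    obtain ⟨r, hr, g, hg, hfg⟩ := hmult f.1 f.2
    let c := b.repr ⟨g, hg⟩
    refine ⟨c.mapRange (fun e : Mult R => (⟨e.1 * r, e.2 r hr⟩ : R)) (by
      apply Subtype.ext; simp), ?_⟩
    apply Subtype.ext
    rw [hΨ, Finsupp.sum_mapRange_index (by intro i; simp)]
    have h1 : (⟨g, hg⟩ : PL1 R A P₀) = c.sum (fun i e => e • b i) := by
      have := b.linearCombination_repr (⟨g, hg⟩ : PL1 R A P₀)
      rw [Finsupp.linearCombination_apply] at this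
      exact this.symm
    have h2 : g = c.sum (fun i e => e.1 • (b i).1) := by
      have := congrArg (fun x : PL1 R A P₀ => x.1) h1
      simp only [Finsupp.sum] at this ⊢
      rw [Submodule.coe_sum] at this
      exact this
    rw [hfg]
    conv_rhs => rw [h2]
    rw [Finsupp.sum, Finsupp.sum, Finset.smul_sum]
    apply Finset.sum_congr rfl
    intro i _
    show ((c i).1 * r) • (b i).1 = r • ((c i).1 • (b i).1)
    rw [smul_smul, mul_comm r]
  have hinj : Function.Injective Ψ := by
    rw [injective_iff_map_eq_zero]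
    intro c hc
    -- common denominator
    have h1 := hΨ c
    rw [hc] at h1
    have hden : ∃ m : ℕ, m ≠ 0 ∧ ∀ i ∈ c.support, ∃ z : ℤ, (m : ℚ) * (c i).1 = z := by
      refine ⟨∏ i ∈ c.support, (c i).1.den, Finset.prod_ne_zero_iff.2 fun i _ => (c i).1.den_nz, ?_⟩
      intro i hi
      refine ⟨(∏ j ∈ c.support.erase i, ((c j).1.den : ℤ)) * (c i).1.num, ?_⟩
      rw [← Finset.mul_prod_erase _ _ hi]
      push_cast
      have h2 : (c i).1 * ((c i).1.den : ℚ) = (c i).1.num := Rat.mul_den_eq_num _
      rw [← h2]; ring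
    obtain ⟨m, hm, hz⟩ := hden
    choose! z hz using hz
    have hzc : ∀ i ∉ c.support, (m : ℚ) * (c i).1 = 0 := by
      intro i hi
      rw [Finsupp.notMem_support_iff.1 hi]; simp
    let c' : Module.Free.ChooseBasisIndex (Mult R) (PL1 R A P₀) →₀ Mult R :=
      Finsupp.onFinset c.support (fun i => if i ∈ c.support then (z i : Mult R) else 0) (by
        intro i hi
        by_contra hcon
        exact hi (if_neg hcon))
    have hlin : Finsupp.linearCombination (Mult R) b c' = 0 := by
      apply Subtype.ext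
      rw [Finsupp.linearCombination_apply, Finsupp.sum, Submodule.coe_sum]
      have hsub : c'.support ⊆ c.support := Finsupp.support_onFinset_subset
      rw [Finset.sum_subset hsub (by
        intro i _ hi
        rw [Finsupp.notMem_support_iff.1 hi, zero_smul]; rfl)]
      have h3 : ∀ i ∈ c.support, ((c' i • b i : PL1 R A P₀) : Ord W → W) =
          (m : ℚ) • ((c i).1 • (b i).1) := by
        intro i hi
        have h4 : ((c' i : Mult R) : ℚ) = (m : ℚ) * (c i).1 := by
          rw [hz i hi]
          simp only [c', Finsupp.onFinset_apply, hi, if_true]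
          simp
        show ((c' i : Mult R) : ℚ) • (b i).1 = _
        rw [h4, mul_smul]
      rw [Finset.sum_congr rfl h3, ← Finset.smul_sum]
      have h5 : ∑ i ∈ c.support, (c i).1 • (b i).1 = 0 := by
        have := h1
        rw [Finsupp.sum] at this
        exact this.symm
      rw [h5, smul_zero]; rfl
    have hc' : c' = 0 := by
      have h6 : b.repr (Finsupp.linearCombination (Mult R) b c') = c' := b.repr_linearCombination c'
      rw [hlin, map_zero] at h6
      exact h6.symm
    ext i
    by_cases hi : i ∈ c.support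
    · have h7 := DFunLike.congr_fun hc' i
      simp only [c', Finsupp.onFinset_apply, hi, if_true, Finsupp.coe_zero, Pi.zero_apply] at h7
      have h8 : (z i : ℚ) = 0 := by
        have := congrArg (fun x : Mult R => (x : ℚ)) h7
        simpa using this
      have h9 := hz i hi
      rw [h8] at h9
      rcases mul_eq_zero.1 h9 with h | h
      · exact absurd (by exact_mod_cast h) hm
      · simpa using h
    · rw [Finsupp.notMem_support_iff.1 hi]; rfl
  exact ⟨(AddEquiv.ofBijective Ψ ⟨hinj, hsurj⟩).symm⟩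

end Abstract

end Pool.MP_764a00_al.Arch
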