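import Pool.Agent.Lib.MP_764a00_al.Assembly

set_option autoImplicit false

namespace Pool.MP_764a00_al.Arch

open Classical

variable {W : Type} [AddCommGroup W] [Module ℚ W]

/-- `N` is convex (infinitesimal) for `P` -/
def Conv (P : Ord W) (N : Submodule ℚ W) : Prop :=
  ∀ x, x ∉ N → ∀ y ∈ N, x ∈ P.pos → x + y ∈ P.pos

theorem Conv.iff {P : Ord W} {N : Submodule ℚ W} (h : Conv P N) {x y : W} (hx : x ∉ N)
    (hy : y ∈ N) : x + y ∈ P.pos ↔ x ∈ P.pos := by
  constructor
  · intro h1
    have h2 : x + y ∉ N := fun h3 => hx ((Submodule.add_mem_iff_left N hy).1 h3)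
    have := h _ h2 (-y) (N.neg_mem hy) h1
    simpa using this
  · exact h x hx y hy

/-- reverse the order on the convex subgroup `N` -/
def flipOrd (P : Ord W) (N : Submodule ℚ W) (h : Conv P N) : Ord W where
  pos := {x | (x ∉ N ∧ x ∈ P.pos) ∨ (x ∈ N ∧ -x ∈ P.pos)}
  add_mem := by
    rintro x (⟨hx, hx'⟩ | ⟨hx, hx'⟩) y (⟨hy, hy'⟩ | ⟨hy, hy'⟩)
    · by_cases hxy : x + y ∈ N
      · exfalso
        have h1 := h x hx _ (N.neg_mem hxy) hx'
        have h2 : x + -(x + y) = -y := by abel
        rw [h2] at h1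
        have h3 := P.anti y hy' h1
        exact hy (h3 ▸ N.zero_mem)
      · left; exact ⟨hxy, P.add_mem _ hx' _ hy'⟩
    · left
      exact ⟨fun h3 => hx ((Submodule.add_mem_iff_left N hy).1 h3), h x hx y hy hx'⟩
    · left
      refine ⟨fun h3 => hy ((Submodule.add_mem_iff_right N hx).1 h3), ?_⟩
      rw [add_comm]
      exact h y hy x hx hy'
    · right
      refine ⟨N.add_mem hx hy, ?_⟩
      rw [neg_add]
      exact P.add_mem _ hx' _ hy'
  total := by
    intro x
    by_cases hx : x ∈ N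
    · rcases P.total x with h1 | h1
      · right; right; exact ⟨N.neg_mem hx, by rwa [neg_neg]⟩
      · left; right; exact ⟨hx, h1⟩
    · rcases P.total x with h1 | h1
      · left; left; exact ⟨hx, h1⟩
      · right; left; exact ⟨fun h2 => hx (by simpa using N.neg_mem h2), h1⟩
  anti := by
    rintro x (⟨hx, hx'⟩ | ⟨hx, hx'⟩) (⟨hy, hy'⟩ | ⟨hy, hy'⟩)
    · exact P.anti x hx' hy'
    · exact absurd (by simpa using N.neg_mem hy) hx
    · exact absurd (N.neg_mem hx) hy
    · rw [neg_neg] at hy'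
      exact P.anti x hy' hx'

/-- the neighbouring order across the wall of `N` (the order itself if `N` is not convex) -/
noncomputable def flip (N : Submodule ℚ W) (P : Ord W) : Ord W :=
  if h : Conv P N then flipOrd P N h else P

/-- finitely determined functions with values in `A` and jumps along the walls -/
def PL (A : AddSubgroup W) : AddSubgroup (Ord W → W) where
  carrier := {f | f ∈ DepG A ∧ ∀ (N : Submodule ℚ W) (P : Ord W), f P - f (flip N P) ∈ N}
  zero_mem' := ⟨(DepG A).zero_mem, fun N P => by simp⟩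
  add_mem' := by
    rintro f g ⟨h1, h2⟩ ⟨h3, h4⟩
    refine ⟨(DepG A).add_mem h1 h3, fun N P => ?_⟩
    have : (f + g) P - (f + g) (flip N P) = (f P - f (flip N P)) + (g P - g (flip N P)) := by
      simp only [Pi.add_apply]; abel
    rw [this]
    exact N.add_mem (h2 N P) (h4 N P)
  neg_mem' := by
    rintro f ⟨h1, h2⟩
    refine ⟨(DepG A).neg_mem h1, fun N P => ?_⟩
    have : (-f) P - (-f) (flip N P) = -(f P - f (flip N P)) := by
      simp only [Pi.neg_apply]; abel
    rw [this]
    exact N.neg_mem (h2 N P)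

theorem fsup_mem_PL (A : AddSubgroup W) {f g : Ord W → W} (hf : f ∈ PL A) (hg : g ∈ PL A) :
    fsup f g ∈ PL A := by
  refine ⟨fsup_mem_DepG A hf.1 hg.1, fun N P => ?_⟩
  have hfN := hf.2 N P
  have hgN := hg.2 N P
  by_cases hc : Conv P N
  · have hQ : flip N P = flipOrd P N hc := dif_pos hc
    rw [hQ] at hfN hgN ⊢
    set Q := flipOrd P N hc with hQdef
    by_cases hN : g P - f P ∈ N
    · -- all four values are congruent modulo N
      have hN' : g Q - f Q ∈ N := by
        have : g Q - f Q = (g P - f P) - (g P - g Q) + (f P - f Q) := by abel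
        rw [this]
        exact N.add_mem (N.sub_mem hN hgN) hfN
      unfold fsup
      split_ifs
      · exact hgN
      · have : g P - f Q = (g P - f P) + (f P - f Q) := by abel
        rw [this]; exact N.add_mem hN hfN
      · have : f P - g Q = (g P - g Q) - (g P - f P) := by abel
        rw [this]; exact N.sub_mem hgN hN
      · exact hfN
    · have hy : (g Q - f Q) - (g P - f P) ∈ N := by
        have : (g Q - f Q) - (g P - f P) = (f P - f Q) - (g P - g Q) := by abel
        rw [this]; exact N.sub_mem hfN hgN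
      have hN' : g Q - f Q ∉ N := by
        intro h1
        apply hN
        have : g P - f P = (g Q - f Q) - ((g Q - f Q) - (g P - f P)) := by abel
        rw [this]; exact N.sub_mem h1 hy
      have hiff : g Q - f Q ∈ Q.pos ↔ g P - f P ∈ P.pos := by
        have h1 : g Q - f Q ∈ Q.pos ↔ g Q - f Q ∈ P.pos := by
          constructor
          · rintro (⟨_, h⟩ | ⟨h, _⟩)
            · exact h
            · exact absurd h hN'
          · intro h; left; exact ⟨hN', h⟩
        rw [h1]
        have h2 := hc.iff hN hy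
        rw [← h2]
        have : (g P - f P) + ((g Q - f Q) - (g P - f P)) = g Q - f Q := by abel
        rw [this]
      unfold fsup
      by_cases h : g P - f P ∈ P.pos
      · rw [if_pos h, if_pos (hiff.2 h)]; exact hgN
      · rw [if_neg h, if_neg (fun h' => h (hiff.1 h'))]; exact hfN
  · have hQ : flip N P = P := dif_neg hc
    rw [hQ, sub_self]
    exact N.zero_mem

theorem iff_of_not_iff {a b c : Prop} (h1 : ¬ (a ↔ b)) (h2 : ¬ (b ↔ c)) : (a ↔ c) := by
  tauto

/-- nonnegative combinations -/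
def Cn (T : Finset W) : Set W := {x | ∃ c : W → ℚ, (∀ t, 0 ≤ c t) ∧ x = ∑ t ∈ T, c t • t}

theorem Cn_sub (P : Ord W) (T : Finset W) (hT : ∀ t ∈ T, t ∈ P.pos) {x : W} (hx : x ∈ Cn T) :
    x ∈ P.pos := by
  obtain ⟨c, hc, rfl⟩ := hx
  exact P.sum_mem _ _ fun t ht => P.smul_mem (hc t) (hT t ht)

theorem Cn_add {T : Finset W} {x y : W} (hx : x ∈ Cn T) (hy : y ∈ Cn T) : x + y ∈ Cn T := by
  obtain ⟨c, hc, rfl⟩ := hx
  obtain ⟨d, hd, rfl⟩ := hy
  refine ⟨fun t => c t + d t, fun t => add_nonneg (hc t) (hd t), ?_⟩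
  rw [← Finset.sum_add_distrib]
  exact Finset.sum_congr rfl fun t _ => (add_smul _ _ _).symm

theorem Cn_smul {T : Finset W} {x : W} {q : ℚ} (hq : 0 ≤ q) (hx : x ∈ Cn T) : q • x ∈ Cn T := by
  obtain ⟨c, hc, rfl⟩ := hx
  refine ⟨fun t => q * c t, fun t => mul_nonneg hq (hc t), ?_⟩
  rw [Finset.smul_sum]
  exact Finset.sum_congr rfl fun t _ => (smul_smul _ _ _)

/-- Gordan's theorem for finite sets of vectors -/
theorem gordan_finset {V : Type} [AddCommGroup V] [Module ℚ V] {ι : Type} (T : Finset ι) (φ : ι → V)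
    (h : ∀ c : ι → ℚ, (∀ t, 0 ≤ c t) → ∑ t ∈ T, c t • φ t = 0 → ∀ t ∈ T, c t = 0) :
    ∃ ℓ : V →ₗ[ℚ] ℚ, ∀ t ∈ T, 0 < ℓ (φ t) := by
  obtain ⟨ℓ, hℓ⟩ := gordan T.card V (fun i => φ (T.equivFin.symm i)) (by
    intro c hc hsum
    have h1 := h (fun t => if ht : t ∈ T then c (T.equivFin ⟨t, ht⟩) else 0)
      (fun t => by split_ifs; exacts [hc _, le_rfl]) (by
        rw [← hsum]
        rw [← Finset.sum_coe_sort T]
        rw [← Equiv.sum_comp T.equivFin]
        apply Finset.sum_congr rfl
        intro t _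
        simp)
    funext i
    have h2 := h1 (T.equivFin.symm i) (T.equivFin.symm i).2
    simpa using h2)
  refine ⟨ℓ, fun t ht => ?_⟩
  have := hℓ (T.equivFin ⟨t, ht⟩)
  simpa using this

/-- one more vector can be made positive -/
theorem exists_extend (P : Ord W) (T : Finset W) (hT : ∀ t ∈ T, t ∈ P.pos ∧ t ≠ 0) (v : W)
    (hv : -v ∉ Cn T) : ∃ Q : Ord W, (∀ t ∈ T, t ∈ Q.pos) ∧ v ∈ Q.pos := by
  by_cases hvT : v ∈ T
  · exact ⟨P, fun t ht => (hT t ht).1, (hT v hvT).1⟩
  obtain ⟨ℓ, hℓ⟩ := gordan_finset (insert v T) (fun x => x) (by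
    intro c hc hsum
    rw [Finset.sum_insert hvT] at hsum
    have hcv : c v = 0 := by
      by_contra hne
      have hpos : 0 < c v := lt_of_le_of_ne (hc v) (Ne.symm hne)
      apply hv
      refine ⟨fun t => (c v)⁻¹ * c t, fun t => mul_nonneg (inv_nonneg.2 hpos.le) (hc t), ?_⟩
      have h1 : c v • v = -∑ t ∈ T, c t • t := eq_neg_of_add_eq_zero_left hsum
      have h2 : v = (c v)⁻¹ • (-∑ t ∈ T, c t • t) := by
        rw [← h1, smul_smul, inv_mul_cancel₀ hne, one_smul]
      conv_lhs => rw [h2]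
      rw [smul_neg, neg_neg, Finset.smul_sum]
      exact Finset.sum_congr rfl fun t _ => (smul_smul _ _ _)
    rw [hcv, zero_smul, zero_add] at hsum
    have h3 := P.sum_eq_zero T (fun t => c t • t) (fun t ht => P.smul_mem (hc t) (hT t ht).1) hsum
    intro t ht
    rcases Finset.mem_insert.1 ht with rfl | ht
    · exact hcv
    · rcases smul_eq_zero.1 (h3 t ht) with h | h
      · exact h
      · exact absurd h (hT t ht).2)
  refine ⟨Ord.lex ℓ P, fun t ht => ?_, ?_⟩
  · left; exact hℓ t (Finset.mem_insert_of_mem ht)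
  · left; exact hℓ v (Finset.mem_insert_self _ _)

/-- lexicographic order from an order of the quotient -/
def lexQ (N : Submodule ℚ W) (P' : Ord (W ⧸ N)) (P : Ord W) : Ord W where
  pos := {x | (x ∉ N ∧ N.mkQ x ∈ P'.pos) ∨ (x ∈ N ∧ x ∈ P.pos)}
  add_mem := by
    rintro x (⟨hx, hx'⟩ | ⟨hx, hx'⟩) y (⟨hy, hy'⟩ | ⟨hy, hy'⟩)
    · by_cases hxy : x + y ∈ N
      · exfalso
        have h1 : N.mkQ x + N.mkQ y = 0 := by
          rw [← map_add, Submodule.mkQ_apply, Submodule.Quotient.mk_eq_zero]; exact hxy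
        have h2 := P'.eq_zero_of_add hx' hy' h1
        rw [Submodule.mkQ_apply, Submodule.Quotient.mk_eq_zero] at h2
        exact hx h2
      · left; refine ⟨hxy, ?_⟩
        rw [map_add]; exact P'.add_mem _ hx' _ hy'
    · left
      refine ⟨fun h3 => hx ((Submodule.add_mem_iff_left N hy).1 h3), ?_⟩
      have h0 : N.mkQ y = 0 := by
        rw [Submodule.mkQ_apply, Submodule.Quotient.mk_eq_zero]; exact hy
      rw [map_add, h0, add_zero]; exact hx'
    · left
      refine ⟨fun h3 => hy ((Submodule.add_mem_iff_right N hx).1 h3), ?_⟩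
      have h0 : N.mkQ x = 0 := by
        rw [Submodule.mkQ_apply, Submodule.Quotient.mk_eq_zero]; exact hx
      rw [map_add, h0, zero_add]; exact hy'
    · right
      exact ⟨N.add_mem hx hy, P.add_mem _ hx' _ hy'⟩
  total := by
    intro x
    by_cases hx : x ∈ N
    · rcases P.total x with h1 | h1
      · left; right; exact ⟨hx, h1⟩
      · right; right; exact ⟨N.neg_mem hx, h1⟩
    · rcases P'.total (N.mkQ x) with h1 | h1
      · left; left; exact ⟨hx, h1⟩
      · right; left; refine ⟨fun h2 => hx (by simpa using N.neg_mem h2), ?_⟩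
        rw [map_neg]; exact h1
  anti := by
    rintro x (⟨hx, hx'⟩ | ⟨hx, hx'⟩) (⟨hy, hy'⟩ | ⟨hy, hy'⟩)
    · rw [map_neg] at hy'
      have h2 := P'.anti _ hx' hy'
      rw [Submodule.mkQ_apply, Submodule.Quotient.mk_eq_zero] at h2
      exact absurd h2 hx
    · exact absurd (by simpa using N.neg_mem hy) hx
    · exact absurd (N.neg_mem hx) hy
    · exact P.anti x hx' hy'

theorem lexQ_conv (N : Submodule ℚ W) (P' : Ord (W ⧸ N)) (P : Ord W) : Conv (lexQ N P' P) N := by
  intro x hx y hy hxP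
  left
  refine ⟨fun h3 => hx ((Submodule.add_mem_iff_left N hy).1 h3), ?_⟩
  have h0 : N.mkQ y = 0 := by
    rw [Submodule.mkQ_apply, Submodule.Quotient.mk_eq_zero]; exact hy
  rw [map_add, h0, add_zero]
  rcases hxP with h | h
  · exact h.2
  · exact absurd h.1 hx

/-- A finitely determined function without jumps is constant. -/
theorem const_of_no_jump {X : Type} (f : Ord W → X) (S : Finset W) (hS : Dep f S)
    (hJ : ∀ w : W, w ≠ 0 → ∀ P, f P = f (flip (Submodule.span ℚ {w}) P)) :
    ∀ P Q, f P = f Q := by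
  have main : ∀ n : ℕ, ∀ P Q : Ord W,
      (S.filter (fun s => ¬ (s ∈ P.pos ↔ s ∈ Q.pos))).card = n → f P = f Q := by
    intro n
    induction n using Nat.strong_induction_on with
    | _ n ih =>
    intro P Q hn
    by_contra hne
    -- signed vectors
    let sg : W → W := fun s => if s ∈ P.pos then s else -s
    have hsgP : ∀ s, sg s ∈ P.pos := by
      intro s
      by_cases h : s ∈ P.pos
      · simp [sg, h]
      · simp only [sg, h, if_false]
        exact (P.total s).resolve_left h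
    have hsg0 : ∀ s, sg s = 0 → s = 0 := by
      intro s h
      by_cases h' : s ∈ P.pos
      · simpa [sg, h'] using h
      · simpa [sg, h'] using h
    have hmem : ∀ (R : Ord W) (s : W), s ≠ 0 → (sg s ∈ R.pos ↔ (s ∈ R.pos ↔ s ∈ P.pos)) := by
      intro R s hs
      by_cases h' : s ∈ P.pos
      · simp [sg, h']
      · simp only [sg, h', if_false, iff_false]
        exact (R.not_mem_iff hs).symm
    let Tp : Finset W := ((S.filter (fun s => (s ∈ P.pos ↔ s ∈ Q.pos) ∧ s ≠ 0)).image sg)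
    have hTpP : ∀ t ∈ Tp, t ∈ P.pos ∧ t ≠ 0 := by
      intro t ht
      obtain ⟨s, hs, rfl⟩ := Finset.mem_image.1 ht
      have := (Finset.mem_filter.1 hs).2
      exact ⟨hsgP s, fun h => this.2 (hsg0 s h)⟩
    have hTpQ : ∀ t ∈ Tp, t ∈ Q.pos := by
      intro t ht
      obtain ⟨s, hs, rfl⟩ := Finset.mem_image.1 ht
      have := (Finset.mem_filter.1 hs).2
      rw [hmem Q s this.2]
      exact this.1.symm
    have hdis0 : ∀ s ∈ S, ¬ (s ∈ P.pos ↔ s ∈ Q.pos) → s ≠ 0 := by
      intro s _ h h0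
      subst h0
      exact h ⟨fun _ => Q.zero_mem, fun _ => P.zero_mem⟩
    -- agreement of any order containing Tp
    have hagree : ∀ R : Ord W, (∀ t ∈ Tp, t ∈ R.pos) → ∀ s ∈ S, (s ∈ P.pos ↔ s ∈ Q.pos) →
        (s ∈ R.pos ↔ s ∈ P.pos) := by
      intro R hR s hs hPQ
      by_cases hs0 : s = 0
      · subst hs0; exact ⟨fun _ => P.zero_mem, fun _ => R.zero_mem⟩
      · rw [← hmem R s hs0]
        apply hR
        exact Finset.mem_image.2 ⟨s, Finset.mem_filter.2 ⟨hs, hPQ, hs0⟩, rfl⟩
    -- all disagreement vectors behave in the same way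
    have hall : ∀ R : Ord W, (∀ t ∈ Tp, t ∈ R.pos) → ∀ u ∈ S, ∀ v ∈ S,
        ¬ (u ∈ P.pos ↔ u ∈ Q.pos) → ¬ (v ∈ P.pos ↔ v ∈ Q.pos) → sg u ∈ R.pos → sg v ∈ R.pos := by
      intro R hR u hu v hv hu' hv' huR
      by_contra hvR
      have huR' : u ∈ R.pos ↔ u ∈ P.pos := (hmem R u (hdis0 u hu hu')).1 huR
      have hvR' : ¬ (v ∈ R.pos ↔ v ∈ P.pos) := fun h => hvR ((hmem R v (hdis0 v hv hv')).2 h)
      have h1 : f P = f R := by
        refine ih _ ?_ P R rfl
        rw [← hn]
        apply Finset.card_lt_card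
        rw [Finset.ssubset_iff_of_subset]
        · refine ⟨u, Finset.mem_filter.2 ⟨hu, hu'⟩, ?_⟩
          rw [Finset.mem_filter]
          rintro ⟨_, h⟩
          exact h huR'.symm
        · intro s hs
          rw [Finset.mem_filter] at hs ⊢
          refine ⟨hs.1, fun h => hs.2 ?_⟩
          exact (hagree R hR s hs.1 h).symm
      have h2 : f R = f Q := by
        refine ih _ ?_ R Q rfl
        rw [← hn]
        apply Finset.card_lt_card
        rw [Finset.ssubset_iff_of_subset]
        · refine ⟨v, Finset.mem_filter.2 ⟨hv, hv'⟩, ?_⟩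
          rw [Finset.mem_filter]
          rintro ⟨_, h⟩
          exact h (iff_of_not_iff hvR' hv')
        · intro s hs
          rw [Finset.mem_filter] at hs ⊢
          refine ⟨hs.1, fun h => hs.2 ?_⟩
          exact (hagree R hR s hs.1 h).trans h
      exact hne (h1.trans h2)
    -- there is a disagreement vector
    obtain ⟨w, hw⟩ : (S.filter (fun s => ¬ (s ∈ P.pos ↔ s ∈ Q.pos))).Nonempty := by
      rw [Finset.nonempty_iff_ne_empty]
      intro he
      apply hne
      apply hS
      intro s hs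
      by_contra hcon
      have : s ∈ S.filter (fun s => ¬ (s ∈ P.pos ↔ s ∈ Q.pos)) := Finset.mem_filter.2 ⟨hs, hcon⟩
      rw [he] at this
      exact absurd this (Finset.notMem_empty s)
    rw [Finset.mem_filter] at hw
    obtain ⟨hwS, hwd⟩ := hw
    have hw0 := hdis0 w hwS hwd
    -- every disagreement vector is in the cone of Tp and any other one
    have hcone : ∀ u ∈ S, ∀ v ∈ S, ¬ (u ∈ P.pos ↔ u ∈ Q.pos) → ¬ (v ∈ P.pos ↔ v ∈ Q.pos) →
        ∃ σ ∈ Cn Tp, ∃ α : ℚ, 0 ≤ α ∧ sg v = σ + α • sg u := by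
      intro u hu v hv hu' hv'
      by_contra hcon
      have hnot : -(-(sg v)) ∉ Cn (insert (sg u) Tp) := by
        rw [neg_neg]
        rintro ⟨c, hc, hsum⟩
        apply hcon
        by_cases huT : sg u ∈ Tp
        · rw [Finset.insert_eq_of_mem huT] at hsum
          exact ⟨_, ⟨c, hc, hsum⟩, 0, le_rfl, by simp⟩
        · rw [Finset.sum_insert huT] at hsum
          exact ⟨_, ⟨c, hc, rfl⟩, c (sg u), hc _, by rw [hsum, add_comm]⟩
      obtain ⟨R, hR1, hR2⟩ := exists_extend P (insert (sg u) Tp) (by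
        intro t ht
        rcases Finset.mem_insert.1 ht with rfl | ht
        · exact ⟨hsgP u, fun h => hdis0 u hu hu' (hsg0 u h)⟩
        · exact hTpP t ht) (-(sg v)) hnot
      have h1 := hall R (fun t ht => hR1 t (Finset.mem_insert_of_mem ht)) u hu v hv hu' hv'
        (hR1 _ (Finset.mem_insert_self _ _))
      have h2 := R.anti _ h1 hR2
      exact hdis0 v hv hv' (hsg0 v h2)
    have hnegQ : ∀ v ∈ S, ¬ (v ∈ P.pos ↔ v ∈ Q.pos) → sg v ∉ Q.pos := by
      intro v hv hv' h
      rw [hmem Q v (hdis0 v hv hv')] at h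
      exact hv' h.symm
    -- they all lie on the ray of sg w
    have hray : ∀ v ∈ S, ¬ (v ∈ P.pos ↔ v ∈ Q.pos) → ∃ α : ℚ, 0 ≤ α ∧ sg v = α • sg w := by
      intro v hv hv'
      obtain ⟨σ, hσ, α, hα, e1⟩ := hcone w hwS v hv hwd hv'
      obtain ⟨τ, hτ, β, hβ, e2⟩ := hcone v hv w hwS hv' hwd
      have e3 : (1 - α * β) • sg v = σ + α • τ := by
        have : sg v = σ + α • (τ + β • sg v) := by rw [← e2]; exact e1
        have h4 : sg v - (α * β) • sg v = σ + α • τ := by
          rw [smul_add, smul_smul] at this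
          rw [sub_eq_iff_eq_add]
          rw [add_assoc]
          exact this
        rw [sub_smul, one_smul]
        exact h4
      have hconeQ : (1 - α * β) • sg v ∈ Q.pos := by
        rw [e3]; exact Cn_sub Q Tp hTpQ (Cn_add hσ (Cn_smul hα hτ))
      have hconeP : (1 - α * β) • sg v ∈ P.pos := by
        rw [e3]; exact Cn_sub P Tp (fun t ht => (hTpP t ht).1) (Cn_add hσ (Cn_smul hα hτ))
      have hv0 : sg v ≠ 0 := fun h => hdis0 v hv hv' (hsg0 v h)
      rcases lt_trichotomy (1 - α * β) 0 with hlt | heq | hgt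
      · exfalso
        have h5 : -((1 - α * β)⁻¹) ≥ 0 := by
          rw [ge_iff_le, neg_nonneg]; exact (inv_lt_zero.2 hlt).le
        have h6 := P.smul_mem h5 hconeP
        rw [smul_smul, neg_mul, inv_mul_cancel₀ hlt.ne, neg_smul, one_smul] at h6
        exact hv0 (P.anti _ (hsgP v) h6)
      · have h7 : σ + α • τ = 0 := by rw [← e3, heq, zero_smul]
        have h8 : σ = 0 := P.eq_zero_of_add (Cn_sub P Tp (fun t ht => (hTpP t ht).1) hσ)
          (Cn_sub P Tp (fun t ht => (hTpP t ht).1) (Cn_smul hα hτ)) h7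
        exact ⟨α, hα, by rw [e1, h8, zero_add]⟩
      · exfalso
        have h5 : (1 - α * β)⁻¹ ≥ 0 := (inv_pos.2 hgt).le
        have h6 := Q.smul_mem h5 hconeQ
        rw [smul_smul, inv_mul_cancel₀ hgt.ne', one_smul] at h6
        exact hnegQ v hv hv' h6
    -- the quotient by the line of w
    let N : Submodule ℚ W := Submodule.span ℚ {w}
    have hsgw : sg w ∈ N := by
      by_cases h : w ∈ P.pos
      · simp only [sg, h, if_true]; exact Submodule.mem_span_singleton_self w
      · simp only [sg, h, if_false]; exact N.neg_mem (Submodule.mem_span_singleton_self w)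
    have hsgw0 : sg w ≠ 0 := fun h => hw0 (hsg0 w h)
    have hNsg : ∀ x ∈ N, ∃ q : ℚ, x = q • sg w := by
      intro x hx
      obtain ⟨q, rfl⟩ := Submodule.mem_span_singleton.1 hx
      by_cases h : w ∈ P.pos
      · exact ⟨q, by simp [sg, h]⟩
      · exact ⟨-q, by simp [sg, h]⟩
    obtain ⟨ℓ, hℓ⟩ := gordan_finset Tp (fun t => N.mkQ t) (by
      intro c hc hsum t ht
      have hmemN : ∑ t ∈ Tp, c t • t ∈ N := by
        rw [← Submodule.Quotient.mk_eq_zero, ← Submodule.mkQ_apply, map_sum]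
        simpa using hsum
      obtain ⟨q, hq⟩ := hNsg _ hmemN
      have hP : q • sg w ∈ P.pos := by
        rw [← hq]; exact Cn_sub P Tp (fun t ht => (hTpP t ht).1) ⟨c, hc, rfl⟩
      have hQ : q • sg w ∈ Q.pos := by
        rw [← hq]; exact Cn_sub Q Tp hTpQ ⟨c, hc, rfl⟩
      have hq0 : q = 0 := by
        rcases lt_trichotomy q 0 with hlt | heq | hgt
        · exfalso
          have h5 : -(q⁻¹) ≥ 0 := by
            rw [ge_iff_le, neg_nonneg]; exact (inv_lt_zero.2 hlt).le
          have h6 := P.smul_mem h5 hP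
          rw [smul_smul, neg_mul, inv_mul_cancel₀ hlt.ne, neg_smul, one_smul] at h6
          exact hsgw0 (P.anti _ (hsgP w) h6)
        · exact heq
        · exfalso
          have h5 : q⁻¹ ≥ 0 := (inv_pos.2 hgt).le
          have h6 := Q.smul_mem h5 hQ
          rw [smul_smul, inv_mul_cancel₀ hgt.ne', one_smul] at h6
          exact hnegQ w hwS hwd h6
      rw [hq0, zero_smul] at hq
      have h3 := P.sum_eq_zero Tp (fun t => c t • t) (fun t ht => P.smul_mem (hc t) (hTpP t ht).1) hq
      rcases smul_eq_zero.1 (h3 t ht) with h | h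
      · exact h
      · exact absurd h (hTpP t ht).2)
    obtain ⟨P₁⟩ := Ord.exists_ord (W ⧸ N)
    let Ps : Ord W := lexQ N (Ord.lex ℓ P₁) P
    have hconv : Conv Ps N := lexQ_conv N _ P
    have hTN : ∀ t ∈ Tp, t ∉ N := by
      intro t ht h
      have h0 : N.mkQ t = 0 := by
        rw [Submodule.mkQ_apply, Submodule.Quotient.mk_eq_zero]; exact h
      have := hℓ t ht
      simp only [h0, map_zero, lt_irrefl] at this
    have hTps : ∀ t ∈ Tp, t ∈ Ps.pos := by
      intro t ht
      left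
      exact ⟨hTN t ht, Or.inl (hℓ t ht)⟩
    have hflip : flip N Ps = flipOrd Ps N hconv := dif_pos hconv
    have hTpf : ∀ t ∈ Tp, t ∈ (flipOrd Ps N hconv).pos := by
      intro t ht
      left
      exact ⟨hTN t ht, hTps t ht⟩
    have hdN : ∀ v ∈ S, ¬ (v ∈ P.pos ↔ v ∈ Q.pos) → sg v ∈ N := by
      intro v hv hv'
      obtain ⟨α, _, h⟩ := hray v hv hv'
      rw [h]; exact N.smul_mem _ hsgw
    have hdps : ∀ v ∈ S, ¬ (v ∈ P.pos ↔ v ∈ Q.pos) → sg v ∈ Ps.pos := by
      intro v hv hv'
      right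
      exact ⟨hdN v hv hv', hsgP v⟩
    have hdpf : ∀ v ∈ S, ¬ (v ∈ P.pos ↔ v ∈ Q.pos) → sg v ∉ (flipOrd Ps N hconv).pos := by
      rintro v hv hv' (⟨h, _⟩ | ⟨_, h⟩)
      · exact h (hdN v hv hv')
      · exact hdis0 v hv hv' (hsg0 v (Ps.anti _ (hdps v hv hv') h))
    have e1 : f P = f Ps := by
      apply hS
      intro s hs
      by_cases hd : (s ∈ P.pos ↔ s ∈ Q.pos)
      · exact (hagree Ps hTps s hs hd).symm
      · exact ((hmem Ps s (hdis0 s hs hd)).1 (hdps s hs hd)).symm
    have e2 : f (flipOrd Ps N hconv) = f Q := by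
      apply hS
      intro s hs
      by_cases hd : (s ∈ P.pos ↔ s ∈ Q.pos)
      · rw [hagree _ hTpf s hs hd]; exact hd
      · have h1 : ¬ (s ∈ (flipOrd Ps N hconv).pos ↔ s ∈ P.pos) := fun h =>
          hdpf s hs hd ((hmem _ s (hdis0 s hs hd)).2 h)
        exact iff_of_not_iff h1 hd
    apply hne
    rw [e1, hJ w hw0 Ps, hflip, e2]
  intro P Q
  exact main _ P Q rfl

end Pool.MP_764a00_al.Arch
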