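import Pool.Agent.Lib.MP_764a00_al.P.U1
import Pool.Agent.Lib.MP_764a00_al.P.U3
import Pool.Agent.Lib.MP_764a00_al.P.U4
import Pool.Agent.Lib.MP_764a00_al.P.TR
import Pool.Agent.Lib.MP_764a00_al.P.MG
import Pool.Agent.Lib.MP_764a00_al.P.PT
import Pool.Agent.Lib.MP_764a00_al.P.DS
import Pool.Agent.Lib.MP_764a00_al.P.LG0
import Pool.Agent.Lib.MP_764a00_al.P.QS
import Pool.Agent.Lib.MP_764a00_al.P.BS
import Pool.Agent.Lib.MP_764a00_al.P.DI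
import Pool.Agent.Lib.MP_764a00_al.P.C1
import Pool.Agent.Lib.MP_764a00_al.P.C2
import Pool.Agent.Lib.MP_764a00_al.P.C3
import Pool.Agent.Lib.MP_764a00_al.P.RAM
import Pool.Agent.Lib.MP_764a00_al.P.ER3
import Pool.Agent.Lib.MP_764a00_al.P.ER5
import Pool.Agent.Lib.MP_764a00_al.P.SL
import Pool.Agent.Lib.MP_764a00_al.P.LL
import Pool.Agent.Lib.MP_764a00_al.P.B0
import Pool.Agent.Lib.MP_764a00_al.P.BO
import Pool.Agent.Lib.MP_764a00_al.P.BN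
import Pool.Agent.Lib.MP_764a00_al.P.BI
import Pool.Agent.Lib.MP_764a00_al.P.R1
import Pool.Agent.Lib.MP_764a00_al.P.R2
import Pool.Agent.Lib.MP_764a00_al.P.R3
import Pool.Agent.Lib.MP_764a00_al.P.R4
import Pool.Agent.Lib.MP_764a00_al.P.R5
import Pool.Agent.Lib.MP_764a00_al.P.R6
import Pool.Agent.Lib.MP_764a00_al.P.RG
import Pool.Agent.Lib.MP_764a00_al.P.MU
import Pool.Agent.Lib.MP_764a00_al.P.GA
import Pool.Agent.Lib.MP_764a00_al.P.SE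
import Pool.Agent.Lib.MP_764a00_al.P.K0
import Pool.Agent.Lib.MP_764a00_al.P.K1
import Pool.Agent.Lib.MP_764a00_al.P.K2
import Pool.Agent.Lib.MP_764a00_al.P.K3
import Pool.Agent.Lib.MP_764a00_al.P.FC
import Pool.Agent.Lib.MP_764a00_al.P.KC
import Pool.Agent.Lib.MP_764a00_al.P.KT
import Pool.Agent.Lib.MP_764a00_al.P.LB
import Pool.Agent.Lib.MP_764a00_al.P.SQ
import Pool.Agent.Lib.MP_764a00_al.P.DT
import Pool.Agent.Lib.MP_764a00_al.P.CL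
import Pool.Agent.Lib.MP_764a00_al.P.AR
import Pool.Agent.Lib.MP_764a00_al.P.CN
import Pool.Agent.Lib.MP_764a00_al.P.M0
import Pool.Agent.Lib.MP_764a00_al.P.C0
import Pool.Agent.Lib.MP_764a00_al.P.A
import Pool.Agent.Lib.MP_764a00_al.P.G1
import Pool.Agent.Lib.MP_764a00_al.P.G2
import Pool.Agent.Lib.MP_764a00_al.P.G3
import Pool.Agent.Lib.MP_764a00_al.P.GF
import Pool.Agent.Lib.MP_764a00_al.P.W1
import Pool.Agent.Lib.MP_764a00_al.P.W2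
import Pool.Agent.Lib.MP_764a00_al.P.W3
import Pool.Agent.Lib.MP_764a00_al.P.W4
import Pool.Agent.Lib.MP_764a00_al.P.W5
import Pool.Agent.Lib.MP_764a00_al.P.W7
import Pool.Agent.Lib.MP_764a00_al.P.W6
import Pool.Agent.Lib.MP_764a00_al.P.B

/-!
# MP_764a00_al : assembly of the pieces
-/

namespace Pool.Agent.CN

theorem t_U1 : S_U1 := p_U1

theorem t_U3 : S_U3 := p_U3

theorem t_U4 : S_U4 := p_U4 t_U3

theorem t_TR : S_TR := p_TR t_U1 t_U3 t_U4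

theorem t_MG : S_MG := p_MG t_TR

theorem t_PT : S_PT := p_PT t_U1 t_U3 t_MG

theorem t_DS : S_DS := p_DS t_TR

theorem t_LG0 : S_LG0 := p_LG0 t_PT t_DS

theorem t_QS : S_QS := p_QS t_U3

theorem t_BS : S_BS := p_BS t_U3 t_QS

theorem t_DI : S_DI := p_DI t_U3

theorem t_C1 : S_C1 := p_C1

theorem t_C2 : S_C2 := p_C2

theorem t_C3 : S_C3 := p_C3

theorem t_RAM : S_RAM := p_RAM

theorem t_ER3 : S_ER3 := p_ER3 t_RAM

theorem t_ER5 : S_ER5 := p_ER5 t_ER3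

theorem t_SL : S_SL := p_SL t_QS t_BS t_LG0 t_U3 t_C1 t_C2 t_C3 t_ER5

theorem t_LL : S_LL := p_LL t_SL t_QS t_BS

theorem t_B0 : S_B0 := p_B0 t_LL

theorem t_BO : S_BO := p_BO t_DI t_QS

theorem t_BN : S_BN := p_BN t_DI t_BS t_U3

theorem t_BI : S_BI := p_BI t_BS

theorem t_R1 : S_R1 := p_R1 t_TR

theorem t_R2 : S_R2 := p_R2 t_R1

theorem t_R3 : S_R3 := p_R3

theorem t_R4 : S_R4 := p_R4 t_R2 t_R3

theorem t_R5 : S_R5 := p_R5 t_R4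

theorem t_R6 : S_R6 := p_R6

theorem t_RG : S_RG := p_RG t_R5 t_R6

theorem t_MU : S_MU := p_MU

theorem t_GA : S_GA := p_GA

theorem t_SE : S_SE := p_SE t_MU t_GA t_RG t_B0 t_BO t_BN t_BI

theorem t_K0 : S_K0 := p_K0

theorem t_K1 : S_K1 := p_K1 t_PT t_U3

theorem t_K2 : S_K2 := p_K2 t_TR

theorem t_K3 : S_K3 := p_K3 t_TR

theorem t_FC : S_FC := p_FC t_TR

theorem t_KC : S_KC := p_KC t_FC

theorem t_KT : S_KT := p_KT t_ER3 t_K0 t_K1 t_K2 t_K3 t_KC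

theorem t_LB : S_LB := p_LB

theorem t_SQ : S_SQ := p_SQ

theorem t_DT : S_DT := p_DT

theorem t_CL : S_CL := p_CL

theorem t_AR : S_AR := p_AR

theorem t_CN : S_CN := p_CN

theorem t_M0 : S_M0 := p_M0

theorem t_C0 : S_C0 := p_C0

theorem t_A : S_A := p_A t_LB t_SQ t_CL t_AR t_CN t_M0 t_C0 t_SE t_KT

theorem t_G1 : S_G1 := p_G1 t_DT t_LB

theorem t_G2 : S_G2 := p_G2 t_G1 t_LB

theorem t_G3 : S_G3 := p_G3

theorem t_GF : S_GF := p_GF t_G2 t_G3 t_SE t_KT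

end Pool.Agent.CN

namespace Pool.Agent.CNW

open Pool.Agent.CN

theorem t_W1 : S_W1 := p_W1

theorem t_W2 : S_W2 := p_W2

theorem t_W3 : S_W3 := p_W3 t_W1

theorem t_W4 : S_W4 := p_W4 t_W1

theorem t_W5 : S_W5 := p_W5 t_W1

theorem t_W7 : S_W7 := p_W7

theorem t_W6 : S_W6 := p_W6 t_W2 t_W7

theorem t_B : S_B := p_B t_W1 t_W2 t_W3 t_W4 t_W5 t_W6 t_W7 t_M0 t_C0 t_GF

end Pool.Agent.CNW
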