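import Pool.Agent.Lib.MP_764a00_al.MainOne

set_option autoImplicit false

namespace Pool.MP_764a00_al.Arch

open Classical Cardinal

variable {H : Type} [AddCommGroup H]

theorem main_one_b (hH : ∀ g : H, ∀ n : ℕ, n ≠ 0 → n • g = 0 → g = 0)
    (ι : Type) (hι : Nonempty (H ↪ ι)) (G : AddSubgroup (ι →₀ H)) : ArchLO (G × (ι →₀ H)) := by
  rcases subsingleton_or_nontrivial H with hs | hn
  · have hs2 : Subsingleton (ι →₀ H) := ⟨fun a b => Finsupp.ext fun i => Subsingleton.elim _ _⟩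
    exact ArchLO.subsingleton
  have hinf := infinite_of_torsionFree hH
  obtain ⟨j⟩ := hι
  have hιinf : Infinite ι := Infinite.of_injective j j.injective
  have hcard : #H ≤ #ι := ⟨j⟩
  have hX : ∀ g : ι →₀ H, ∀ n : ℕ, n ≠ 0 → n • g = 0 → g = 0 := by
    intro g n hn h
    ext i
    have h1 := DFunLike.congr_fun h i
    exact hH (g i) n hn (by simpa using h1)
  have hXcard : #(ι →₀ H) ≤ #ι := by
    rw [mk_finsupp_of_infinite]
    exact max_le le_rfl hcard
  obtain ⟨k⟩ := hXcard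
  have h := main_one hX G ι ⟨k⟩
  obtain ⟨eι⟩ : Nonempty ((ι × ι) ≃ ι) := by
    rw [← Cardinal.eq, mk_prod]
    simp only [lift_id]
    exact mul_eq_self (aleph0_le_mk ι)
  refine ArchLO.of_equiv ?_ h
  exact AddEquiv.prodCongr (AddEquiv.refl _)
    ((Finsupp.curryAddEquiv (α := ι) (β := ι) (M := H)).symm.trans (Finsupp.domCongr eι))

end Pool.MP_764a00_al.Arch
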