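import Pool.Agent.Lib.MP_764a00_al.Homog2

set_option autoImplicit false

namespace Pool.MP_764a00_al.Arch

open Classical Cardinal

section Abstract

variable {W : Type} [AddCommGroup W] [Module ℚ W] (R : AddSubgroup ℚ) (A : AddSubgroup W)

theorem card_DepG_le [Infinite W] : #(DepG (⊤ : AddSubgroup W)) ≤ #W := by
  obtain ⟨B, hB, hBne, ⟨e⟩⟩ := DepG_equiv (⊤ : AddSubgroup W)
  rw [mk_congr e.toEquiv]
  have hinf : Infinite (⊤ : AddSubgroup W) :=
    Infinite.of_injective _ (AddSubgroup.topEquiv (G := W)).symm.injective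
  rw [mk_finsupp_of_infinite']
  have h1 : #(⊤ : AddSubgroup W) = #W := mk_congr AddSubgroup.topEquiv.toEquiv
  rw [h1]
  exact max_le hB le_rfl

theorem main_two_abstract [Infinite W] (G : AddSubgroup W) (hGA : G ≤ A) (h1R : (1 : ℚ) ∈ R)
    (hfull : ∀ w : W, w ≠ 0 → ∃ g : W, g ≠ 0 ∧ w ∈ Submodule.span ℚ {g} ∧
      ∀ q : ℚ, q • g ∈ A ↔ q ∈ R) (ι : Type) [Infinite ι] (hι : #W ≤ #ι) :
    ArchLO (G × (ι →₀ R)) := by
  obtain ⟨P₀⟩ := Ord.exists_ord W
  obtain ⟨B, hB, ⟨eF⟩⟩ := PL0_equiv R A P₀ h1R hfull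
  have hcard : #B ≤ #ι := hB.trans (card_DepG_le.trans hι)
  let E : AddSubgroup (Ord W → W) :=
    { carrier := {f | f ∈ PL A ∧ f P₀ ∈ G}
      zero_mem' := ⟨(PL A).zero_mem, G.zero_mem⟩
      add_mem' := by
        rintro f g ⟨h1, h2⟩ ⟨h3, h4⟩
        exact ⟨(PL A).add_mem h1 h3, G.add_mem h2 h4⟩
      neg_mem' := by
        rintro f ⟨h1, h2⟩
        exact ⟨(PL A).neg_mem h1, G.neg_mem h2⟩ }
  have hE : ArchLO E := by
    apply archLO_subgroup
    · rintro f ⟨h1, h2⟩ g ⟨h3, h4⟩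
      refine ⟨fsup_mem_PL A h1 h3, ?_⟩
      unfold fsup
      split_ifs
      · exact h4
      · exact h2
    · intro f hf g hg h
      exact arch_of_dep hf.1.1.1.choose_spec hg.1.1.1.choose_spec h
  obtain ⟨eE⟩ := split_at P₀ G E (PL0 A P₀)
    (fun a ha => ⟨⟨⟨⟨∅, fun _ _ _ => rfl⟩, fun _ => hGA ha⟩, fun N P => by
      rw [sub_self]; exact N.zero_mem⟩, ha⟩) (fun f hf => hf.2)
    (fun f => ⟨fun h => ⟨⟨h.1, by rw [h.2]; exact G.zero_mem⟩, h.2⟩, fun h => ⟨h.1.1, h.2⟩⟩)
  obtain ⟨a⟩ := absorb_finsupp (ι := ι) hcard R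
  have hEX : ArchLO (E × (ι →₀ R)) := hE.prod (archLO_rational R).finsupp
  refine ArchLO.of_equiv ?_ hEX
  exact ((AddEquiv.prodCongr (eE.trans (AddEquiv.prodCongr (AddEquiv.refl _) eF))
    (AddEquiv.refl _)).trans AddEquiv.prodAssoc).trans
    (AddEquiv.prodCongr (AddEquiv.refl _) a)

end Abstract

section Concrete

variable {A : Type} [AddCommGroup A]

theorem main_two (R : AddSubgroup ℚ)
    (hA : ∀ g : A, ∀ n : ℕ, n ≠ 0 → n • g = 0 → g = 0)
    (hhom : ∀ a : A, a ≠ 0 → ∃ φ : R →+ A, Function.Injective φ ∧ a ∈ φ.range ∧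
      ∀ (n : ℕ) (x : A), n ≠ 0 → n • x ∈ φ.range → x ∈ φ.range)
    (G : AddSubgroup A) (ι : Type) (hι : Nonempty (A ↪ ι)) : ArchLO (G × (ι →₀ R)) := by
  rcases subsingleton_or_nontrivial A with hs | hn
  · have h := (archLO_rational R).finsupp (ι := ι)
    refine ArchLO.of_equiv ?_ h
    exact
      { toFun := fun x => (0, x)
        invFun := fun x => x.2
        left_inv := fun x => rfl
        right_inv := fun x => Prod.ext (Subsingleton.elim _ _) rfl
        map_add' := fun x y => Prod.ext (by simp) rfl }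
  have htf := torsionFree_inst hA
  have hinf := infinite_of_torsionFree hA
  obtain ⟨j⟩ := hι
  have hιinf : Infinite ι := Infinite.of_injective j j.injective
  have hcard : #A ≤ #ι := ⟨j⟩
  let e : A →+ DivisibleHull A := DivisibleHull.coeAddMonoidHom A
  have he : Function.Injective e := DivisibleHull.coe_injective
  have hWinf : Infinite (DivisibleHull A) := Infinite.of_injective e he
  -- a nonzero element of R
  obtain ⟨r₀, hr₀R, hr₀⟩ : ∃ r₀ : ℚ, r₀ ∈ R ∧ r₀ ≠ 0 := by
    obtain ⟨a, ha⟩ := exists_ne (0 : A)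
    obtain ⟨φ, _, ⟨s, hs⟩, _⟩ := hhom a ha
    refine ⟨s.1, s.2, ?_⟩
    intro h
    apply ha
    rw [← hs]
    have : s = 0 := Subtype.ext h
    rw [this, map_zero]
  let R' : AddSubgroup ℚ :=
    { carrier := {q | q * r₀ ∈ R}
      zero_mem' := by
        show (0 : ℚ) * r₀ ∈ R
        rw [zero_mul]; exact R.zero_mem
      add_mem' := by
        intro a b ha hb
        show (a + b) * r₀ ∈ R
        rw [add_mul]; exact R.add_mem ha hb
      neg_mem' := by
        intro a ha
        show (-a) * r₀ ∈ R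
        rw [neg_mul]; exact R.neg_mem ha }
  have hR'1 : (1 : ℚ) ∈ R' := by
    show (1 : ℚ) * r₀ ∈ R
    rw [one_mul]; exact hr₀R
  have hfull : ∀ w : DivisibleHull A, w ≠ 0 → ∃ g : DivisibleHull A, g ≠ 0 ∧
      w ∈ Submodule.span ℚ {g} ∧ ∀ q : ℚ, q • g ∈ (⊤ : AddSubgroup A).map e ↔ q ∈ R' := by
    intro w hw
    obtain ⟨m, hm, x, hx⟩ : ∃ m : ℕ, 0 < m ∧ ∃ x : A, m • w = e x := by
      induction w using DivisibleHull.ind with
      | mk num den =>
        refine ⟨den, den.pos, num, ?_⟩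
        show (den : ℕ) • DivisibleHull.mk num den = DivisibleHull.mk num 1
        rw [DivisibleHull.nsmul_mk, DivisibleHull.mk_eq_mk_iff_smul_eq_smul]
        simp
    have hx0 : x ≠ 0 := by
      rintro rfl
      rw [map_zero] at hx
      apply hw
      have h1 : (m : ℚ) • w = 0 := by rw [Nat.cast_smul_eq_nsmul]; exact hx
      rcases smul_eq_zero.1 h1 with h | h
      · exact absurd (by exact_mod_cast h) hm.ne'
      · exact h
    obtain ⟨φ, hφ, ⟨s, hs⟩, hpure⟩ := hhom x hx0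
    set g : DivisibleHull A := e (φ ⟨r₀, hr₀R⟩) with hg
    -- values of φ on rational multiples
    have hval : ∀ (q : ℚ) (hq : q * r₀ ∈ R), e (φ ⟨q * r₀, hq⟩) = q • g := by
      intro q hq
      have h1 : q.den • (⟨q * r₀, hq⟩ : R) = q.num • (⟨r₀, hr₀R⟩ : R) := by
        apply Subtype.ext
        have h2 : q * (q.den : ℚ) = q.num := Rat.mul_den_eq_num q
        show q.den • (q * r₀) = q.num • r₀
        rw [nsmul_eq_mul, zsmul_eq_mul, ← h2]; ring
      have h3 : (q.den : ℚ) • e (φ ⟨q * r₀, hq⟩) = (q.num : ℚ) • g := by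
        rw [Nat.cast_smul_eq_nsmul, Int.cast_smul_eq_zsmul, hg, ← map_nsmul, ← map_nsmul, h1,
          map_zsmul, map_zsmul]
      have hden : (q.den : ℚ) ≠ 0 := by exact_mod_cast q.den_nz
      have h4 : e (φ ⟨q * r₀, hq⟩) = ((q.den : ℚ))⁻¹ • ((q.num : ℚ) • g) := by
        rw [← h3, smul_smul, inv_mul_cancel₀ hden, one_smul]
      rw [h4, smul_smul]
      congr 1
      have h2 : q * (q.den : ℚ) = q.num := Rat.mul_den_eq_num q
      rw [← h2]; field_simp
    have hmemR : ∀ r : R, e (φ r) = (r.1 / r₀) • g := by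
      intro r
      have hq : (r.1 / r₀) * r₀ ∈ R := by
        rw [div_mul_cancel₀ _ hr₀]; exact r.2
      rw [← hval _ hq]
      congr 2
      apply Subtype.ext
      show r.1 = (r.1 / r₀) * r₀
      rw [div_mul_cancel₀ _ hr₀]
    have hg0 : g ≠ 0 := by
      intro h
      have h1 : φ ⟨r₀, hr₀R⟩ = 0 := he (by rw [map_zero]; exact h)
      have h2 : (⟨r₀, hr₀R⟩ : R) = 0 := hφ (by rw [h1, map_zero])
      exact hr₀ (congrArg (fun y : R => y.1) h2)
    refine ⟨g, hg0, ?_, fun q => ⟨?_, ?_⟩⟩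
    · refine Submodule.mem_span_singleton.2 ⟨((m : ℚ))⁻¹ * (s.1 / r₀), ?_⟩
      have hmQ : (m : ℚ) ≠ 0 := by exact_mod_cast hm.ne'
      rw [mul_smul, ← hmemR s, hs, ← hx, ← Nat.cast_smul_eq_nsmul ℚ m, smul_smul,
        inv_mul_cancel₀ hmQ, one_smul]
    · rintro ⟨y, _, hy⟩
      have hden : (q.den : ℚ) ≠ 0 := by exact_mod_cast q.den_nz
      have h1 : q.den • y = q.num • φ ⟨r₀, hr₀R⟩ := by
        apply he
        rw [map_nsmul, map_zsmul, ← Nat.cast_smul_eq_nsmul ℚ, ← Int.cast_smul_eq_zsmul ℚ, hy,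
          smul_smul, ← hg]
        congr 1
        rw [mul_comm]; exact Rat.mul_den_eq_num q
      have h2 : y ∈ φ.range := by
        apply hpure q.den y q.den_nz
        rw [h1, ← map_zsmul]
        exact ⟨_, rfl⟩
      obtain ⟨t, ht⟩ := h2
      have h3 : q.den • t = q.num • (⟨r₀, hr₀R⟩ : R) := by
        apply hφ
        rw [map_nsmul, map_zsmul, ht, h1]
      have h4 : (q.den : ℚ) * t.1 = q.num * r₀ := by
        have := congrArg (fun y : R => y.1) h3
        simpa using this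
      show q * r₀ ∈ R
      have h5 : q * r₀ = t.1 := by
        have h6 : q * (q.den : ℚ) = q.num := Rat.mul_den_eq_num q
        rw [← h6] at h4
        have : (q.den : ℚ) * t.1 = q.den * (q * r₀) := by rw [h4]; ring
        exact (mul_left_cancel₀ hden this).symm
      rw [h5]; exact t.2
    · intro hq
      exact ⟨φ ⟨q * r₀, hq⟩, trivial, hval q hq⟩
  have h := main_two_abstract R' ((⊤ : AddSubgroup A).map e) (G.map e)
    (AddSubgroup.map_mono le_top) hR'1 hfull ι (card_hull.trans hcard)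
  refine ArchLO.of_equiv ?_ h
  have e1 : G ≃+ G.map e := G.equivMapOfInjective e he
  have e2 : R' ≃+ R :=
    { toFun := fun q => ⟨q.1 * r₀, q.2⟩
      invFun := fun r => ⟨r.1 / r₀, by
        show (r.1 / r₀) * r₀ ∈ R
        rw [div_mul_cancel₀ _ hr₀]; exact r.2⟩
      left_inv := by
        intro q
        apply Subtype.ext
        show q.1 * r₀ / r₀ = q.1
        rw [mul_div_cancel_right₀ _ hr₀]
      right_inv := by
        intro r
        apply Subtype.ext
        show r.1 / r₀ * r₀ = r.1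
        rw [div_mul_cancel₀ _ hr₀]
      map_add' := by
        intro a b
        apply Subtype.ext
        show (a.1 + b.1) * r₀ = a.1 * r₀ + b.1 * r₀
        rw [add_mul] }
  exact AddEquiv.prodCongr e1.symm (Finsupp.mapRange.addEquiv e2)

end Concrete

end Pool.MP_764a00_al.Arch
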