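import Pool.Agent.Lib.MP_764a00_al.Defs

/-!
# MP_764a00_al : the statements of the pieces

Each piece is a proposition `S_...`. The proofs are in the files `P/...`.
-/

namespace Pool.Agent.CN

open Cardinal

/-! ### maximal filters -/

/-- existence of maximal filters -/
def S_U1 : Prop := ∀ (N : Type) [AddCommGroup N] [Lattice N] [IsOrderedAddMonoid N] (S : Set N),
  S.Nonempty → (∀ a ∈ S, 0 ≤ a) →
  (∀ (T : Finset N) (hT : T.Nonempty), (T : Set N) ⊆ S → T.inf' hT id ≠ 0) →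
  ∃ F : Ultra N, S ⊆ F.F

/-- the complement of a maximal filter gives a prime ideal -/
def S_U3 : Prop := ∀ (N : Type) [AddCommGroup N] [Lattice N] [IsOrderedAddMonoid N] (F : Ultra N),
  (∀ a b : N, |a| ∉ F.F → |b| ∉ F.F → |a + b| ∉ F.F) ∧
  (∀ a b : N, |a| ≤ |b| → |b| ∉ F.F → |a| ∉ F.F) ∧
  (∀ a b : N, |a| ⊓ |b| = 0 → |a| ∉ F.F ∨ |b| ∉ F.F) ∧
  (∀ a : N, |a⁺| ∉ F.F ∨ |a⁻| ∉ F.F) ∧
  (∀ (n : ℤ) (a : N), n ≠ 0 → |n • a| ∉ F.F → |a| ∉ F.F)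

/-- the quotient by the prime ideal is totally ordered -/
def S_U4 : Prop := ∀ (N : Type) [AddCommGroup N] [Lattice N] [IsOrderedAddMonoid N] (F : Ultra N),
  ∃ (Λ : Type) (_ : AddCommGroup Λ) (_ : LinearOrder Λ) (_ : IsOrderedAddMonoid Λ) (π : N →+ Λ),
    (∀ x y, π (x ⊔ y) = π x ⊔ π y) ∧ (∀ x y, π (x ⊓ y) = π x ⊓ π y) ∧
    ∀ a, π a = 0 ↔ |a| ∉ F.F

/-- inequalities may be checked in totally ordered groups -/
def S_TR : Prop := ∀ (N : Type) [AddCommGroup N] [Lattice N] [IsOrderedAddMonoid N] (a b : N),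
  (∀ (Λ : Type) [AddCommGroup Λ] [LinearOrder Λ] [IsOrderedAddMonoid Λ] (π : N →+ Λ),
    (∀ x y, π (x ⊔ y) = π x ⊔ π y) → (∀ x y, π (x ⊓ y) = π x ⊓ π y) → π a ≤ π b) → a ≤ b

/-! ### patching -/

/-- merging two approximations of `u / 5^K` -/
def S_MG : Prop := ∀ (N : Type) [AddCommGroup N] [Lattice N] [IsOrderedAddMonoid N] (K : ℕ)
  (u e₁ e₂ : N), ∃ e : N, |(5 : ℤ) ^ K • e - u| ≤
    ((5 : ℤ) ^ K + 1) • (|(5 : ℤ) ^ K • e₁ - u| ⊓ |(5 : ℤ) ^ K • e₂ - u|)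

/-- patching on the region of `w` -/
def S_PT : Prop := ∀ (M : Type) [AddCommGroup M] (L : LG M), Amb M → L.Pure → L.Dense →
  ∀ (w : L.N) (g : M) (K : ℕ), 0 ≤ w → (∀ F : Ultra L.N, w ∈ F.F → g ∈ cq L F K) →
  ∃ r : L.N, |r| ⊓ w = 0 ∧ g - r ∈ dv M K

/-- splitting of disjoint sums -/
def S_DS : Prop := ∀ (N : Type) [AddCommGroup N] [Lattice N] [IsOrderedAddMonoid N] (u r : N)
  (K : ℕ), |u| ⊓ |r| = 0 → (∃ e : N, u - r = (5 : ℤ) ^ K • e) → ∃ e : N, u = (5 : ℤ) ^ K • e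

/-- local-global principle -/
def S_LG0 : Prop := ∀ (M : Type) [AddCommGroup M] (L : LG M), Amb M → L.Pure → L.Dense →
  ∀ (z : M) (K : ℕ), (∀ F : Ultra L.N, z ∈ cq L F K) → z ∈ dv M K

/-- `cq` is a subgroup -/
def S_QS : Prop := ∀ (M : Type) [AddCommGroup M] (L : LG M), Amb M → L.Pure →
  ∀ (F : Ultra L.N) (K : ℕ), ∃ A : AddSubgroup M, (A : Set M) = cq L F K ∧ dv M K ≤ A ∧
    (∀ q : L.N, |q| ∉ F.F → (q : M) ∈ A) ∧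
    ∀ (c : ℤ) (z : M), ¬ (5 : ℤ) ∣ c → c • z ∈ A → z ∈ A

/-- `cb` is an isolated subgroup -/
def S_BS : Prop := ∀ (M : Type) [AddCommGroup M] (L : LG M), Amb M → L.Pure →
  ∀ F : Ultra L.N, ∃ A : AddSubgroup M, (A : Set M) = cb L F ∧
    (∀ q : L.N, |q| ∉ F.F → (q : M) ∈ A) ∧
    ∀ (n : ℤ) (z : M), n ≠ 0 → n • z ∈ A → z ∈ A

/-- the possible positive parts of `x` are locally `0` or `x` -/
def S_DI : Prop := ∀ (M : Type) [AddCommGroup M] (L : LG M), Amb M → L.Pure →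
  ∀ x y : M, y ∈ L.T x → ∀ F : Ultra L.N,
    (∀ K, y ∈ cq L F K ∨ y - x ∈ cq L F K) ∧ (y ∈ cb L F ∨ y - x ∈ cb L F)

/-! ### five elements -/

/-- the digits -/
def tri {M : Type} [AddCommGroup M] (x y z : M) : M := x - (3 : ℤ) • y + (2 : ℤ) • z

def S_C1 : Prop := ∀ (M : Type) [AddCommGroup M] (A : AddSubgroup M),
  (∀ (n : ℤ) (z : M), n ≠ 0 → n • z ∈ A → z ∈ A) →
  ∀ (b : Fin 5 → M) (e e' : M) (r r' : ℤ), r ≠ 0 → r' ≠ 0 →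
  (∀ i j k : Fin 5, i < j → j < k →
    e + r • tri (b i) (b j) (b k) ∈ A ∨ e' + r' • tri (b i) (b j) (b k) ∈ A) →
  b 1 - b 2 ∈ A

def S_C2 : Prop := ∀ (M : Type) [AddCommGroup M] (A : AddSubgroup M),
  (∀ (n : ℤ) (z : M), n ≠ 0 → n • z ∈ A → z ∈ A) →
  ∀ (b : Fin 5 → M) (e : M) (r : ℤ), r ≠ 0 →
  (∀ i j k : Fin 5, i < j → j < k → e + r • tri (b i) (b j) (b k) ∈ A) → e ∈ A

def S_C3 : Prop := ∀ (M : Type) [AddCommGroup M] (A : AddSubgroup M),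
  (∀ (c : ℤ) (z : M), ¬ (5 : ℤ) ∣ c → c • z ∈ A → z ∈ A) →
  ∀ (b : Fin 5 → M) (e e' : M) (m : ℤ),
  (∀ i j k : Fin 5, i < j → j < k →
    e + m • tri (b i) (b j) (b k) ∈ A ∨ e' + m • tri (b i) (b j) (b k) ∈ A) →
  m • (b 1 - b 2) ∈ A

/-! ### partition theorems -/

/-- end-homogeneous sequences -/
def S_RAM : Prop := ∀ (C : Type) (κ : Cardinal.{0}), ℵ₀ ≤ κ → #C ≤ 2 ^ κ →
  ∀ c : List Ordinal.{0} → Ordinal.{0} → C,
  ∃ f : Ordinal.{0} → Ordinal.{0},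
    (∀ β < (Order.succ κ).ord, f β < (Order.succ (2 ^ κ : Cardinal.{0})).ord) ∧
    (∀ α β, α < β → β < (Order.succ κ).ord → f α < f β) ∧
    ∀ (l : List Ordinal.{0}) (β γ : Ordinal.{0}), (∀ α ∈ l, α < β) → β ≤ γ →
      γ < (Order.succ κ).ord → c (l.map f) (f β) = c (l.map f) (f γ)

/-- the partition theorem of Erdős and Rado for triples -/
def S_ER3 : Prop := ∀ (C : Type) (μ : Cardinal.{0}), ℵ₀ ≤ μ → #C ≤ μ →
  ∀ c : Ordinal.{0} → Ordinal.{0} → Ordinal.{0} → C,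
  ∃ (f : Ordinal.{0} → Ordinal.{0}) (col : C),
    (∀ β < (Order.succ μ).ord, f β < (Order.succ (2 ^ (2 ^ μ : Cardinal.{0}) : Cardinal.{0})).ord) ∧
    (∀ α β, α < β → β < (Order.succ μ).ord → f α < f β) ∧
    ∀ α β γ, α < β → β < γ → γ < (Order.succ μ).ord → c (f α) (f β) (f γ) = col

/-- homogeneous sets with five elements -/
def S_ER5 : Prop := ∀ (X W : Type) (μ : Cardinal.{0}), ℵ₀ ≤ μ → #W ≤ μ →
  (2 ^ (2 ^ μ : Cardinal.{0}) : Cardinal.{0}) < #X →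
  ∀ c : X → X → X → W, ∃ (b : Fin 5 → X) (col : W), Function.Injective b ∧
    ∀ i j k : Fin 5, i < j → j < k → c (b i) (b j) (b k) = col

/-! ### choice of the digits -/

section

variable {M : Type} [AddCommGroup M]

/-- `a` is independent of the elements of `Γ` -/
def Sel (L : LG M) (X Γ : Set M) (TT : Set (LG M)) (a : M) : Prop :=
  (∀ L' ∈ TT, ∀ e ∈ Γ, ∀ e' ∈ Γ, ∀ (s : ℕ) (c : ℤ), ¬ (5 : ℤ) ∣ c →
    ∃ F : Ultra L'.N, e + ((5 : ℤ) ^ s * c) • a ∉ cq L' F (s + 1) ∧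
      e' + ((5 : ℤ) ^ s * c) • a ∉ cq L' F (s + 1)) ∧
  (∀ e ∈ Γ, ∀ e' ∈ Γ, ∀ r r' : ℤ, r ≠ 0 → r' ≠ 0 →
    ∃ F : Ultra L.N, On L X F ∧ e + r • a ∉ cb L F ∧ e' + r' • a ∉ cb L F) ∧
  (∀ e ∈ Γ, ∀ e' ∈ Γ, ∀ r : ℤ, r ≠ 0 →
    (∃ F : Ultra L.N, On L X F ∧ e ∉ cb L F ∧ e' ∉ cb L F) →
    ∃ F : Ultra L.N, On L X F ∧ e + r • a ∉ cb L F ∧ e' ∉ cb L F)

/-- integral linear combinations -/
def lc {I : Type} (k : I →₀ ℤ) (a : I → M) : M := k.sum fun l c => c • a l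

/-- the digits of one level -/
structure Lev (L : LG M) (X Γ : Set M) (TT : Set (LG M)) {I : Type} (h : M) (a : I → M) :
    Prop where
  hX : h ∈ AddSubgroup.closure X
  aX : ∀ l, a l ∈ AddSubgroup.closure X
  old : ∀ L' ∈ TT, ∀ e ∈ Γ, ∀ e' ∈ Γ, ∀ (s : ℕ) (q : ℤ) (k : I →₀ ℤ), (∃ l, ¬ (5 : ℤ) ∣ k l) →
    ∃ F : Ultra L'.N, e + (5 : ℤ) ^ s • (q • h + lc k a) ∉ cq L' F (s + 1) ∧
      e' + (5 : ℤ) ^ s • (q • h + lc k a) ∉ cq L' F (s + 1)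
  new : ∀ g ∈ Γ, ∀ (q : ℤ) (k k' : I →₀ ℤ), (∀ F : Ultra L.N, On L X F →
      g + q • h + lc k a ∈ cb L F ∨ g + q • h + lc k' a ∈ cb L F) →
    (∀ l, k l = 0 ∨ k' l = 0) ∧ q = 0 ∧ Sm L X g

end

def S_SL : Prop := ∀ (M : Type) [AddCommGroup M] (L : LG M) (X : Set M) (μ : Cardinal.{0})
  (Γ : Set M) (TT : Set (LG M)), Amb M → L.Pure → L.Dense → X ⊆ L.N → Dist5 X → ℵ₀ ≤ μ →
  (2 ^ (2 ^ μ : Cardinal.{0}) : Cardinal.{0}) < #X → #Γ ≤ μ → #TT ≤ μ →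
  (∀ L' ∈ TT, L'.Pure ∧ L'.Dense) →
  ∃ b ∈ X, ∃ b' ∈ X, ∃ b'' ∈ X, Sel L X Γ TT (tri b b' b'')

def S_LL : Prop := ∀ (M : Type) [AddCommGroup M] (L : LG M) (X : Set M) (μ : Cardinal.{0})
  (Γ : Set M) (TT : Set (LG M)) (I : Type) [LinearOrder I] [WellFoundedLT I], Amb M → L.Pure →
  L.Dense → X ⊆ L.N → Dist5 X → ℵ₀ ≤ μ → (2 ^ (2 ^ μ : Cardinal.{0}) : Cardinal.{0}) < #X →
  #Γ ≤ μ → #TT ≤ μ → (∀ L' ∈ TT, L'.Pure ∧ L'.Dense) → #I ≤ μ →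
  ∃ (h : M) (a : I → M), Lev L X Γ TT h a

/-! ### the batch -/

section

variable {M : Type} [AddCommGroup M]

/-- the old elements at level `n` -/
def low {I : Type} (Γ : ℕ → Set M) (h : ℕ → M) (a : ℕ → I → M) (n : ℕ) : AddSubgroup M :=
  AddSubgroup.closure (Γ n ∪ {z | ∃ i < n, z = h i ∨ ∃ l, z = a i l})

/-- the limits of the digits -/
def Lim {I : Type} (h : ℕ → M) (a : ℕ → I → M) (x : I → M) : Prop :=
  ∀ l K, x l - ∑ n ∈ Finset.range K, (5 : ℤ) ^ n • (h n + a n l) ∈ dv M K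

/-- the pure subgroup generated by `H` and the batch -/
def gen {I : Type} (H : AddSubgroup M) (x : I → M) : Set M :=
  {y | ∃ m : ℕ, (5 : ℤ) ^ m • y ∈ H ⊔ AddSubgroup.closure (Set.range x)}

/-- a vector with sum zero without proper parts with sum zero -/
def Zs {I : Type} (t : I →₀ ℤ) : Prop :=
  (t.sum fun _ c => c) = 0 ∧ ∀ S ⊆ t.support, ∑ l ∈ S, t l = 0 → S = ∅ ∨ S = t.support

end

/-- construction of the batch -/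
def S_B0 : Prop := ∀ (M : Type) [AddCommGroup M] (L : LG M) (X : ℕ → Set M)
  (μ : ℕ → Cardinal.{0}) (Γ : ℕ → Set M) (TT : ℕ → Set (LG M × M)) (I : Type) [LinearOrder I]
  [WellFoundedLT I], Amb M → L.Pure → L.Dense → (∀ n, X n ⊆ L.N) → (∀ n, Dist5 (X n)) →
  (∀ n, ℵ₀ ≤ μ n) → Monotone μ → (∀ n, (2 ^ (2 ^ μ n : Cardinal.{0}) : Cardinal.{0}) < #(X n)) →
  (∀ n, #(Γ n) ≤ μ n) → (∀ n, #(TT n) ≤ μ n) → (∀ n, ∀ t ∈ TT n, t.1.Pure ∧ t.1.Dense) →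
  #I ≤ μ 0 → ∃ (h : ℕ → M) (a : ℕ → I → M) (x : I → M), Lim h a x ∧
    ∀ n, Lev L (X n) (low Γ h a n) (Prod.fst '' TT n) (h n) (a n)

/-- the old outcomes are omitted -/
def S_BO : Prop := ∀ (M : Type) [AddCommGroup M] (L : LG M) (X : ℕ → Set M)
  (H : AddSubgroup M) (Γ : ℕ → Set M) (TT : ℕ → Set (LG M × M)) (I : Type) (h : ℕ → M)
  (a : ℕ → I → M) (x : I → M), Amb M → (∀ z : M, (5 : ℤ) • z ∈ H → z ∈ H) → Monotone Γ →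
  (⋃ n, Γ n) = H → Monotone TT → (∀ n, ∀ t ∈ TT n, t.1.Pure ∧ t.1.Dense ∧ t.2 ∈ H) →
  Lim h a x → (∀ n, Lev L (X n) (low Γ h a n) (Prod.fst '' TT n) (h n) (a n)) →
  ∀ n, ∀ t ∈ TT n, ∀ y ∈ gen H x, y ∈ t.1.T t.2 → y ∈ H

/-- the outcomes for the combinations of the batch -/
def S_BN : Prop := ∀ (M : Type) [AddCommGroup M] (L : LG M) (X : ℕ → Set M)
  (H : AddSubgroup M) (Γ : ℕ → Set M) (TT : ℕ → Set (LG M × M)) (I : Type) (h : ℕ → M)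
  (a : ℕ → I → M) (x : I → M), Amb M → L.Pure → (∀ n, X n ⊆ L.N) → Orth L X →
  (∀ z : M, (5 : ℤ) • z ∈ H → z ∈ H) → Monotone Γ → (⋃ n, Γ n) = H → Lim h a x →
  (∀ n, Lev L (X n) (low Γ h a n) (Prod.fst '' TT n) (h n) (a n)) →
  ∀ t : I →₀ ℤ, Zs t → ∀ y ∈ gen H x, y ∈ L.T (lc t x) →
    (y ∈ H ∧ ∃ n₀, ∀ n ≥ n₀, Sm L (X n) y) ∨
    (y - lc t x ∈ H ∧ ∃ n₀, ∀ n ≥ n₀, Sm L (X n) (y - lc t x))

/-- the digits are different -/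
def S_BI : Prop := ∀ (M : Type) [AddCommGroup M] (L : LG M) (X Γ : Set M) (TT : Set (LG M))
  (I : Type) (h : M) (a : I → M), Amb M → L.Pure → (0 : M) ∈ Γ → Lev L X Γ TT h a →
  Function.Injective a

/-! ### regions -/

section

variable {N : Type} [AddCommGroup N] [Lattice N]

/-- the polar of a set -/
def perp (A : Set N) : Set N := {z | ∀ a ∈ A, |z| ⊓ |a| = 0}

/-- Archimedean -/
def Ar (N : Type) [AddCommGroup N] [Lattice N] : Prop :=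
  ∀ a b : N, (∀ n : ℕ, n • a ≤ b) → a ≤ 0

end

def S_R1 : Prop := ∀ (N : Type) [AddCommGroup N] [Lattice N] [IsOrderedAddMonoid N], Ar N →
  ∀ z u u' : N, 0 ≤ z → 0 ≤ u → 0 ≤ u' → (∀ n : ℕ, u ⊓ n • z = u' ⊓ n • z) → |u - u'| ⊓ z = 0

/-- elements modulo a polar -/
def S_R2 : Prop := ∀ (N : Type) [AddCommGroup N] [Lattice N] [IsOrderedAddMonoid N], Ar N →
  ∀ z : N, 0 ≤ z → ∃ Φ : N → (ℕ → perp (perp {z})) × (ℕ → perp (perp {z})),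
    ∀ u u', Φ u = Φ u' → u - u' ∈ perp {z}

/-- totally ordered parts are small -/
def S_R3 : Prop := ∀ (N : Type) [AddCommGroup N] [Lattice N] [IsOrderedAddMonoid N], Ar N →
  ∀ A : Set N, (∀ u ∈ perp A, ∀ v ∈ perp A, |u| ⊓ |v| = 0 → u = 0 ∨ v = 0) →
  #(perp A) ≤ 2 ^ ℵ₀

/-- splitting a large polar -/
def S_R4 : Prop := ∀ (N : Type) [AddCommGroup N] [Lattice N] [IsOrderedAddMonoid N], Ar N →
  ∀ (lam χ : Cardinal.{0}) (A : Set N), lam.IsStrongLimit → ℵ₀ < lam → χ < lam →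
  #(perp A) = lam →
  ∃ C : Set N, perp C ⊆ perp A ∧ χ ≤ #(perp C) ∧ #(perp (A ∪ perp C)) = lam

/-- a sequence of large polars -/
def S_R5 : Prop := ∀ (N : Type) [AddCommGroup N] [Lattice N] [IsOrderedAddMonoid N], Ar N →
  ∀ (lam : Cardinal.{0}) (χ : ℕ → Cardinal.{0}), lam.IsStrongLimit → ℵ₀ < lam →
  (∀ n, χ n < lam) → #N = lam →
  ∃ C : ℕ → Set N, (∀ n, χ n ≤ #(perp (C n))) ∧
    ∀ n m, n ≠ m → ∀ u ∈ perp (C n), ∀ v ∈ perp (C m), |u| ⊓ |v| = 0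

/-- elements which are different modulo 5 -/
def S_R6 : Prop := ∀ (M : Type) [AddCommGroup M], Amb M → ∀ (S : AddSubgroup M) (χ : Cardinal.{0}),
  (∀ z : M, (5 : ℤ) • z ∈ S → z ∈ S) → ℵ₀ ≤ χ → 2 ^ χ < #S →
  ∃ X : Set M, X ⊆ S ∧ Dist5 X ∧ χ < #X

def S_RG : Prop := ∀ (M : Type) [AddCommGroup M] (L : LG M) (lam : Cardinal.{0})
  (χ : ℕ → Cardinal.{0}), Amb M → L.Pure → L.Arch → lam.IsStrongLimit → ℵ₀ < lam →
  #L.N = lam → (∀ n, χ n < lam) →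
  ∃ X : ℕ → Set M, (∀ n, X n ⊆ L.N) ∧ Orth L X ∧ (∀ n, Dist5 (X n)) ∧ ∀ n, χ n < #(X n)

/-! ### conditions -/

/-- conditions -/
structure Cond (M : Type) [AddCommGroup M] (B : Set M) (lam : Cardinal.{0}) where
  H : AddSubgroup M
  pure : ∀ z : M, (5 : ℤ) • z ∈ H → z ∈ H
  base : B ⊆ H
  cardH : #H ≤ lam
  T : Set (LG M × M)
  cardT : #T ≤ lam
  good : ∀ t ∈ T, t.1.Pure ∧ t.1.Dense ∧ t.2 ∈ H

instance {M : Type} [AddCommGroup M] {B : Set M} {lam : Cardinal.{0}} :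
    Preorder (Cond M B lam) where
  le q p := p.H ≤ q.H ∧ p.T ⊆ q.T ∧ ∀ t ∈ p.T, ∀ y ∈ q.H, y ∈ t.1.T t.2 → y ∈ p.H
  le_refl p := ⟨le_rfl, le_rfl, fun _ _ _ h _ => h⟩
  le_trans r q p h₁ h₂ := ⟨h₂.1.trans h₁.1, h₂.2.1.trans h₁.2.1, fun t ht y hy hT =>
    h₂.2.2 t ht y (h₁.2.2 t (h₂.2.1 ht) y hy hT) hT⟩

section

variable {M : Type} [AddCommGroup M]

/-- the combinations of the batch which are used -/
def Typ {I : Type} (x : I → M) (z : M) : Prop :=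
  (∃ i j, i ≠ j ∧ z = x j - x i) ∨
    ∃ i j k, i ≠ j ∧ j ≠ k ∧ i ≠ k ∧ z = x i - (2 : ℤ) • x j + x k

/-- the data given by the batch -/
structure BD (L : LG M) {I : Type} (X : ℕ → Set M) (h : ℕ → M) (a : ℕ → I → M) (x : I → M) :
    Prop where
  big : (2 ^ (2 ^ ℵ₀ : Cardinal.{0}) : Cardinal.{0}) < #I
  sub : ∀ n, X n ⊆ L.N
  orth : Orth L X
  hX : ∀ n, h n ∈ AddSubgroup.closure (X n)
  aX : ∀ n l, a n l ∈ AddSubgroup.closure (X n)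
  inj : ∀ n, Function.Injective (a n)
  lim : Lim h a x

/-- `q` decides the combinations of a batch for `L` -/
def Hnd {B : Set M} {lam : Cardinal.{0}} (q : Cond M B lam) (L : LG M) : Prop :=
  ∃ (I : Type) (X : ℕ → Set M) (h : ℕ → M) (a : ℕ → I → M) (x : I → M), BD L X h a x ∧
    (∀ l, x l ∈ q.H) ∧ ∀ z : M, Typ x z → (L, z) ∈ q.T ∧ ∀ y ∈ q.H, y ∈ L.T z →
      (∃ n₀, ∀ n ≥ n₀, Sm L (X n) y) ∨ ∃ n₀, ∀ n ≥ n₀, Sm L (X n) (y - z)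

end

/-- a cofinal sequence of cardinals -/
def S_MU : Prop := ∀ (lam κ : Cardinal.{0}), lam.IsStrongLimit → lam.ord.cof = ℵ₀ → κ < lam →
  ∃ μ : ℕ → Cardinal.{0}, Monotone μ ∧ (∀ n, μ n < lam) ∧ κ ≤ μ 0 ∧ ∀ χ < lam, ∃ n, χ ≤ μ n

/-- small filtrations -/
def S_GA : Prop := ∀ (A : Type) (lam : Cardinal.{0}) (μ : ℕ → Cardinal.{0}) (S : Set A),
  lam.IsStrongLimit → Monotone μ → (∀ χ < lam, ∃ n, χ ≤ μ n) → #S ≤ lam →
  ∃ Γ : ℕ → Set A, Monotone Γ ∧ (∀ n, #(Γ n) ≤ μ n) ∧ ⋃ n, Γ n = S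

/-- the extension lemma -/
def S_SE : Prop := ∀ (M : Type) [AddCommGroup M] (B : Set M) (lam : Cardinal.{0}), Amb M →
  lam.IsStrongLimit → ℵ₀ < lam → lam.ord.cof = ℵ₀ →
  (∀ (z : M) (K : ℕ), ∃ u ∈ B, z - u ∈ dv M K) →
  ∀ (p : Cond M B lam) (L : LG M), L.N ≤ p.H → L.Pure → B ⊆ L.N → L.Arch → #L.N = lam →
  ∃ q ≤ p, Hnd q L

/-! ### the contradiction -/

/-- positive parts are possible outcomes -/
def S_K0 : Prop := ∀ (M : Type) [AddCommGroup M] (L L' : LG M), L.Dense → L.Cls L' →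
  ∀ z : L'.N, ((z⁺ : L'.N) : M) ∈ L.T z

/-- small elements are locally divisible modulo polars -/
def S_K1 : Prop := ∀ (M : Type) [AddCommGroup M] (L : LG M) (X : Set M), Amb M → L.Pure →
  L.Dense → X ⊆ L.N → ∀ g : M, Sm L X g → ∀ w : L.N, (w : M) ∈ AddSubgroup.closure X → ∀ K,
  ∃ r : L.N, |r| ⊓ |w| = 0 ∧ g - r ∈ dv M K

section

variable {N : Type} [AddCommGroup N] [Lattice N]

/-- `g` is divisible modulo the polar of `c` -/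
def Dc (c g : N) : Prop := ∀ K : ℕ, ∃ r e : N, |r| ⊓ |c| = 0 ∧ g = r + (5 : ℤ) ^ K • e

end

/-- the sign of `c + ν` is constant on the support of `c` -/
def S_K2 : Prop := ∀ (N : Type) [AddCommGroup N] [Lattice N] [IsOrderedAddMonoid N],
  (∀ z : N, (∀ K : ℕ, ∃ e : N, z = (5 : ℤ) ^ K • e) → z = 0) →
  ∀ c ν : N, Dc c ν → Dc c ((c + ν)⁻) → |c| ⊓ (c + ν)⁻ = 0

def S_K3 : Prop := ∀ (N : Type) [AddCommGroup N] [Lattice N] [IsOrderedAddMonoid N],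
  (∀ z : N, (∀ K : ℕ, ∃ e : N, z = (5 : ℤ) ^ K • e) → z = 0) →
  ∀ c x : N, Dc c (x - c) → |x| ⊓ |c| = 0 → c = 0

/-- doubling along a finite sequence -/
def S_FC : Prop := ∀ (N : Type) [AddCommGroup N] [Lattice N] [IsOrderedAddMonoid N]
  (y a : ℕ → N) (m : ℕ), 3 ≤ m →
  (∀ i j, i < j → j ≤ m → (y j - y i)⁻ ⊓ |a j - a i| = 0) →
  (∀ i j k, i < j → j < k → k ≤ m →
    (y i - (2 : ℤ) • y j + y k)⁻ ⊓ |a i - (2 : ℤ) • a j + a k| = 0) →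
  2 ^ (m - 3) • ((y 1 - y 0)⁺ ⊓ |a 1 - a 0|) ≤ |y m - y 1|

def S_KC : Prop := ∀ (N : Type) [AddCommGroup N] [Lattice N] [IsOrderedAddMonoid N], Ar N →
  ∀ y a : Ordinal.{0} → N,
  (∀ i j, i < j → j < (Order.succ ℵ₀).ord → (y j - y i)⁻ ⊓ |a j - a i| = 0) →
  ((∀ i j k, i < j → j < k → k < (Order.succ ℵ₀).ord →
    (y i - (2 : ℤ) • y j + y k)⁻ ⊓ |a i - (2 : ℤ) • a j + a k| = 0) ∨
   (∀ i j k, i < j → j < k → k < (Order.succ ℵ₀).ord →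
    (y i - (2 : ℤ) • y j + y k)⁺ ⊓ |a i - (2 : ℤ) • a j + a k| = 0)) →
  ∃ i j, i < j ∧ j < (Order.succ ℵ₀).ord ∧ |y j - y i| ⊓ |a j - a i| = 0

/-- the contradiction -/
def S_KT : Prop := ∀ (M : Type) [AddCommGroup M] (L L' : LG M) (I : Type) (X : ℕ → Set M)
  (h : ℕ → M) (a : ℕ → I → M) (x : I → M), Amb M → L.Pure → L.Dense → BD L X h a x →
  L.Sub L' → L.Cls L' → L'.Pure → L'.Arch → (∀ l, x l ∈ L'.N) →
  (∀ z : M, Typ x z → ∀ y ∈ L'.N, y ∈ L.T z →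
    (∃ n₀, ∀ n ≥ n₀, Sm L (X n) y) ∨ ∃ n₀, ∀ n ≥ n₀, Sm L (X n) (y - z)) → False

/-! ### chains of conditions -/

/-- lower bounds of chains -/
def S_LB : Prop := ∀ (M : Type) [AddCommGroup M] (B : Set M) (lam : Cardinal.{0}), ℵ₀ ≤ lam →
  ∀ (J : Type) [LinearOrder J] [Nonempty J] (f : J → Cond M B lam), #J ≤ lam → Antitone f →
  ∃ q : Cond M B lam, (∀ j, q ≤ f j) ∧ ∀ x ∈ q.H, ∃ j, x ∈ (f j).H

/-- generic sequences -/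
def S_SQ : Prop := ∀ (P : Type) [Preorder P] (lam : Cardinal.{0}), ℵ₀ ≤ lam →
  (∀ (J : Type) [LinearOrder J] [Nonempty J] (f : J → P), #J ≤ lam → Antitone f →
    ∃ q, ∀ j, q ≤ f j) →
  ∀ (p : P) (A : Type) (D : A → Set P), #A ≤ Order.succ lam → (∀ a p, ∃ q ≤ p, q ∈ D a) →
  ∃ (J : Type) (_ : LinearOrder J) (f : J → P), Nonempty J ∧ Antitone f ∧ (∀ j, f j ≤ p) ∧
    (∀ a, ∃ j, f j ∈ D a) ∧ ∀ S : Set J, #S ≤ lam → ∃ j, ∀ i ∈ S, i ≤ j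

/-- few dense open sets have a common element -/
def S_DT : Prop := ∀ (P : Type) [Preorder P] (lam : Cardinal.{0}), ℵ₀ ≤ lam →
  (∀ (J : Type) [LinearOrder J] [Nonempty J] (f : J → P), #J ≤ lam → Antitone f →
    ∃ q, ∀ j, q ≤ f j) →
  ∀ (p : P) (A : Type) (D : A → Set P), #A ≤ lam → (∀ a, ∀ q ≤ p, ∃ r ≤ q, r ∈ D a) →
  (∀ a, ∀ q ∈ D a, ∀ r ≤ q, r ∈ D a) → ∃ q ≤ p, ∀ a, q ∈ D a

/-- closing off -/
def S_CL : Prop := ∀ (M : Type) [AddCommGroup M] (B : Set M) (lam : Cardinal.{0}) (G : LG M),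
  Amb M → ℵ₀ ≤ lam → #B = lam → B ⊆ G.N → G.Pure →
  ∃ L : LG M, L.Sub G ∧ L.Cls G ∧ L.Pure ∧ B ⊆ L.N ∧ #L.N = lam

/-- sublattices of Archimedean lattice ordered groups -/
def S_AR : Prop := ∀ (M : Type) [AddCommGroup M] (L G : LG M), L.Sub G → G.Arch → L.Arch

/-- the number of small lattice ordered subgroups -/
def S_CN : Prop := ∀ (M : Type) [AddCommGroup M] (lam : Cardinal.{0}), ℵ₀ ≤ lam →
  #M ≤ 2 ^ lam → #{L : LG M // #L.N ≤ lam} ≤ 2 ^ lam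

/-- the concrete ambient group -/
def S_M0 : Prop := ∀ ι : Type, Infinite ι → ∃ (M : Type) (_ : AddCommGroup M) (B : Set M),
  Amb M ∧ #B = #ι ∧ (∀ (z : M) (K : ℕ), ∃ u ∈ B, z - u ∈ dv M K) ∧ #M ≤ 2 ^ #ι

/-- the first condition -/
def S_C0 : Prop := ∀ (M : Type) [AddCommGroup M] (B : Set M) (lam : Cardinal.{0}), Amb M →
  ℵ₀ ≤ lam → #B ≤ lam → Nonempty (Cond M B lam)

/-- the conditional counterexample -/
def S_A : Prop := ∀ lam : Cardinal.{0}, lam.IsStrongLimit → ℵ₀ < lam → lam.ord.cof = ℵ₀ →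
  2 ^ lam = Order.succ lam → ∃ (G : Type) (_ : AddCommGroup G),
    (∀ g : G, ∀ n : ℕ, n ≠ 0 → n • g = 0 → g = 0) ∧
    ¬ ∃ _ : Lattice G, (∀ a b c : G, a ≤ b → c + a ≤ c + b) ∧
      ∀ a b : G, (∀ n : ℕ, n • a ≤ b) → a ≤ 0

/-! ### the forcing argument in the ground model -/

section

variable {M : Type} [AddCommGroup M] {B : Set M} {lam : Cardinal.{0}}

/-- `p` forces that `y` is the positive part of `x` -/
def FPos (R : Cond M B lam → M → M → Prop) (p : Cond M B lam) (x y : M) : Prop :=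
  R p 0 y ∧ R p x y ∧ ∀ q ≤ p, ∀ z ∈ q.H, R q 0 z → R q x z → ∃ r ≤ q, R r y z

/-- `p` forces that the relation named by `R` is an Archimedean lattice order -/
structure Gd (R : Cond M B lam → M → M → Prop) (p : Cond M B lam) : Prop where
  rfl : ∀ q ≤ p, ∀ x ∈ q.H, ∃ r ≤ q, R r x x
  trans : ∀ q ≤ p, ∀ x ∈ q.H, ∀ y ∈ q.H, ∀ z ∈ q.H, R q x y → R q y z → ∃ r ≤ q, R r x z
  anti : ∀ q ≤ p, ∀ x ∈ q.H, ∀ y ∈ q.H, R q x y → R q y x → x = y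
  add : ∀ q ≤ p, ∀ x ∈ q.H, ∀ y ∈ q.H, ∀ z ∈ q.H, R q x y → ∃ r ≤ q, R r (z + x) (z + y)
  pos : ∀ q ≤ p, ∀ x ∈ q.H, ∃ r ≤ q, ∃ y ∈ r.H, FPos R r x y
  arch : ∀ q ≤ p, ∀ x ∈ q.H, ∀ y ∈ q.H, (∀ n : ℕ, R q (n • x) y) → ∃ r ≤ q, R r x 0

end

/-- one step of the decision -/
def S_G1 : Prop := ∀ (M : Type) [AddCommGroup M] (B : Set M) (lam : Cardinal.{0})
  (R : Cond M B lam → M → M → Prop) (p : Cond M B lam), ℵ₀ ≤ lam →
  (∀ p q x y, q ≤ p → R p x y → R q x y) → Gd R p →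
  ∃ q ≤ p, (∀ x ∈ p.H, ∀ y ∈ p.H, R q x y ∨ ∀ r ≤ q, ¬ R r x y) ∧
    (∀ x ∈ p.H, ∃ y ∈ q.H, FPos R q x y) ∧
    ∀ (K : ℕ), ∀ u ∈ p.H, ∀ v ∈ p.H, (∃ z z', z ∈ q.H ∧ z' ∈ q.H ∧ FPos R q z z' ∧
      z - u ∈ dv M K ∧ z' - v ∈ dv M K) ∨ ∀ r ≤ q, ¬ ∃ z z', z ∈ r.H ∧ z' ∈ r.H ∧
      FPos R r z z' ∧ z - u ∈ dv M K ∧ z' - v ∈ dv M K

section

variable {M : Type} [AddCommGroup M] {B : Set M} {lam : Cardinal.{0}}

/-- `q` decides the lattice ordered group `L` -/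
structure Dec (R : Cond M B lam → M → M → Prop) (q : Cond M B lam) (L : LG M) : Prop where
  eq : L.N = q.H
  arch : L.Arch
  dec : ∀ x y : L.N, R q x y ∨ ∀ r ≤ q, ¬ R r x y
  le : ∀ x y : L.N, x ≤ y ↔ R q x y
  pos : ∀ x : L.N, FPos R q x ((x⁺ : L.N) : M)
  wit : ∀ (K : ℕ) (u v : L.N), (∃ r ≤ q, ∃ z z', z ∈ r.H ∧ z' ∈ r.H ∧ FPos R r z z' ∧
      z - u ∈ dv M K ∧ z' - v ∈ dv M K) →
    ∃ z : L.N, (z : M) - u ∈ dv M K ∧ ((z⁺ : L.N) : M) - v ∈ dv M K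

end

/-- decided lattice ordered groups exist -/
def S_G2 : Prop := ∀ (M : Type) [AddCommGroup M] (B : Set M) (lam : Cardinal.{0})
  (R : Cond M B lam → M → M → Prop) (p : Cond M B lam), ℵ₀ ≤ lam →
  (∀ p q x y, q ≤ p → R p x y → R q x y) → Gd R p → ∃ q ≤ p, ∃ L : LG M, Dec R q L

/-- decided lattice ordered groups are sublattices of each other -/
def S_G3 : Prop := ∀ (M : Type) [AddCommGroup M] (B : Set M) (lam : Cardinal.{0})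
  (R : Cond M B lam → M → M → Prop) (p q : Cond M B lam) (L L' : LG M),
  (∀ p q x y, q ≤ p → R p x y → R q x y) → Gd R p → q ≤ p → Dec R p L → Dec R q L' →
  L.N ≤ L'.N → L.Sub L' ∧ L.Cls L'

/-- no condition forces that the relation is an Archimedean lattice order -/
def S_GF : Prop := ∀ (M : Type) [AddCommGroup M] (B : Set M) (lam : Cardinal.{0}), Amb M →
  lam.IsStrongLimit → ℵ₀ < lam → lam.ord.cof = ℵ₀ → #B = lam →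
  (∀ (z : M) (K : ℕ), ∃ u ∈ B, z - u ∈ dv M K) →
  ∀ R : Cond M B lam → M → M → Prop, (∀ p q x y, q ≤ p → R p x y → R q x y) →
  ∀ p, ¬ Gd R p

end Pool.Agent.CN
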